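import Pool.Agent.R502.WD.ApS

/-!
Prescribed scales: classes in which the Chebyshev function does not grow on several prescribed
intervals.
-/

set_option autoImplicit false

open Finset Filter Topology

namespace Pool.Agent.R502.WD

/-- `ψ(x, q, a)` -/
noncomputable def psiA (x : ℝ) (q a : ℕ) : ℝ :=
  ∑ n ∈ (Icc 1 ⌊x⌋₊).filter (fun n => n ≡ a [MOD q]), ArithmeticFunction.vonMangoldt n

theorem card_J {u v : ℝ} (hu : 0 ≤ u) (hv : 0 ≤ v) :
    ((Icc ⌊u⌋₊ ⌊u + v⌋₊).card : ℝ) ≤ v + 2 := by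
  rw [Nat.card_Icc]
  have h1 : ⌊u⌋₊ ≤ ⌊u + v⌋₊ + 1 := (Nat.floor_mono (by linarith)).trans (Nat.le_succ _)
  rw [Nat.cast_sub h1]
  push_cast
  have h2 := Nat.floor_le (show 0 ≤ u + v by linarith)
  have h3 := Nat.lt_floor_add_one u
  linarith

open Classical in
/-- **Arbitrary sparse sets of members of the classes are free of prime powers.** -/
theorem psi_sets (lam : ℝ) (hlam : 0 < lam) :
    ∃ c : ℝ, 0 < c ∧ ∀ A : ℕ, ∃ q₀ : ℕ, ∀ q : ℕ, q₀ ≤ q → q.Prime → ∀ J : Finset ℕ,
      (J.card : ℝ) ≤ lam * Real.log q → (∀ j ∈ J, (j : ℝ) ≤ Real.log q ^ A) →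
      c * q ≤ (((range q).filter (fun a => a.Coprime q ∧
        ∀ j ∈ J, ArithmeticFunction.vonMangoldt (a + j * q) = 0)).card : ℝ) := by
  obtain ⟨c, hc, h⟩ := ap_set (1 / 2) lam (by norm_num) (by norm_num) hlam
  obtain ⟨C, hC, hpow⟩ := few_powers
  refine ⟨c / 4, by positivity, fun A => ?_⟩
  obtain ⟨q₁, hq₁⟩ := h A
  have e1 : ∀ᶠ q : ℕ in atTop, Real.log q ^ (A + 1) ≤ (c / (4 * C)) ^ 2 * q := by
    have h0 : (0 : ℝ) < (c / (4 * C)) ^ 2 := by positivity
    have h1 := (Real.isLittleO_pow_log_id_atTop (n := A + 1)).def h0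
    filter_upwards [tendsto_natCast_atTop_atTop.eventually h1, eventually_ge_atTop 1] with q h2 h3
    have h3' : (1 : ℝ) ≤ q := by exact_mod_cast h3
    rw [Real.norm_eq_abs, Real.norm_eq_abs, id, abs_of_nonneg (by
      have := Real.log_nonneg h3'
      positivity), abs_of_nonneg (by linarith)] at h2
    exact h2
  have e2 : ∀ᶠ q : ℕ in atTop, (2 : ℝ) ≤ Real.log q :=
    (Real.tendsto_log_atTop.comp tendsto_natCast_atTop_atTop).eventually_ge_atTop _
  obtain ⟨q₂, hq₂⟩ := eventually_atTop.1 (e1.and e2)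
  refine ⟨q₁ + q₂ + 16, fun q hq hqp J hJ hJA => ?_⟩
  obtain ⟨hE1, hL2⟩ := hq₂ q (by omega)
  have hq0 : (0 : ℝ) < q := by exact_mod_cast (by omega : 0 < q)
  have hLA : 1 ≤ Real.log q ^ A := one_le_pow₀ (by linarith)
  -- the classes
  set s := Nat.sqrt q with hs
  have hs1 : s * s ≤ q := Nat.sqrt_le q
  have hs2 : q < (s + 1) * (s + 1) := Nat.lt_succ_sqrt q
  have hs4 : 4 ≤ s := by
    by_contra hcon
    have : (s + 1) * (s + 1) ≤ 4 * 4 := Nat.mul_le_mul (by omega) (by omega)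
    omega
  have hq2 : 2 * s + 2 ≤ q := by nlinarith
  have hsq : (q : ℝ) ^ (1 / 2 : ℝ) < s + 1 := by
    rw [← Real.sqrt_eq_rpow]
    rw [Real.sqrt_lt' (by positivity)]
    have : (q : ℝ) < ((s + 1) * (s + 1) : ℕ) := by exact_mod_cast hs2
    push_cast at this
    nlinarith
  have hy : (s + 1) + (q - (s + 1)) = q := by omega
  have hyr : ((q - (s + 1) : ℕ) : ℝ) = q - (s + 1) := by
    rw [Nat.cast_sub (by omega)]
    push_cast
    ring
  have hq2r : 2 * (s : ℝ) + 2 ≤ q := by exact_mod_cast hq2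
  have hG := hq₁ q (by omega) (by
      intro p hp hpq
      have h1 := (Nat.prime_dvd_prime_iff_eq hp hqp).1 hpq
      rw [h1]
      refine hsq.trans_le ?_
      linarith) (s + 1) (q - (s + 1)) (by omega) (by omega) (by rw [hyr]; linarith) J hJ hJA
  rw [hy] at hG
  set G := (Ico (s + 1) q).filter (fun a => ∀ j ∈ J,
        ∃ p : ℕ, p.Prime ∧ (p : ℝ) ≤ (q : ℝ) ^ (1 / 2 : ℝ) ∧ p ∣ a + j * q) with hGd
  -- the prime powers
  set M := ⌊q * Real.log q ^ (A + 1)⌋₊ with hM
  set Z := ((Ioc 0 M).filter (fun n => IsPrimePow n ∧ ¬ n.Prime)).image (fun n => n % q) with hZ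
  have hZcard : (Z.card : ℝ) ≤ c / 4 * q := by
    have h1 : (Z.card : ℝ) ≤ C * Real.sqrt M := by
      refine le_trans ?_ (hpow M)
      exact_mod_cast card_image_le
    refine h1.trans ?_
    have h2 : Real.sqrt M ≤ c / (4 * C) * q := by
      rw [Real.sqrt_le_left (by positivity)]
      calc (M : ℝ) ≤ q * Real.log q ^ (A + 1) := Nat.floor_le (by positivity)
        _ ≤ q * ((c / (4 * C)) ^ 2 * q) := mul_le_mul_of_nonneg_left hE1 hq0.le
        _ = (c / (4 * C) * q) ^ 2 := by ring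
    calc C * Real.sqrt M ≤ C * (c / (4 * C) * q) := mul_le_mul_of_nonneg_left h2 hC.le
      _ = c / 4 * q := by field_simp
  have hGcard : c / 2 * q ≤ G.card := by
    refine le_trans ?_ hG
    rw [hyr]
    nlinarith
  have hsub : G \ Z ⊆ (range q).filter (fun a => a.Coprime q ∧
        ∀ j ∈ J, ArithmeticFunction.vonMangoldt (a + j * q) = 0) := by
    intro a ha
    rw [Finset.mem_sdiff, hGd, mem_filter, mem_Ico] at ha
    obtain ⟨⟨⟨ha1, ha2⟩, ha3⟩, ha4⟩ := ha
    rw [mem_filter, mem_range]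
    refine ⟨ha2, ?_, ?_⟩
    · rw [Nat.coprime_comm, Nat.Prime.coprime_iff_not_dvd hqp]
      intro hdvd
      have := Nat.le_of_dvd (by omega) hdvd
      omega
    · intro j hj
      rw [ArithmeticFunction.vonMangoldt_eq_zero_iff]
      intro hpp
      by_cases hnp : (a + j * q).Prime
      · obtain ⟨p, hp, hpq, hpd⟩ := ha3 j hj
        have h3 := (Nat.prime_dvd_prime_iff_eq hp hnp).1 hpd
        have h4 : (s : ℝ) + 1 ≤ a := by exact_mod_cast ha1
        have h5 : (0 : ℝ) ≤ j * q := by positivity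
        rw [h3] at hpq
        push_cast at hpq
        linarith
      · apply ha4
        rw [hZ, mem_image]
        refine ⟨a + j * q, ?_, ?_⟩
        · rw [mem_filter, mem_Ioc]
          refine ⟨⟨by omega, ?_⟩, hpp, hnp⟩
          rw [hM]
          apply Nat.le_floor
          push_cast
          have har : (a : ℝ) ≤ q := by exact_mod_cast ha2.le
          calc (a : ℝ) + j * q ≤ q + Real.log q ^ A * q :=
                add_le_add har (mul_le_mul_of_nonneg_right (hJA j hj) hq0.le)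
            _ = q * (1 + Real.log q ^ A) := by ring
            _ ≤ q * Real.log q ^ (A + 1) := by
                apply mul_le_mul_of_nonneg_left _ hq0.le
                rw [pow_succ]
                nlinarith
        · rw [Nat.add_mul_mod_self_right, Nat.mod_eq_of_lt ha2]
  have h1 : (G.card : ℝ) - Z.card ≤ ((G \ Z).card : ℝ) := by
    have := le_card_sdiff Z G
    have h2 : (G.card : ℝ) ≤ ((G \ Z).card : ℝ) + Z.card := by
      have h3 : G.card ≤ (G \ Z).card + Z.card := by omega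
      exact_mod_cast h3
    linarith
  have h2 : ((G \ Z).card : ℝ) ≤ _ := Nat.cast_le.2 (card_le_card hsub)
  refine le_trans ?_ h2
  linarith

open Classical in
/-- **Prescribed scales.** -/
theorem psi_scales (lam : ℝ) (hlam : 0 < lam) (m : ℕ) :
    ∃ c : ℝ, 0 < c ∧ ∀ A : ℕ, ∃ q₀ : ℕ, ∀ q : ℕ, q₀ ≤ q → q.Prime → ∀ x : Fin m → ℝ,
      (∀ i, 0 ≤ x i ∧ x i ≤ q * Real.log q ^ A) →
      c * q ≤ (((range q).filter (fun a => a.Coprime q ∧
        ∀ i, psiA (x i + lam * q * Real.log q) q a = psiA (x i) q a)).card : ℝ) := by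
  obtain ⟨lam', hlam'⟩ : ∃ l : ℝ, l = m * (lam + 1) + 1 := ⟨_, rfl⟩
  have hlam'0 : 0 < lam' := by rw [hlam']; positivity
  obtain ⟨c, hc, h⟩ := psi_sets lam' hlam'0
  refine ⟨c, hc, fun A => ?_⟩
  obtain ⟨q₁, hq₁⟩ := h (A + 2)
  have e2 : ∀ᶠ q : ℕ in atTop, lam + 2 ≤ Real.log q :=
    (Real.tendsto_log_atTop.comp tendsto_natCast_atTop_atTop).eventually_ge_atTop _
  obtain ⟨q₂, hq₂⟩ := eventually_atTop.1 e2
  refine ⟨q₁ + q₂ + 16, fun q hq hqp x hx => ?_⟩
  have hE2 := hq₂ q (by omega)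
  obtain ⟨L, hL⟩ : ∃ L : ℝ, L = Real.log q := ⟨_, rfl⟩
  rw [← hL] at hE2 hx ⊢
  have hL2 : 2 ≤ L := by linarith
  have hq0 : (0 : ℝ) < q := by exact_mod_cast (by omega : 0 < q)
  have hLA : 1 ≤ L ^ A := one_le_pow₀ (by linarith)
  have hLA2 : L ^ A + lam * L ≤ L ^ (A + 2) := by
    have h1 : 1 + lam * L ≤ L ^ 2 := by nlinarith
    calc L ^ A + lam * L ≤ L ^ A * (1 + lam * L) := by
          have : lam * L ≤ L ^ A * (lam * L) := by
            have h2 : 0 ≤ lam * L := by positivity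
            nlinarith
          linarith
      _ ≤ L ^ A * L ^ 2 := mul_le_mul_of_nonneg_left h1 (by positivity)
      _ = L ^ (A + 2) := by ring
  -- the positions
  set J : Finset ℕ := univ.biUnion
    (fun i : Fin m => Icc ⌊x i / q⌋₊ ⌊x i / q + lam * L⌋₊) with hJ
  have hxq : ∀ i, 0 ≤ x i / q ∧ x i / q ≤ L ^ A := by
    intro i
    refine ⟨div_nonneg (hx i).1 hq0.le, ?_⟩
    rw [div_le_iff₀ hq0]
    linarith [(hx i).2]
  have hJcard : (J.card : ℝ) ≤ lam' * L := by
    calc (J.card : ℝ) ≤ ((∑ i : Fin m, (Icc ⌊x i / q⌋₊ ⌊x i / q + lam * L⌋₊).card : ℕ) : ℝ) :=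
          Nat.cast_le.2 card_biUnion_le
      _ = ∑ i : Fin m, ((Icc ⌊x i / q⌋₊ ⌊x i / q + lam * L⌋₊).card : ℝ) := by push_cast; rfl
      _ ≤ ∑ _i : Fin m, (lam * L + 2) :=
          sum_le_sum fun i _ => card_J (hxq i).1 (by positivity)
      _ = m * (lam * L + 2) := by rw [sum_const, card_univ, Fintype.card_fin, nsmul_eq_mul]
      _ ≤ m * (lam * L + L) := mul_le_mul_of_nonneg_left (by linarith) (Nat.cast_nonneg _)
      _ ≤ lam' * L := by
          rw [hlam']
          nlinarith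
  have hJA : ∀ j ∈ J, (j : ℝ) ≤ Real.log q ^ (A + 2) := by
    intro j hj
    rw [hJ, mem_biUnion] at hj
    obtain ⟨i, -, hj⟩ := hj
    rw [mem_Icc] at hj
    have h1 : (j : ℝ) ≤ x i / q + lam * L := by
      have h2 : 0 ≤ x i / q + lam * L := by
        have := (hxq i).1
        positivity
      exact (Nat.cast_le.2 hj.2).trans (Nat.floor_le h2)
    rw [← hL]
    have := (hxq i).2
    linarith
  refine (hq₁ q (by omega) hqp J (by rw [← hL]; exact hJcard) hJA).trans ?_
  apply Nat.cast_le.2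
  apply card_le_card
  intro a ha
  rw [mem_filter, mem_range] at ha
  obtain ⟨ha2, hac, haJ⟩ := ha
  rw [mem_filter, mem_range]
  refine ⟨ha2, hac, ?_⟩
  intro i
  unfold psiA
  symm
  apply sum_subset
  · intro n hn
    rw [mem_filter, mem_Icc] at hn ⊢
    refine ⟨⟨hn.1.1, hn.1.2.trans (Nat.floor_mono ?_)⟩, hn.2⟩
    have : 0 ≤ lam * q * L := by positivity
    linarith
  · intro n hn hn2
    rw [mem_filter, mem_Icc] at hn hn2
    obtain ⟨⟨hn0, hn1⟩, hnm⟩ := hn
    have hnx : x i < n := by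
      by_contra hcon
      rw [not_lt] at hcon
      exact hn2 ⟨⟨hn0, Nat.le_floor hcon⟩, hnm⟩
    have hn1' : (n : ℝ) ≤ x i + lam * q * L := by
      have h2 : 0 ≤ x i + lam * q * L := by
        have := (hx i).1
        positivity
      exact (Nat.cast_le.2 hn1).trans (Nat.floor_le h2)
    have hmod : n % q = a := by
      have := hnm
      unfold Nat.ModEq at this
      rw [this, Nat.mod_eq_of_lt ha2]
    obtain ⟨j, hj⟩ : ∃ j, j = n / q := ⟨_, rfl⟩
    have hnj : n = a + j * q := by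
      rw [hj, ← hmod, mul_comm]
      exact (Nat.mod_add_div n q).symm
    have hnjr : (n : ℝ) = a + j * q := by
      rw [hnj]
      push_cast
      ring
    have har : (a : ℝ) < q := by exact_mod_cast ha2
    have ha0 : (0 : ℝ) ≤ a := Nat.cast_nonneg _
    have hjJ : j ∈ J := by
      rw [hJ, mem_biUnion]
      refine ⟨i, mem_univ _, ?_⟩
      rw [mem_Icc]
      constructor
      · have h1 : x i / q < j + 1 := by
          rw [div_lt_iff₀ hq0]
          nlinarith
        have h2 : ⌊x i / q⌋₊ < j + 1 := by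
          rw [Nat.floor_lt (hxq i).1]
          push_cast
          exact h1
        omega
      · apply Nat.le_floor
        have h1 : (j : ℝ) * q ≤ (x i / q + lam * L) * q := by
          have h2 : (x i / q + lam * L) * q = x i + lam * q * L := by
            field_simp
          rw [h2]
          linarith
        exact le_of_mul_le_mul_right h1 hq0
    rw [hnj]
    exact haJ j hjJ

end Pool.Agent.R502.WD
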