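import Pool.Agent.R502.WD.ClsS

/-!
Arithmetic progressions: arbitrary sparse sets of members of the classes.
-/

set_option autoImplicit false

open Finset Filter Topology

namespace Pool.Agent.R502.WD

open Pool.Agent.H361R2.PP
open Pool.Agent.R526.AA
open Pool.Agent.R502.AQ
open Pool.Agent.R502.LG

open Classical in
/-- **arbitrary sparse sets of members of the classes** -/
theorem ap_set (δ lam : ℝ) (hδ : 0 < δ) (hδ1 : δ ≤ 1) (hlam : 0 < lam) :
    ∃ c : ℝ, 0 < c ∧ ∀ A : ℕ, ∃ q₀ : ℕ, ∀ q : ℕ, q₀ ≤ q →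
      (∀ p : ℕ, p.Prime → p ∣ q → (q : ℝ) ^ δ < p) →
      ∀ a₀ y : ℕ, 1 ≤ a₀ → a₀ + y ≤ 2 * q → (q : ℝ) ^ δ ≤ y → ∀ J : Finset ℕ,
      (J.card : ℝ) ≤ lam * Real.log q → (∀ j ∈ J, (j : ℝ) ≤ Real.log q ^ A) →
      c * y ≤ (((Ico a₀ (a₀ + y)).filter (fun a => ∀ j ∈ J,
        ∃ p : ℕ, p.Prime ∧ (p : ℝ) ≤ (q : ℝ) ^ δ ∧ p ∣ a + j * q)).card : ℝ) := by
  obtain ⟨c, hc, h⟩ := oneS (4 * lam / δ) (6 / δ) (by positivity) (by positivity)
  refine ⟨c, hc, fun A => ?_⟩
  obtain ⟨X1, hb⟩ := h A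
  obtain ⟨X2, hX2'⟩ := exists_nat_ge (Real.exp ((4 / δ) ^ A + 1))
  obtain ⟨q₀, hq₀⟩ := scale_q δ lam hδ hδ1 hlam (X1 + X2) 0
  refine ⟨q₀ + 2, fun q hq hqp a₀ y hA hAy hy J hJ hJA => ?_⟩
  obtain ⟨X, hX0, hX2, hXq, hl, hDx⟩ := hq₀ q (by omega)
  have hq1 : (1 : ℝ) ≤ q := by exact_mod_cast (by omega : 1 ≤ q)
  have hlq : 0 ≤ Real.log q := Real.log_nonneg hq1
  have hXpos : (0 : ℝ) < X := by exact_mod_cast (by omega : 0 < X)
  have hqX : ∀ p : ℕ, p.Prime → p ∣ q → X < p := by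
    intro p hp hpq
    have h1 := hqp p hp hpq
    exact_mod_cast lt_of_le_of_lt hXq h1
  obtain ⟨qi, hqi0, hqi⟩ := exists_inv hX2 hqX
  have hlam1 : lam * Real.log q ≤ (4 * lam / δ) * Real.log X :=
    (Nat.le_ceil _).trans hl
  have hlogq : Real.log q ≤ 4 / δ * Real.log X := by
    have h1 : lam * Real.log q ≤ lam * (4 / δ * Real.log X) := by
      refine hlam1.trans (le_of_eq ?_)
      ring
    exact le_of_mul_le_mul_left h1 hlam
  have hlX : (4 / δ) ^ A + 1 ≤ Real.log X := by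
    rw [Real.le_log_iff_exp_le hXpos]
    refine hX2'.trans ?_
    exact_mod_cast (by omega : X2 ≤ X)
  have h4δ : (0 : ℝ) ≤ (4 / δ) ^ A := by positivity
  have hlX1 : 1 ≤ Real.log X := by linarith
  have hcard : ((Ico a₀ (a₀ + y)).image (fun a => nu qi X.factorial a + 0)).card = y := by
    rw [card_image_of_injective _ (nu_inj hqi0 0), Nat.card_Ico, Nat.add_sub_cancel_left]
  have hP : 1 ≤ X.factorial := Nat.one_le_iff_ne_zero.2 (Nat.factorial_ne_zero X)
  have h1 := hb X (by omega) ((Ico a₀ (a₀ + y)).image (fun a => nu qi X.factorial a + 0))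
    (nu_Sz hX2 hqX hqi a₀ y 0 hA _ (by
      refine le_trans ?_ hDx
      rw [Nat.cast_le]
      have h2 : (0 + X) * q ≤ (0 * ⌈lam * Real.log q⌉₊ + X) * q := by simp
      omega)) (by
      rw [hcard]
      intro m hm hmX r
      have h2 := nu_Lv hqi0 hqi a₀ y 0 m hm hmX r
      refine h2.trans ?_
      rw [le_div_iff₀ hXpos]
      linarith) (J.image (fun j => j + 1)) (by
      refine le_trans ?_ hlam1
      refine le_trans ?_ hJ
      exact_mod_cast card_image_le) (by
      intro a ha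
      rw [mem_image] at ha
      obtain ⟨j, hj, rfl⟩ := ha
      refine ⟨by omega, ?_⟩
      have h2 := hJA j hj
      push_cast
      calc (j : ℝ) + 1 ≤ Real.log q ^ A + 1 := by linarith
        _ ≤ (4 / δ * Real.log X) ^ A + Real.log X ^ A := by
            apply add_le_add
            · exact pow_le_pow_left₀ hlq hlogq A
            · exact one_le_pow₀ hlX1
        _ = ((4 / δ) ^ A + 1) * Real.log X ^ A := by rw [mul_pow]; ring
        _ ≤ Real.log X * Real.log X ^ A := mul_le_mul_of_nonneg_right hlX (by positivity)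
        _ = Real.log X ^ (A + 1) := by ring)
  rw [hcard] at h1
  refine h1.trans ?_
  rw [filter_image, card_image_of_injective _ (nu_inj hqi0 0)]
  apply Nat.cast_le.2
  apply card_le_card
  intro a ha
  rw [mem_filter] at ha ⊢
  refine ⟨ha.1, fun j hj => ?_⟩
  obtain ⟨p, hp, hpX, hpd⟩ := ha.2 (j + 1) (mem_image_of_mem _ hj)
  rw [Nat.add_zero] at hpd
  have h3 : Nat.Coprime p q := by
    rw [Nat.Prime.coprime_iff_not_dvd hp]
    intro h4
    have := hqX p hp h4
    omega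
  have h4 := (nu_dvd hP hqi (Nat.dvd_factorial hp.pos hpX) h3 (by omega)).1 hpd
  rw [Nat.add_sub_cancel] at h4
  refine ⟨p, hp, ?_, h4⟩
  have : (p : ℝ) ≤ X := by exact_mod_cast hpX
  linarith

/-- there are few proper prime powers -/
theorem few_powers : ∃ C : ℝ, 0 < C ∧ ∀ M : ℕ,
    (((Ioc 0 M).filter (fun n => IsPrimePow n ∧ ¬ n.Prime)).card : ℝ) ≤ C * Real.sqrt M := by
  obtain ⟨C, hC⟩ := Chebyshev.psi_sub_theta_le_mul_sqrt
  have hl2 : 0 < Real.log 2 := Real.log_pos (by norm_num)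
  refine ⟨max C 1 / Real.log 2, by positivity, fun M => ?_⟩
  have h1 := hC M
  rw [Chebyshev.psi_sub_theta_eq_sum_not_prime, Nat.floor_natCast] at h1
  have h2 : (((Ioc 0 M).filter (fun n => IsPrimePow n ∧ ¬ n.Prime)).card : ℝ) * Real.log 2 ≤
      ∑ n ∈ (Ioc 0 M).filter (fun n => ¬ n.Prime), ArithmeticFunction.vonMangoldt n := by
    calc (((Ioc 0 M).filter (fun n => IsPrimePow n ∧ ¬ n.Prime)).card : ℝ) * Real.log 2
        = ∑ n ∈ (Ioc 0 M).filter (fun n => IsPrimePow n ∧ ¬ n.Prime), Real.log 2 := by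
          rw [sum_const, nsmul_eq_mul]
      _ ≤ ∑ n ∈ (Ioc 0 M).filter (fun n => IsPrimePow n ∧ ¬ n.Prime),
          ArithmeticFunction.vonMangoldt n := by
          apply sum_le_sum
          intro n hn
          rw [mem_filter] at hn
          rw [ArithmeticFunction.vonMangoldt_apply, if_pos hn.2.1]
          apply Real.log_le_log (by norm_num)
          have hne : n ≠ 1 := hn.2.1.ne_one
          exact_mod_cast (Nat.minFac_prime hne).two_le
      _ ≤ _ := by
          apply sum_le_sum_of_subset_of_nonneg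
          · intro n hn
            rw [mem_filter] at hn ⊢
            exact ⟨hn.1, hn.2.2⟩
          · intro n _ _
            exact ArithmeticFunction.vonMangoldt_nonneg
  rw [div_mul_eq_mul_div, le_div_iff₀ hl2]
  refine h2.trans (h1.trans ?_)
  exact mul_le_mul_of_nonneg_right (le_max_left _ _) (Real.sqrt_nonneg _)

end Pool.Agent.R502.WD
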