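import Pool.Agent.R502.WD.Thm

/-!
Translates of `K` disjoint sparse sets: for almost all integers a proportion of the sets is good.
-/

set_option autoImplicit false

open Finset Filter Topology

namespace Pool.Agent.R502.WD

open Pool.Agent.H361R2.PP
open Pool.Agent.R526.AA
open Pool.Agent.R502.AQ
open Pool.Agent.H862R2.PPSm5
open Pool.Agent.H20R2.EQI

open Classical in
/-- averaging over groups, with a bound on average -/
theorem avg2 {α : Type} (S : Finset α) (Q : α → ℕ → Prop) (k m K : ℕ) (hm0 : 0 < m)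
    (hm : m * k ≤ K) (c e : ℝ) (hc : c * K ≤ m / 2)
    (h : ∑ j ∈ range m, ((S.filter (fun n => ¬ ∃ i < k, Q n (j * k + i))).card : ℝ) ≤ m * e) :
    ((S.filter (fun n => (((range K).filter (fun i => Q n i)).card : ℝ) < c * K)).card : ℝ) ≤
      2 * e := by
  set Bd := S.filter (fun n => (((range K).filter (fun i => Q n i)).card : ℝ) < c * K) with hBd
  have hm0' : (0 : ℝ) < m := by exact_mod_cast hm0
  have h1 : ∀ n ∈ Bd, (m : ℝ) / 2 ≤
      (((range m).filter (fun j => ¬ ∃ i < k, Q n (j * k + i))).card : ℝ) := by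
    intro n hn
    have h2 := (mem_filter.1 hn).2
    have h3 := Pool.Agent.R502.TW.groups' Q n k m K hm
    have h4 := card_filter_add_card_filter_not (s := range m)
      (fun j => ∃ i < k, Q n (j * k + i))
    rw [card_range] at h4
    have h5 : (((range m).filter (fun j => ∃ i < k, Q n (j * k + i))).card : ℝ) +
        (((range m).filter (fun j => ¬ ∃ i < k, Q n (j * k + i))).card : ℝ) = m := by
      exact_mod_cast h4
    have h6 : (((range m).filter (fun j => ∃ i < k, Q n (j * k + i))).card : ℝ) ≤
        (((range K).filter (fun i => Q n i)).card : ℝ) := by exact_mod_cast h3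
    linarith
  have h2 : (Bd.card : ℝ) * (m / 2) ≤ ∑ n ∈ Bd,
      (((range m).filter (fun j => ¬ ∃ i < k, Q n (j * k + i))).card : ℝ) := by
    rw [← nsmul_eq_mul, ← sum_const]
    exact sum_le_sum h1
  have h3 : ∑ n ∈ Bd,
      (((range m).filter (fun j => ¬ ∃ i < k, Q n (j * k + i))).card : ℝ) ≤
      ∑ j ∈ range m, ((S.filter (fun n => ¬ ∃ i < k, Q n (j * k + i))).card : ℝ) := by
    calc ∑ n ∈ Bd, (((range m).filter (fun j => ¬ ∃ i < k, Q n (j * k + i))).card : ℝ) ≤
        ∑ n ∈ S, (((range m).filter (fun j => ¬ ∃ i < k, Q n (j * k + i))).card : ℝ) :=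
          sum_le_sum_of_subset_of_nonneg (filter_subset _ _) (fun _ _ _ => Nat.cast_nonneg _)
      _ = _ := by
          simp only [card_filter, Nat.cast_sum]
          rw [sum_comm]
  have h5 : (Bd.card : ℝ) * (m / 2) ≤ m * e := (h2.trans h3).trans h
  have h6 : (Bd.card : ℝ) * (m / 2) ≤ (2 * e) * (m / 2) := by linarith
  exact le_of_mul_le_mul_right h6 (by positivity)

/-- sum over the groups -/
theorem sum_groups (k m : ℕ) (f : ℕ → ℝ) :
    ∑ j ∈ range m, ∑ i ∈ range k, f (j * k + i) = ∑ i ∈ range (m * k), f i := by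
  induction m with
  | zero => simp
  | succ m ih =>
    rw [sum_range_succ, ih, Nat.succ_mul, sum_range_add]

open Classical in
/-- **many sparse sets**: for almost all the integers `n` of an interval a proportion of `K`
disjoint sets is good, if the sets are sparse on average -/
theorem blocks (lam ε Dx : ℝ) (hlam : 0 < lam) (hε : 0 < ε) (hDx : 0 ≤ Dx) :
    ∃ c : ℝ, 0 < c ∧ ∃ K₀ : ℕ, ∀ K : ℕ, K₀ ≤ K → ∀ A : ℕ, ∃ X₀ : ℕ, ∀ X : ℕ, X₀ ≤ X → ∀ x : ℕ,
      (x : ℝ) + 2 * X ≤ (X : ℝ) ^ Dx → ∀ B : ℕ → Finset ℕ,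
      (∀ i < K, ∀ a ∈ B i, 1 ≤ a ∧ (a : ℝ) ≤ Real.log X ^ (A + 1)) →
      (∀ i < K, ∀ j < K, i ≠ j → Disjoint (B i) (B j)) →
      ∑ i ∈ range K, ((B i).card : ℝ) ≤ lam * K * Real.log X →
      (((Ico x (x + X)).filter (fun n =>
        (((range K).filter (fun i => Co X n (B i))).card : ℝ) < c * K)).card : ℝ) ≤ ε * X := by
  obtain ⟨ε', hε'⟩ : ∃ ε' : ℝ, ε' = min 1 ε / 8 := ⟨_, rfl⟩
  have hε'0 : 0 < ε' := by
    rw [hε']
    have : 0 < min 1 ε := lt_min one_pos hε
    positivity
  have hε'1 : ε' ≤ 1 := by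
    rw [hε']
    have : min 1 ε ≤ 1 := min_le_left _ _
    linarith
  have hε'2 : 8 * ε' ≤ ε := by
    rw [hε']
    have : min 1 ε ≤ ε := min_le_right _ _
    linarith
  obtain ⟨κ, hκ⟩ : ∃ κ : ℝ, κ = 32 * lam / ε := ⟨_, rfl⟩
  have hκ0 : 0 < κ := by rw [hκ]; positivity
  obtain ⟨k, hk0, h⟩ := many κ ε' Dx hκ0 hε'0 hε'1 hDx
  have hkr : (0 : ℝ) < k := by exact_mod_cast hk0
  refine ⟨1 / (8 * k), by positivity, 2 * k, fun K hK A => ?_⟩
  obtain ⟨X1, hX1⟩ := h A
  refine ⟨X1 + 16, fun X hX x hx B hBa hBd hBs => ?_⟩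
  have hX16 : (16 : ℝ) ≤ X := by exact_mod_cast (by omega : 16 ≤ X)
  have hXr : (0 : ℝ) < X := by linarith
  have hL : 0 < Real.log X := Real.log_pos (by linarith)
  obtain ⟨m, hm⟩ : ∃ m, m = K / (2 * k) := ⟨_, rfl⟩
  have hm0 : 0 < m := by
    rw [hm]
    exact Nat.div_pos hK (by omega)
  have hmK : m * (2 * k) ≤ K := by
    rw [hm]
    exact Nat.div_mul_le_self _ _
  have hKm : K ≤ m * (4 * k) := by
    have h1 : K < (m + 1) * (2 * k) := by
      rw [hm]
      have := Nat.lt_div_mul_add (a := K) (b := 2 * k) (by omega)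
      rw [Nat.succ_mul]
      exact this
    have h2 : (m + 1) * (2 * k) ≤ (2 * m) * (2 * k) := Nat.mul_le_mul_right _ (by omega)
    have h3 : (2 * m) * (2 * k) = m * (4 * k) := by ring
    omega
  have hKmr : (K : ℝ) ≤ m * (4 * k) := by exact_mod_cast hKm
  have hm0r : (0 : ℝ) < m := by exact_mod_cast hm0
  have hlt : ∀ j < m, ∀ i < 2 * k, j * (2 * k) + i < K := by
    intro j hj i hi
    have h1 : (j + 1) * (2 * k) ≤ m * (2 * k) := Nat.mul_le_mul_right _ hj
    have h2 : (j + 1) * (2 * k) = j * (2 * k) + 2 * k := by ring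
    omega
  have hmain := avg2 (Ico x (x + X)) (fun n i => Co X n (B i)) (2 * k) m K hm0 hmK
    (1 / (8 * k)) (ε / 2 * X) (by
      rw [div_mul_eq_mul_div, one_mul, div_le_iff₀ (by positivity)]
      linarith) (by
      calc ∑ j ∈ range m, (((Ico x (x + X)).filter
            (fun n => ¬ ∃ i < 2 * k, Co X n (B (j * (2 * k) + i)))).card : ℝ)
          ≤ ∑ j ∈ range m, (2 * ε' + 2 * (∑ i ∈ range (2 * k),
            ((B (j * (2 * k) + i)).card : ℝ)) / (k * κ * Real.log X)) * X := by
            apply sum_le_sum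
            intro j hj
            rw [mem_range] at hj
            apply hX1 X (by omega) x hx (fun i => B (j * (2 * k) + i))
            · intro i hi a ha
              exact hBa _ (hlt j hj i hi) a ha
            · intro i hi i' hi' hii
              exact hBd _ (hlt j hj i hi) _ (hlt j hj i' hi') (fun h => hii (by omega))
        _ = (m * (2 * ε') + 2 * (∑ j ∈ range m, ∑ i ∈ range (2 * k),
            ((B (j * (2 * k) + i)).card : ℝ)) / (k * κ * Real.log X)) * X := by
            rw [← sum_mul, sum_add_distrib, sum_const, card_range, nsmul_eq_mul, ← sum_div,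
              ← mul_sum]
        _ ≤ m * (ε / 2 * X) := by
            rw [sum_groups (2 * k) m (fun i => ((B i).card : ℝ))]
            have h1 : ∑ i ∈ range (m * (2 * k)), ((B i).card : ℝ) ≤ lam * K * Real.log X := by
              refine le_trans ?_ hBs
              apply sum_le_sum_of_subset_of_nonneg
              · intro i hi
                rw [mem_range] at hi ⊢
                omega
              · intro i _ _
                exact Nat.cast_nonneg _
            have h2 : 2 * (∑ i ∈ range (m * (2 * k)), ((B i).card : ℝ)) / (k * κ * Real.log X) ≤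
                m * (ε / 4) := by
              rw [div_le_iff₀ (by positivity)]
              have h3 : m * (ε / 4) * (k * κ * Real.log X) =
                  2 * (lam * (m * (4 * k)) * Real.log X) := by
                rw [hκ]
                field_simp
                ring
              rw [h3]
              have h4 : lam * K * Real.log X ≤ lam * (m * (4 * k)) * Real.log X := by
                gcongr
              linarith
            have h5 : (m : ℝ) * (2 * ε') ≤ m * (ε / 4) := by
              apply mul_le_mul_of_nonneg_left _ hm0r.le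
              linarith
            calc _ ≤ (m * (ε / 4) + m * (ε / 4)) * X :=
                  mul_le_mul_of_nonneg_right (add_le_add h5 h2) hXr.le
              _ = _ := by ring)
  refine hmain.trans (le_of_eq ?_)
  ring

end Pool.Agent.R502.WD
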