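import Pool.Agent.R502.WD.Alm
import Pool.Agent.R526.AA.Prm

/-!
Translates of arbitrary sparse sets without rough numbers: one residue class, and the average over
the residue classes.
-/

set_option autoImplicit false

open Finset Filter Topology

namespace Pool.Agent.R502.WD

open Pool.Agent.H361R2.PP
open Pool.Agent.R526.AA
open Pool.Agent.R502.AQ

/-- all the integers `n + a`, `a ∈ P`, have a prime factor at most `X` -/
def Co (X n : ℕ) (P : Finset ℕ) : Prop := ∀ a ∈ P, ∃ p : ℕ, p.Prime ∧ p ≤ X ∧ p ∣ n + a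

theorem Co_of {X b n : ℕ} {P : Finset ℕ} (hHX : HH X ≤ X) (hn : n % Wm X = b)
    (hB : ∀ a ∈ P.filter (fun a => (b + a).Coprime (Wm X)), ¬ Rf X (n + a)) : Co X n P := by
  intro a ha
  by_cases hc : (b + a).Coprime (Wm X)
  · have h1 := hB a (mem_filter.2 ⟨ha, hc⟩)
    unfold Rf at h1
    push Not at h1
    obtain ⟨p, hp, -, hpX, hpd⟩ := h1
    exact ⟨p, hp, hpX, hpd⟩
  · have h1 : Nat.gcd (n + a) (Wm X) ≠ 1 := by
      intro h2
      apply hc
      have h3 : (b + a) % Wm X = (n + a) % Wm X := by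
        rw [Nat.add_mod n a, hn, Nat.add_mod b a]
        congr 2
        rw [← hn]
        exact Nat.mod_mod _ _
      unfold Nat.Coprime
      rw [Nat.gcd_comm (b + a), Nat.gcd_rec (Wm X) (b + a), h3, ← Nat.gcd_rec (Wm X) (n + a),
        Nat.gcd_comm]
      exact h2
    obtain ⟨p, hp, hpd⟩ := Nat.exists_prime_and_dvd h1
    refine ⟨p, hp, ?_, hpd.trans (Nat.gcd_dvd_left _ _)⟩
    have h2 : p ∣ Wm X := hpd.trans (Nat.gcd_dvd_right _ _)
    unfold Wm primorial at h2
    rw [Prime.dvd_finsetProd_iff hp.prime] at h2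
    obtain ⟨q, hq, hpq⟩ := h2
    rw [mem_filter, mem_range] at hq
    have := (Nat.prime_dvd_prime_iff_eq hp hq.2).1 hpq
    omega

open Classical in
/-- one class -/
theorem cls (κ ε Dx : ℝ) (hκ : 0 < κ) (hε : 0 < ε) (hε1 : ε ≤ 1) (hDx : 0 ≤ Dx) :
    ∃ C : ℝ, 0 < C ∧ ∀ k : ℕ, 0 < k → ∀ A : ℕ, ∃ X₀ : ℕ, ∀ X : ℕ, X₀ ≤ X → ∀ x : ℕ,
      (x : ℝ) + 2 * X ≤ (X : ℝ) ^ Dx → ∀ b < Wm X, ∀ B : Fin k → Finset ℕ,
      (∀ i, ∀ a ∈ B i, 1 ≤ a ∧ (a : ℝ) ≤ Real.log X ^ (A + 1)) →
      (∀ i j, i ≠ j → Disjoint (B i) (B j)) →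
      (∀ i, (((B i).filter (fun a => (b + a).Coprime (Wm X))).card : ℝ) ≤
        κ * (Real.log X * (Nat.totient (Wm X) / Wm X))) →
      (1 - ε / 4) ^ 2 / (1 + ε / 8 + C / k) * ((X : ℝ) / Wm X) ≤
        ((((Ico x (x + X)).filter (fun n => n % Wm X = b)).filter
          (fun n => ∃ i, Co X n (B i))).card : ℝ) := by
  obtain ⟨Kq, Aq, C, hC, hA⟩ := almost4 κ ε Dx hκ hε hε1 hDx
  obtain ⟨X2, hX2⟩ := err_sum Kq Aq
  refine ⟨C, hC, fun k hk A => ?_⟩
  obtain ⟨X1, hX1⟩ := hA k hk A
  refine ⟨X1 + X2 + 16, fun X hX x hx b hb B hB hdis hcard => ?_⟩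
  have hW := Wm_pos X
  have hWr : (0 : ℝ) < Wm X := by exact_mod_cast hW
  have hX16 : (16 : ℝ) ≤ X := by exact_mod_cast (by omega : 16 ≤ X)
  have hXr : (0 : ℝ) < X := by linarith
  have hL : 0 < Real.log X := Real.log_pos (by linarith)
  have hHX : HH X ≤ X := (HH_lt (by omega)).le
  have h1 := hX1 X (by omega) b none ((Ico x (x + X)).filter (fun n => n % Wm X = b))
    ((X : ℝ) / Wm X) (fun _ => 1) (by
      intro n hn a ha1 ha2
      rw [mem_filter, mem_Ico] at hn
      have hpos : 0 < n + a := by omega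
      have h3 : ∏ p ∈ (PX X).filter (fun p => p ∣ n + a), p ∣ n + a := by
        apply Finset.prod_primes_dvd
        · intro p hp
          rw [mem_filter, PX, mem_filter] at hp
          exact hp.1.2.1.prime
        · intro p hp
          exact (mem_filter.1 hp).2
      have h4 := Nat.le_of_dvd hpos h3
      have h5 : (∏ p ∈ (PX X).filter (fun p => p ∣ n + a), (p : ℝ)) ≤ ((n + a : ℕ) : ℝ) := by
        have : ((∏ p ∈ (PX X).filter (fun p => p ∣ n + a), p : ℕ) : ℝ) ≤ ((n + a : ℕ) : ℝ) := by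
          exact_mod_cast h4
        rwa [Nat.cast_prod] at this
      have h6 : ((n + a : ℕ) : ℝ) ≤ x + 2 * X := by
        have : n + a ≤ x + 2 * X := by omega
        exact_mod_cast this
      linarith) (by positivity)
    (eqd2 x X b hb _ (by
      intro p hp
      rw [mem_filter, PX, mem_filter] at hp
      exact hp.1.2))
    (hX2 X (by omega))
    (fun i => (B i).filter (fun a => (b + a).Coprime (Wm X)))
    (by
      intro i a ha
      rw [mem_filter] at ha
      rw [mem_BB]
      obtain ⟨h1, h2⟩ := hB i a ha.1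
      refine ⟨h1, ?_, ha.2⟩
      apply Nat.le_floor
      rw [← pow_succ]
      exact h2)
    hcard
    (fun i j hij => (hdis i j hij).mono (filter_subset _ _) (filter_subset _ _))
    (by intro a ha; simp at ha)
  refine h1.trans ?_
  apply Nat.cast_le.2
  apply card_le_card
  intro n hn
  rw [mem_filter] at hn ⊢
  refine ⟨hn.1, ?_⟩
  obtain ⟨i, hi⟩ := hn.2
  exact ⟨i, Co_of hHX (mem_filter.1 hn.1).2 hi⟩

/-- the number of classes in which a position is coprime to the modulus -/
theorem card_cop (X a : ℕ) :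
    ((range (Wm X)).filter (fun b => (b + a).Coprime (Wm X))).card = Nat.totient (Wm X) := by
  rw [← Nat.filter_coprime_Ico_eq_totient (Wm X) a]
  apply card_bij (fun b _ => b + a)
  · intro b hb
    rw [mem_filter, mem_range] at hb
    rw [mem_filter, mem_Ico]
    exact ⟨⟨by omega, by omega⟩, hb.2.symm⟩
  · intro b _ c _ h
    omega
  · intro c hc
    rw [mem_filter, mem_Ico] at hc
    refine ⟨c - a, ?_, by omega⟩
    rw [mem_filter, mem_range]
    refine ⟨by omega, ?_⟩
    rw [Nat.sub_add_cancel hc.1.1]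
    exact hc.2.symm

/-- the average over the classes -/
theorem sum_cop (X : ℕ) (P : Finset ℕ) :
    ∑ b ∈ range (Wm X), (P.filter (fun a => (b + a).Coprime (Wm X))).card =
      P.card * Nat.totient (Wm X) := by
  have h1 : ∀ b, (P.filter (fun a => (b + a).Coprime (Wm X))).card =
      ∑ a ∈ P, if (b + a).Coprime (Wm X) then 1 else 0 := fun b => card_filter _ _
  simp_rw [h1]
  rw [sum_comm]
  have h2 : ∀ a ∈ P, ∑ b ∈ range (Wm X), (if (b + a).Coprime (Wm X) then 1 else 0) =
      Nat.totient (Wm X) := by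
    intro a _
    rw [← card_filter, card_cop]
  rw [sum_congr rfl h2, sum_const, smul_eq_mul]

/-- the number of integers of an interval in a class -/
theorem card_class (x X b : ℕ) : (((Ico x (x + X)).filter (fun n => n % Wm X = b)).card : ℝ) ≤
    (X : ℝ) / Wm X + 1 := by
  by_cases hb : b < Wm X
  · have h := cnt_class2 x X (Wm X) b (Wm_pos X)
    have h2 : ((Ico x (x + X)).filter (fun n => n % Wm X = b)) =
        ((Ico x (x + X)).filter (fun n => n ≡ b [MOD Wm X])) := by
      apply filter_congr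
      intro n _
      unfold Nat.ModEq
      rw [Nat.mod_eq_of_lt hb]
    rw [h2]
    have := (abs_le.1 h).2
    linarith
  · have h2 : ((Ico x (x + X)).filter (fun n => n % Wm X = b)) = ∅ := by
      apply filter_eq_empty_iff.2
      intro n _ h
      have := Nat.mod_lt n (Wm_pos X)
      omega
    rw [h2, card_empty]
    push_cast
    positivity

end Pool.Agent.R502.WD
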