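import Pool.Agent.R502.WD.Thm
import Pool.Agent.R502.AQ.AP

/-!
Translates of arbitrary sparse sets without rough numbers: the translations in an arbitrary well
distributed set; arithmetic progressions.
-/

set_option autoImplicit false

open Finset Filter Topology

namespace Pool.Agent.R502.WD

open Pool.Agent.H361R2.PP
open Pool.Agent.R526.AA
open Pool.Agent.R502.AQ
open Pool.Agent.R502.LG
open Pool.Agent.H862R2.PPSm5
open Pool.Agent.H20R2.EQI

open Classical in
/-- one class of a well distributed set -/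
theorem clsS (κ ε Dx : ℝ) (hκ : 0 < κ) (hε : 0 < ε) (hε1 : ε ≤ 1) (hDx : 0 ≤ Dx) :
    ∃ C : ℝ, 0 < C ∧ ∀ k : ℕ, 0 < k → ∀ A : ℕ, ∃ X₀ : ℕ, ∀ X : ℕ, X₀ ≤ X → ∀ S : Finset ℕ,
      S.Nonempty → Sz S X Dx → Lv S X ((S.card : ℝ) / X) → ∀ b < Wm X, ∀ B : Fin k → Finset ℕ,
      (∀ i, ∀ a ∈ B i, 1 ≤ a ∧ (a : ℝ) ≤ Real.log X ^ (A + 1)) →
      (∀ i j, i ≠ j → Disjoint (B i) (B j)) →
      (∀ i, (((B i).filter (fun a => (b + a).Coprime (Wm X))).card : ℝ) ≤
        κ * (Real.log X * (Nat.totient (Wm X) / Wm X))) →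
      (1 - ε / 4) ^ 2 / (1 + ε / 8 + C / k) * ((S.card : ℝ) / Wm X) ≤
        (((S.filter (fun n => n % Wm X = b)).filter
          (fun n => ∃ i, Co X n (B i))).card : ℝ) := by
  obtain ⟨Kq, Aq, C, hC, hA⟩ := almost4 κ ε Dx hκ hε hε1 hDx
  obtain ⟨X2, hX2⟩ := err_sum Kq Aq
  refine ⟨C, hC, fun k hk A => ?_⟩
  obtain ⟨X1, hX1⟩ := hA k hk A
  refine ⟨X1 + X2 + 16, fun X hX S hSne hx hS b hb B hB hdis hcard => ?_⟩
  have hW := Wm_pos X
  have hWr : (0 : ℝ) < Wm X := by exact_mod_cast hW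
  have hX16 : (16 : ℝ) ≤ X := by exact_mod_cast (by omega : 16 ≤ X)
  have hXr : (0 : ℝ) < X := by linarith
  have hL : 0 < Real.log X := Real.log_pos (by linarith)
  have hSpos : (0 : ℝ) < S.card := by exact_mod_cast hSne.card_pos
  have hHX : HH X ≤ X := (HH_lt (by omega)).le
  have h1 := hX1 X (by omega) b none (S.filter (fun n => n % Wm X = b))
    ((S.card : ℝ) / Wm X)
    (fun D => if ∏ p ∈ D, (p : ℝ) ≤ (X : ℝ) ^ (1 / 2 - 1 / 32 : ℝ) then (S.card : ℝ) / X
      else S.card) (by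
      intro n hn a ha1 haX
      rw [mem_filter] at hn
      exact hx n hn.1 a ha1 haX) (by positivity)
    (eqdS X b (by omega) hb S ((S.card : ℝ) / X) (by positivity) hS _ (by
      intro p hp
      rw [mem_filter, PX, mem_filter] at hp
      exact hp.1.2))
    (by
      have h2 := hX2 X (by omega)
      calc _ = ∑ D ∈ (PX X).powerset.filter (fun D : Finset ℕ =>
            ∏ p ∈ D, (p : ℝ) ≤ (X : ℝ) ^ (1 / 2 - 1 / 32 : ℝ)),
              ((S.card : ℝ) / X) * ((Kq : ℝ) ^ D.card * (1 : ℝ)) := by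
            apply sum_congr rfl
            intro D hD
            rw [mem_filter] at hD
            rw [if_pos hD.2]
            ring
        _ = ((S.card : ℝ) / X) * ∑ D ∈ (PX X).powerset.filter (fun D : Finset ℕ =>
            ∏ p ∈ D, (p : ℝ) ≤ (X : ℝ) ^ (1 / 2 - 1 / 32 : ℝ)),
              ((Kq : ℝ) ^ D.card * (1 : ℝ)) := by rw [mul_sum]
        _ ≤ ((S.card : ℝ) / X) * ((X : ℝ) / Wm X / Real.log X ^ Aq) :=
            mul_le_mul_of_nonneg_left h2 (by positivity)
        _ = (S.card : ℝ) / Wm X / Real.log X ^ Aq := by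
            field_simp)
    (fun i => (B i).filter (fun a => (b + a).Coprime (Wm X)))
    (by
      intro i a ha
      rw [mem_filter] at ha
      rw [mem_BB]
      obtain ⟨h1, h2⟩ := hB i a ha.1
      refine ⟨h1, ?_, ha.2⟩
      apply Nat.le_floor
      rw [← pow_succ]
      exact h2)
    hcard
    (fun i j hij => (hdis i j hij).mono (filter_subset _ _) (filter_subset _ _))
    (by intro a ha; simp at ha)
  refine h1.trans ?_
  apply Nat.cast_le.2
  apply card_le_card
  intro n hn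
  rw [mem_filter] at hn ⊢
  refine ⟨hn.1, ?_⟩
  obtain ⟨i, hi⟩ := hn.2
  exact ⟨i, Co_of hHX (mem_filter.1 hn.1).2 hi⟩

/-- the fibres of the classes -/
theorem card_fibS (S : Finset ℕ) (X : ℕ) (Q : ℕ → Prop) [DecidablePred Q] :
    (S.filter Q).card =
      ∑ b ∈ range (Wm X), ((S.filter (fun n => n % Wm X = b)).filter Q).card := by
  rw [card_eq_sum_card_fiberwise (f := fun n => n % Wm X) (t := range (Wm X))]
  · refine sum_congr rfl fun b _ => ?_
    congr 1
    ext n
    simp only [mem_filter]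
    tauto
  · intro n _
    simp only [coe_range, Set.mem_Iio]
    exact Nat.mod_lt _ (Wm_pos X)

open Classical in
/-- **a single sparse set**: for a proportion of the integers `n` of a well distributed set
all the `n + a`, `a ∈ P`, have a prime factor at most `X` -/
theorem oneS (lam Dx : ℝ) (hlam : 0 < lam) (hDx : 0 ≤ Dx) :
    ∃ δ : ℝ, 0 < δ ∧ ∀ A : ℕ, ∃ X₀ : ℕ, ∀ X : ℕ, X₀ ≤ X → ∀ S : Finset ℕ,
      Sz S X Dx → Lv S X ((S.card : ℝ) / X) → ∀ P : Finset ℕ,
      (P.card : ℝ) ≤ lam * Real.log X →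
      (∀ a ∈ P, 1 ≤ a ∧ (a : ℝ) ≤ Real.log X ^ (A + 1)) →
      δ * S.card ≤ ((S.filter (fun n => Co X n P)).card : ℝ) := by
  obtain ⟨C, hC, h⟩ := clsS (4 * lam) 1 Dx (by linarith) one_pos le_rfl hDx
  refine ⟨(1 - 1 / 4) ^ 2 / (1 + 1 / 8 + C / (1 : ℕ)) / 4, by positivity, fun A => ?_⟩
  obtain ⟨X1, hX1⟩ := h 1 one_pos A
  refine ⟨X1 + 16, fun X hX S hSz hSL P hP hPa => ?_⟩
  obtain ⟨η, hη⟩ : ∃ η : ℝ, η = (1 - 1 / 4) ^ 2 / (1 + 1 / 8 + C / (1 : ℕ)) := ⟨_, rfl⟩
  rw [← hη]
  have hη0 : 0 < η := by rw [hη]; positivity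
  rcases S.eq_empty_or_nonempty with rfl | hSne
  · simp
  have hW := Wm_pos X
  have hWr : (0 : ℝ) < Wm X := by exact_mod_cast hW
  have hφ : (0 : ℝ) < Nat.totient (Wm X) := by exact_mod_cast Nat.totient_pos.2 hW
  have hX16 : (16 : ℝ) ≤ X := by exact_mod_cast (by omega : 16 ≤ X)
  have hXr : (0 : ℝ) < X := by linarith
  have hL : 0 < Real.log X := Real.log_pos (by linarith)
  obtain ⟨T, hT⟩ : ∃ T : ℝ, T = 4 * lam * (Real.log X * (Nat.totient (Wm X) / Wm X)) := ⟨_, rfl⟩
  have hT0 : 0 < T := by rw [hT]; positivity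
  -- the good classes
  set G := (range (Wm X)).filter (fun b =>
    ((P.filter (fun a => (b + a).Coprime (Wm X))).card : ℝ) ≤ T) with hG
  have hGcard : (Wm X : ℝ) / 4 ≤ G.card := by
    have h3 := card_filter_add_card_filter_not (s := range (Wm X))
      (fun b => ((P.filter (fun a => (b + a).Coprime (Wm X))).card : ℝ) ≤ T)
    rw [card_range] at h3
    have h5 := bad_classes X P T
    have h6 : (((range (Wm X)).filter
        (fun b => T < ((P.filter (fun a => (b + a).Coprime (Wm X))).card : ℝ))).card : ℝ) ≤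
        (Wm X : ℝ) / 4 := by
      have h7 : (P.card : ℝ) * Nat.totient (Wm X) ≤ (Wm X : ℝ) / 4 * T := by
        rw [hT]
        have : (Wm X : ℝ) / 4 * (4 * lam * (Real.log X * (Nat.totient (Wm X) / Wm X))) =
            lam * Real.log X * Nat.totient (Wm X) := by
          field_simp
        rw [this]
        exact mul_le_mul_of_nonneg_right hP hφ.le
      exact le_of_mul_le_mul_right (h5.trans h7) hT0
    have h8 : (G.card : ℝ) + (((range (Wm X)).filter
        (fun b => T < ((P.filter (fun a => (b + a).Coprime (Wm X))).card : ℝ))).card : ℝ) =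
        Wm X := by
      rw [hG]
      simp only [not_le] at h3
      exact_mod_cast h3
    linarith
  have hcls : ∀ b ∈ G, η * ((S.card : ℝ) / Wm X) ≤
      (((S.filter (fun n => n % Wm X = b)).filter (fun n => Co X n P)).card : ℝ) := by
    intro b hb
    rw [hG, mem_filter, mem_range] at hb
    have h1 := hX1 X (by omega) S hSne hSz hSL b hb.1 (fun _ => P) (fun _ => hPa)
      (fun i j hij => absurd (Subsingleton.elim i j) hij) (fun _ => by
        rw [← hT]
        exact hb.2)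
    rw [← hη] at h1
    refine h1.trans ?_
    apply Nat.cast_le.2
    apply card_le_card
    intro n hn
    rw [mem_filter] at hn ⊢
    obtain ⟨i, hi⟩ := hn.2
    exact ⟨hn.1, hi⟩
  rw [card_fibS S X (fun n => Co X n P)]
  push_cast
  calc η / 4 * S.card = (Wm X : ℝ) / 4 * (η * ((S.card : ℝ) / Wm X)) := by field_simp
    _ ≤ G.card * (η * ((S.card : ℝ) / Wm X)) := mul_le_mul_of_nonneg_right hGcard (by positivity)
    _ = ∑ b ∈ G, η * ((S.card : ℝ) / Wm X) := by rw [sum_const, nsmul_eq_mul]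
    _ ≤ ∑ b ∈ G, (((S.filter (fun n => n % Wm X = b)).filter
        (fun n => Co X n P)).card : ℝ) := sum_le_sum hcls
    _ ≤ _ := sum_le_sum_of_subset_of_nonneg (filter_subset _ _) (fun _ _ _ => Nat.cast_nonneg _)

end Pool.Agent.R502.WD
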