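import Pool.Agent.R502.WD.Blocks
import Pool.Agent.R526.AA.Short

/-!
Integers `N` without representations `N = p + prime` with `p` in sparse sets.
-/

set_option autoImplicit false

open Finset Filter Topology

namespace Pool.Agent.R502.WD

open Pool.Agent.R526.AA

theorem comp_of_Co {X n c N : ℕ} {P : Finset ℕ} (hN : N = n + c) (hn : X ≤ n)
    (hP : ∀ p ∈ P, p < c) (h : Co X n (P.image (fun p => c - p))) :
    ∀ p ∈ P, ¬ (N - p).Prime := by
  intro p hp hpr
  obtain ⟨q, hq, hqX, hqd⟩ := h (c - p) (mem_image_of_mem _ hp)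
  have h1 := hP p hp
  have h2 : n + (c - p) = N - p := by omega
  rw [h2] at hqd
  have h3 := (Nat.prime_dvd_prime_iff_eq hq hpr).1 hqd
  omega

theorem ev_log (A : ℕ) (s : ℝ) (hs : 0 < s) : ∃ X₀ : ℝ, ∀ X : ℝ, X₀ ≤ X →
    1 ≤ X ∧ Real.log X ≤ 2 * Real.log ⌊s * X⌋₊ ∧
    Real.log X ^ A + 2 ≤ Real.log ⌊s * X⌋₊ ^ (A + 1) ∧ Real.log X ^ A + 2 ≤ s * X ∧
    s * X / 2 ≤ ⌊s * X⌋₊ ∧ (⌊s * X⌋₊ : ℝ) ≤ s * X ∧
    4 * X + 4 ≤ (⌊s * X⌋₊ : ℝ) ^ (2 : ℝ) := by
  have e1 : ∀ᶠ X : ℝ in atTop, Real.log X ^ A + 2 ≤ s * X := by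
    have h1 := (Real.isLittleO_pow_log_id_atTop (n := A)).def (show 0 < s / 2 by positivity)
    filter_upwards [h1, eventually_ge_atTop (4 / s), eventually_ge_atTop (1 : ℝ)] with X h2 h3 h4
    rw [Real.norm_eq_abs, Real.norm_eq_abs, id, abs_of_nonneg (by
      have := Real.log_nonneg h4
      positivity), abs_of_nonneg (by linarith)] at h2
    rw [div_le_iff₀ hs] at h3
    linarith
  have e2 : ∀ᶠ X : ℝ in atTop, 2 ^ (A + 1) + 4 ≤ Real.log X / 2 :=
    (Real.tendsto_log_atTop.atTop_div_const two_pos).eventually_ge_atTop _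
  have e3 : ∀ᶠ X : ℝ in atTop, 2 * Real.log (2 / s) ≤ Real.log X :=
    Real.tendsto_log_atTop.eventually_ge_atTop _
  obtain ⟨X₀, h⟩ := eventually_atTop.1 ((e1.and (e2.and e3)).and
    ((eventually_ge_atTop (1 : ℝ)).and ((eventually_ge_atTop (2 / s)).and
      (eventually_ge_atTop (32 / s ^ 2)))))
  refine ⟨X₀, fun X hX => ?_⟩
  obtain ⟨⟨h1, h2, h3⟩, h4, h5, h6⟩ := h X hX
  have hX0 : 0 < X := by linarith
  have hsX : 2 ≤ s * X := by
    rw [div_le_iff₀ hs] at h5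
    linarith
  have hfl : s * X / 2 ≤ ⌊s * X⌋₊ := by
    have := Nat.lt_floor_add_one (s * X)
    linarith
  have hfl2 : (⌊s * X⌋₊ : ℝ) ≤ s * X := Nat.floor_le (by positivity)
  have hlog : Real.log X ≤ 2 * Real.log ⌊s * X⌋₊ := by
    have e4 : Real.log (s * X / 2) ≤ Real.log ⌊s * X⌋₊ := Real.log_le_log (by positivity) hfl
    have e5 : Real.log (s * X / 2) = Real.log X - Real.log (2 / s) := by
      rw [← Real.log_div hX0.ne' (by positivity)]
      congr 1
      field_simp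
    linarith
  have hlog1 : 1 ≤ Real.log ⌊s * X⌋₊ := by
    have : (0 : ℝ) ≤ 2 ^ (A + 1) := by positivity
    linarith
  refine ⟨h4, hlog, ?_, h1, hfl, hfl2, ?_⟩
  · set L := Real.log ⌊s * X⌋₊ with hL
    have hlX : 0 ≤ Real.log X := Real.log_nonneg h4
    have e6 : Real.log X ^ A ≤ (2 * L) ^ A := pow_le_pow_left₀ hlX hlog A
    have e7 : (2 ^ A + 2 : ℝ) ≤ L := by
      have : (2 : ℝ) ^ (A + 1) = 2 * 2 ^ A := by ring
      have h0 : (0 : ℝ) ≤ 2 ^ A := by positivity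
      linarith
    have e8 : (1 : ℝ) ≤ L ^ A := one_le_pow₀ hlog1
    calc Real.log X ^ A + 2 ≤ (2 * L) ^ A + 2 * L ^ A := by linarith
      _ = (2 ^ A + 2) * L ^ A := by rw [mul_pow]; ring
      _ ≤ L * L ^ A := mul_le_mul_of_nonneg_right e7 (by positivity)
      _ = L ^ (A + 1) := by ring
  · have e9 : (s * X / 2) ^ (2 : ℝ) ≤ (⌊s * X⌋₊ : ℝ) ^ (2 : ℝ) :=
      Real.rpow_le_rpow (by positivity) hfl (by norm_num)
    refine le_trans ?_ e9
    rw [show (2 : ℝ) = ((2 : ℕ) : ℝ) by norm_num, Real.rpow_natCast]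
    rw [div_le_iff₀ (by positivity)] at h6
    push_cast
    have e10 : (s * X / 2) ^ 2 = (X * s ^ 2) * X / 4 := by ring
    rw [e10]
    nlinarith

open Classical in
/-- a single sparse set -/
theorem fin_one (lam : ℝ) (hlam : 0 < lam) : ∃ δ : ℝ, 0 < δ ∧ ∀ A : ℕ, ∃ X₀ : ℝ, ∀ X : ℝ,
    X₀ ≤ X → ∀ P : Finset ℕ, (P.card : ℝ) ≤ lam * Real.log X →
    (∀ p ∈ P, (p : ℝ) ≤ Real.log X ^ A) →
    δ * X ≤ (((Icc 1 ⌊X⌋₊).filter (fun N => Even N ∧ ∀ p ∈ P, ¬ (N - p).Prime)).card : ℝ) := by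
  obtain ⟨δ, hδ, h⟩ := one (2 * lam) 2 (by linarith) (by norm_num)
  refine ⟨δ / 8, by positivity, fun A => ?_⟩
  obtain ⟨X1, hX1⟩ := h A
  obtain ⟨X2, hX2⟩ := ev_log A (1 / 4) (by norm_num)
  refine ⟨max X2 (8 * (X1 + 4)), fun X hX P hP hPa => ?_⟩
  obtain ⟨h1, h2, h3, h4, h5, h6, h7⟩ := hX2 X ((le_max_left _ _).trans hX)
  have h8 : 8 * ((X1 : ℝ) + 4) ≤ X := (le_max_right _ _).trans hX
  set X' := ⌊1 / 4 * X⌋₊ with hX'
  have hX1' : X1 + 4 ≤ X' := by
    have : ((X1 + 4 : ℕ) : ℝ) ≤ X' := by push_cast; linarith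
    exact_mod_cast this
  obtain ⟨c, hc⟩ : ∃ c : ℕ, c = ⌊Real.log X ^ A⌋₊ + 1 := ⟨_, rfl⟩
  have hlX : 0 ≤ Real.log X := Real.log_nonneg h1
  have hcr : (c : ℝ) ≤ Real.log X ^ A + 1 := by
    rw [hc]
    push_cast
    have := Nat.floor_le (show 0 ≤ Real.log X ^ A by positivity)
    linarith
  have hPc : ∀ p ∈ P, p < c := by
    intro p hp
    rw [hc]
    have := Nat.le_floor (hPa p hp)
    omega
  have h9 := hX1 X' (by omega) X' (by
    have : (4 : ℝ) ≤ X' := by exact_mod_cast (by omega : 4 ≤ X')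
    calc (X' : ℝ) + 2 * X' ≤ 4 * X + 4 := by linarith
      _ ≤ _ := h7) (c % 2) (Nat.mod_lt _ two_pos) (P.image (fun p => c - p)) (by
      have : ((P.image (fun p => c - p)).card : ℝ) ≤ P.card := by exact_mod_cast card_image_le
      calc _ ≤ (P.card : ℝ) := this
        _ ≤ lam * Real.log X := hP
        _ ≤ lam * (2 * Real.log X') := mul_le_mul_of_nonneg_left h2 hlam.le
        _ = _ := by ring) (by
      intro a ha
      rw [mem_image] at ha
      obtain ⟨p, hp, rfl⟩ := ha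
      have := hPc p hp
      refine ⟨by omega, ?_⟩
      have e1 : ((c - p : ℕ) : ℝ) ≤ c := by exact_mod_cast Nat.sub_le _ _
      linarith)
  have h10 : δ / 8 * X ≤ δ * X' := by
    have : X / 8 ≤ X' := by linarith
    nlinarith
  refine h10.trans (h9.trans ?_)
  apply Nat.cast_le.2
  apply card_le_card_of_injOn (fun n => n + c)
  · intro n hn
    rw [mem_coe, mem_filter, mem_Ico] at hn
    rw [mem_coe, mem_filter, mem_Icc]
    change (1 ≤ n + c ∧ n + c ≤ ⌊X⌋₊) ∧ Even (n + c) ∧ ∀ p ∈ P, ¬ (n + c - p).Prime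
    refine ⟨⟨by omega, ?_⟩, ?_, comp_of_Co rfl hn.1.1 hPc hn.2.2⟩
    · apply Nat.le_floor
      have e1 : (n : ℝ) ≤ 2 * X' := by exact_mod_cast (by omega : n ≤ 2 * X')
      push_cast
      linarith
    · rw [Nat.even_iff]
      have := hn.2.1
      omega
  · intro a _ b _ hab
    have : a + c = b + c := hab
    omega

open Classical in
/-- many sparse sets -/
theorem fin_blocks (lam ε : ℝ) (hlam : 0 < lam) (hε : 0 < ε) : ∃ c : ℝ, 0 < c ∧ ∃ K₀ : ℕ,
    ∀ K : ℕ, K₀ ≤ K → ∀ A : ℕ, ∃ X₀ : ℝ, ∀ X : ℝ, X₀ ≤ X → ∀ B : ℕ → Finset ℕ,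
    (∀ i < K, ∀ p ∈ B i, (p : ℝ) ≤ Real.log X ^ A) →
    (∀ i < K, ∀ j < K, i ≠ j → Disjoint (B i) (B j)) →
    ∑ i ∈ range K, ((B i).card : ℝ) ≤ lam * K * Real.log X →
    (((Icc 1 ⌊X⌋₊).filter (fun N =>
      (((range K).filter (fun i => ∀ p ∈ B i, ¬ (N - p).Prime)).card : ℝ) < c * K)).card : ℝ) ≤
      ε * X := by
  obtain ⟨c, hc, K₀, h⟩ := blocks (2 * lam) (ε / 4) 2 (by linarith) (by linarith) (by norm_num)
  refine ⟨c, hc, K₀, fun K hK A => ?_⟩
  obtain ⟨X1, hX1⟩ := h K hK A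
  obtain ⟨s, hs⟩ : ∃ s : ℝ, s = min 1 ε / 16 := ⟨_, rfl⟩
  have hs0 : 0 < s := by
    rw [hs]
    have : 0 < min 1 ε := lt_min one_pos hε
    positivity
  have hs1 : s ≤ 1 / 16 := by
    rw [hs]
    have : min 1 ε ≤ 1 := min_le_left _ _
    linarith
  have hsε : 16 * s ≤ ε := by
    rw [hs]
    have : min 1 ε ≤ ε := min_le_right _ _
    linarith
  obtain ⟨X2, hX2⟩ := ev_log A s hs0
  refine ⟨max X2 ((2 / s) * (X1 + 4)), fun X hX B hBa hBd hBs => ?_⟩
  obtain ⟨h1, h2, h3, h4, h5, h6, h7⟩ := hX2 X ((le_max_left _ _).trans hX)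
  have h8 : (2 / s) * ((X1 : ℝ) + 4) ≤ X := (le_max_right _ _).trans hX
  have h8' : (X1 : ℝ) + 4 ≤ s * X / 2 := by
    rw [div_mul_eq_mul_div, div_le_iff₀ hs0] at h8
    linarith
  set X' := ⌊s * X⌋₊ with hX'
  have hX1' : X1 + 4 ≤ X' := by
    have : ((X1 + 4 : ℕ) : ℝ) ≤ X' := by push_cast; linarith
    exact_mod_cast this
  obtain ⟨e, he⟩ : ∃ e : ℕ, e = ⌊Real.log X ^ A⌋₊ + 1 := ⟨_, rfl⟩
  have hlX : 0 ≤ Real.log X := Real.log_nonneg h1
  have her : (e : ℝ) ≤ Real.log X ^ A + 1 := by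
    rw [he]
    push_cast
    have := Nat.floor_le (show 0 ≤ Real.log X ^ A by positivity)
    linarith
  have hPc : ∀ i < K, ∀ p ∈ B i, p < e := by
    intro i hi p hp
    rw [he]
    have := Nat.le_floor (hBa i hi p hp)
    omega
  have hXX : (⌊X⌋₊ : ℝ) ≤ X := Nat.floor_le (by linarith)
  have hcov := cover (fun n => (((range K).filter
      (fun i => Co X' n ((B i).image (fun p => e - p)))).card : ℝ) < c * K) X' ⌊X⌋₊ X' (by omega)
    (ε / 4 * X') (by
      intro x' hx1 hx2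
      apply hX1 X' (by omega) x'
      · have e1 : (x' : ℝ) ≤ X' + ⌊X⌋₊ := by exact_mod_cast hx2
        refine le_trans ?_ h7
        have : s * X ≤ X / 16 := by nlinarith
        linarith
      · intro i hi a ha
        rw [mem_image] at ha
        obtain ⟨p, hp, rfl⟩ := ha
        have := hPc i hi p hp
        refine ⟨by omega, ?_⟩
        have e1 : ((e - p : ℕ) : ℝ) ≤ e := by exact_mod_cast Nat.sub_le _ _
        linarith
      · intro i hi j hj hij
        rw [disjoint_left]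
        intro a ha hb
        rw [mem_image] at ha hb
        obtain ⟨p, hp, rfl⟩ := ha
        obtain ⟨q, hq, hpq⟩ := hb
        have e1 := hPc i hi p hp
        have e2 := hPc j hj q hq
        have e3 : q = p := by omega
        subst e3
        exact (disjoint_left.1 (hBd i hi j hj hij)) hp hq
      · calc ∑ i ∈ range K, (((B i).image (fun p => e - p)).card : ℝ) ≤
            ∑ i ∈ range K, ((B i).card : ℝ) :=
              sum_le_sum fun i _ => by exact_mod_cast card_image_le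
          _ ≤ lam * K * Real.log X := hBs
          _ ≤ lam * K * (2 * Real.log X') := mul_le_mul_of_nonneg_left h2 (by positivity)
          _ = _ := by ring)
  have hsub : (Icc 1 ⌊X⌋₊).filter (fun N =>
      (((range K).filter (fun i => ∀ p ∈ B i, ¬ (N - p).Prime)).card : ℝ) < c * K) ⊆
      range (X' + e) ∪ ((Ico X' (X' + ⌊X⌋₊)).filter (fun n => (((range K).filter
      (fun i => Co X' n ((B i).image (fun p => e - p)))).card : ℝ) < c * K)).image
        (fun n => n + e) := by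
    intro N hN
    rw [mem_filter, mem_Icc] at hN
    rw [mem_union, mem_range, mem_image]
    by_cases hlt : N < X' + e
    · exact Or.inl hlt
    · right
      refine ⟨N - e, ?_, by omega⟩
      rw [mem_filter, mem_Ico]
      refine ⟨⟨by omega, by omega⟩, lt_of_le_of_lt ?_ hN.2⟩
      apply Nat.cast_le.2
      apply card_le_card
      intro i hi
      rw [mem_filter] at hi ⊢
      refine ⟨hi.1, ?_⟩
      exact comp_of_Co (c := e) (n := N - e) (by omega) (by omega)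
        (hPc i (mem_range.1 hi.1)) hi.2
  have h9 := (card_le_card hsub).trans (card_union_le _ _)
  rw [card_range] at h9
  have h10 : (((Icc 1 ⌊X⌋₊).filter (fun N =>
      (((range K).filter (fun i => ∀ p ∈ B i, ¬ (N - p).Prime)).card : ℝ) < c * K)).card : ℝ) ≤
      (X' + e) + (((Ico X' (X' + ⌊X⌋₊)).filter (fun n => (((range K).filter
      (fun i => Co X' n ((B i).image (fun p => e - p)))).card : ℝ) < c * K)).card : ℝ) := by
    have h11 := h9.trans (Nat.add_le_add_left card_image_le _)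
    exact_mod_cast h11
  refine h10.trans ?_
  have hX'0 : (0 : ℝ) < X' := by exact_mod_cast (by omega : 0 < X')
  have h12 : ((⌊X⌋₊ : ℝ) / X' + 1) * (ε / 4 * X') ≤ ε / 4 * (X + X') := by
    have : ((⌊X⌋₊ : ℝ) / X' + 1) * (ε / 4 * X') = ε / 4 * (⌊X⌋₊ + X') := by
      field_simp
    rw [this]
    gcongr
  have h13 : (X' : ℝ) ≤ X := by
    have : s * X ≤ 1 * X := mul_le_mul_of_nonneg_right (by linarith) (by linarith)
    linarith
  have h14 : s * X * 16 ≤ ε * X := by nlinarith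
  have h15 : ε / 4 * (X + X') ≤ ε / 4 * (2 * X) := mul_le_mul_of_nonneg_left (by linarith) (by linarith)
  linarith

end Pool.Agent.R502.WD
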