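import Pool.Agent.R502.WD.Win

/-!
Windows of primes above `√N`: the theorems.
-/

set_option autoImplicit false

open Finset Filter Topology

namespace Pool.Agent.R502.WD

open Pool.Agent.R526.AA

/-- the number of short intervals with many primes above the square root is small -/
theorem few_bad (lam lam' : ℝ) (hlam : 0 < lam) (hlam' : 0 < lam') (K₁ X : ℕ) (hK1 : 0 < K₁)
    (hM : 16 ≤ Nat.sqrt X) (hl : 1 ≤ Real.log (Nat.sqrt X))
    (hS : 2 * Nat.sqrt (3 * X) + 2 ≤ 5 * Nat.sqrt X)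
    (hH : (HB lam X : ℝ) ≤ 54 * lam * Real.log (Nat.sqrt X) ^ 2)
    (hT : 4 * (K₁ * HB lam X + 1) ≤ Nat.sqrt X)
    (hpi : (Nat.primeCounting (3 * Nat.sqrt X) : ℝ) ≤ 6 * (Nat.sqrt X / Real.log (Nat.sqrt X))) :
    (((range (X / Nat.sqrt X + 1)).filter (fun j => lam' * K₁ * Real.log (Nat.sqrt X) <
      (((Ioc (Nat.sqrt (X + j * Nat.sqrt X))
      (Nat.sqrt (X + j * Nat.sqrt X) + K₁ * HB lam X)).filter Nat.Prime).card : ℝ))).card : ℝ) *
      Nat.sqrt X ≤ 1620 * lam / lam' * X := by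
  generalize hMd : Nat.sqrt X = M at *
  obtain ⟨S, hSd⟩ : ∃ S, S = Nat.sqrt (3 * X) := ⟨_, rfl⟩
  rw [← hSd] at hS
  set l := Real.log M with hld
  have hlow : M * M ≤ X := by rw [← hMd]; exact Nat.sqrt_le X
  have hM0 : (0 : ℝ) < M := by exact_mod_cast (by omega : 0 < M)
  have hK1r : (0 : ℝ) < K₁ := by exact_mod_cast hK1
  have hSj : ∀ j < X / M + 1, Nat.sqrt (X + j * M) ≤ S := by
    intro j hj
    rw [hSd]
    apply Nat.sqrt_le_sqrt
    have h1 : j * M ≤ (X / M) * M := Nat.mul_le_mul_right _ (by omega)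
    have h2 : (X / M) * M ≤ X := Nat.div_mul_le_self _ _
    omega
  have h1 := bad_j X M (X / M + 1) (K₁ * HB lam X) S (lam' * K₁ * l) hSj hS
  have h2 : (Nat.primeCounting (S + K₁ * HB lam X) : ℝ) ≤ 6 * (M / l) := by
    refine le_trans ?_ hpi
    exact_mod_cast Nat.monotone_primeCounting (by omega)
  set Bd := (((range (X / M + 1)).filter (fun j => lam' * K₁ * l <
      (((Ioc (Nat.sqrt (X + j * M))
      (Nat.sqrt (X + j * M) + K₁ * HB lam X)).filter Nat.Prime).card : ℝ))).card : ℝ) with hBd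
  have h3 : Bd * (lam' * K₁ * l) ≤ (1620 * lam * M) * (K₁ * l) := by
    refine h1.trans ?_
    calc (5 : ℝ) * (K₁ * HB lam X : ℕ) * Nat.primeCounting (S + K₁ * HB lam X) ≤
        5 * (K₁ * HB lam X : ℕ) * (6 * (M / l)) :=
          mul_le_mul_of_nonneg_left h2 (by positivity)
      _ = 30 * K₁ * (M / l) * HB lam X := by push_cast; ring
      _ ≤ 30 * K₁ * (M / l) * (54 * lam * l ^ 2) :=
          mul_le_mul_of_nonneg_left hH (by positivity)
      _ = (1620 * lam * M) * (K₁ * l) := by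
          have : l ≠ 0 := by linarith
          field_simp
          norm_num
  have h4 : Bd * lam' ≤ 1620 * lam * M := by
    have h5 : (Bd * lam') * (K₁ * l) ≤ (1620 * lam * M) * (K₁ * l) := by
      calc _ = Bd * (lam' * K₁ * l) := by ring
        _ ≤ _ := h3
    exact le_of_mul_le_mul_right h5 (by positivity)
  have h5 : Bd ≤ 1620 * lam / lam' * M := by
    rw [div_mul_eq_mul_div, le_div_iff₀ hlam']
    exact h4
  have h6 : (M : ℝ) * M ≤ X := by exact_mod_cast hlow
  calc Bd * M ≤ (1620 * lam / lam' * M) * M := mul_le_mul_of_nonneg_right h5 hM0.le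
    _ = 1620 * lam / lam' * (M * M) := by ring
    _ ≤ _ := mul_le_mul_of_nonneg_left h6 (by positivity)

/-- the length of the windows -/
noncomputable def ww (lam : ℝ) (N : ℕ) : ℝ := lam * Real.log N ^ 2

theorem ww_facts (lam : ℝ) (hlam : 0 < lam) (X j N : ℕ) (hM : 16 ≤ Nat.sqrt X)
    (hj : j < X / Nat.sqrt X + 1) (hN : X + j * Nat.sqrt X ≤ N)
    (hN2 : N < X + j * Nat.sqrt X + Nat.sqrt X) (hH : (HB lam X : ℝ) ≤ 6 * (lam * Real.log X ^ 2)) :
    0 < ww lam N ∧ 2 * ww lam N + 2 ≤ HB lam X ∧ (HB lam X : ℝ) ≤ 6 * ww lam N ∧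
    (Nat.sqrt (X + j * Nat.sqrt X) : ℝ) ≤ Real.sqrt N ∧
    Real.sqrt N < Nat.sqrt (X + j * Nat.sqrt X) + 2 := by
  generalize hMd : Nat.sqrt X = M at *
  have hlow : M * M ≤ X := by rw [← hMd]; exact Nat.sqrt_le X
  have hX256 : 256 ≤ X := by nlinarith
  have hXr : (256 : ℝ) ≤ X := by exact_mod_cast hX256
  have hXN : X ≤ N := by omega
  have hXNr : (X : ℝ) ≤ N := by exact_mod_cast hXN
  have hMX : M ≤ X := by nlinarith
  have hN3 : N ≤ 3 * X := by
    have h1 : j * M ≤ (X / M) * M := Nat.mul_le_mul_right _ (by omega)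
    have h2 : (X / M) * M ≤ X := Nat.div_mul_le_self _ _
    omega
  have hN3r : (N : ℝ) ≤ 3 * X := by exact_mod_cast hN3
  have hlX : 0 < Real.log X := Real.log_pos (by linarith)
  have hl1 : Real.log X ≤ Real.log N := Real.log_le_log (by linarith) hXNr
  have hl2 : Real.log N ≤ Real.log (3 * X) := Real.log_le_log (by linarith) hN3r
  refine ⟨?_, ?_, ?_, ?_, ?_⟩
  · unfold ww
    have : 0 < Real.log N := by linarith
    positivity
  · unfold ww HB
    push_cast
    have h1 : lam * Real.log (3 * X) ^ 2 ≤ ⌈lam * Real.log (3 * X) ^ 2⌉₊ := Nat.le_ceil _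
    have h2 : Real.log N ^ 2 ≤ Real.log (3 * X) ^ 2 := pow_le_pow_left₀ (by linarith) hl2 2
    have h3 := mul_le_mul_of_nonneg_left h2 hlam.le
    linarith
  · refine hH.trans ?_
    unfold ww
    have h2 : Real.log X ^ 2 ≤ Real.log N ^ 2 := pow_le_pow_left₀ hlX.le hl1 2
    have h3 := mul_le_mul_of_nonneg_left h2 hlam.le
    linarith
  · apply Real.le_sqrt_of_sq_le
    have h1 : Nat.sqrt (X + j * M) * Nat.sqrt (X + j * M) ≤ N := (Nat.sqrt_le _).trans hN
    rw [sq]
    exact_mod_cast h1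
  · obtain ⟨s, hs⟩ : ∃ s, s = Nat.sqrt (X + j * M) := ⟨_, rfl⟩
    rw [← hs]
    rw [Real.sqrt_lt' (by positivity)]
    have h1 : X + j * M < (s + 1) * (s + 1) := by rw [hs]; exact Nat.lt_succ_sqrt _
    have h2 : M ≤ s := by
      rw [hs, ← hMd]
      apply Nat.sqrt_le_sqrt
      omega
    have h3 : N < (s + 2) ^ 2 := by nlinarith
    exact_mod_cast h3

open Classical in
/-- **Windows above `√N`, almost all `N`.** -/
theorem windows_almost (lam ε : ℝ) (hlam : 0 < lam) (hε : 0 < ε) : ∃ c : ℝ, 0 < c ∧ ∃ K₀ : ℕ,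
    ∀ K : ℕ, K₀ ≤ K → ∃ X₀ : ℕ, ∀ X : ℕ, X₀ ≤ X →
    (((Ico X (2 * X)).filter (fun N : ℕ => (((range K).filter (fun i : ℕ => ∀ p q : ℕ,
      p.Prime → q.Prime → N = p + q → ¬ (Real.sqrt N + i * ww lam N < p ∧
        (p : ℝ) ≤ Real.sqrt N + (i + 1) * ww lam N))).card : ℝ) < c * K)).card : ℝ) ≤ ε * X := by
  obtain ⟨lam', hlam'⟩ : ∃ lam' : ℝ, lam' = 8000 * lam / ε := ⟨_, rfl⟩
  have hlam'0 : 0 < lam' := by rw [hlam']; positivity
  obtain ⟨c, hc, K₁₀, h⟩ := interval lam' (ε / 8) hlam'0 (by linarith)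
  refine ⟨c / 12, by positivity, 6 * K₁₀ + 6, fun K hK => ?_⟩
  obtain ⟨K₁, hK₁⟩ : ∃ K₁, K₁ = K / 6 := ⟨_, rfl⟩
  have hK1a : K₁₀ ≤ K₁ := by omega
  have hK1b : 1 ≤ K₁ := by omega
  have hK1c : K ≤ 12 * K₁ := by omega
  have hK1d : 6 * K₁ ≤ K := by omega
  obtain ⟨M₁, hM₁⟩ := h K₁ hK1a
  obtain ⟨X₀, hX₀⟩ := params lam hlam K₁ M₁
  refine ⟨X₀, fun X hX => ?_⟩
  obtain ⟨p1, p2, p3, p4, p5, p6, p7, p8, p9, p10, p11⟩ := hX₀ X hX
  have hbadj := few_bad lam lam' hlam hlam'0 K₁ X (by omega) p2 p3 p4 p6 p8 p11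
  have hfacts := fun j N => ww_facts lam hlam X j N p2
  generalize hMd : Nat.sqrt X = M at *
  generalize hHd : HB lam X = H at *
  have hlow : M * M ≤ X := by rw [← hMd]; exact Nat.sqrt_le X
  have hM0 : (0 : ℝ) < M := by exact_mod_cast (by omega : 0 < M)
  have hXr : (0 : ℝ) < X := by
    have : 0 < X := by nlinarith
    exact_mod_cast this
  set Q : ℕ → Prop := fun N => (((range K).filter (fun i : ℕ => ∀ p q : ℕ,
      p.Prime → q.Prime → N = p + q → ¬ (Real.sqrt N + i * ww lam N < p ∧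
        (p : ℝ) ≤ Real.sqrt N + (i + 1) * ww lam N))).card : ℝ) < c / 12 * K with hQ
  set E : ℕ → Finset ℕ := fun j => (Ico (X + j * M) (X + j * M + M)).filter Q with hE
  have hE1 : ∀ j, ((E j).card : ℝ) ≤ M := by
    intro j
    have h1 : (E j).card ≤ M := by
      calc (E j).card ≤ (Ico (X + j * M) (X + j * M + M)).card := card_filter_le _ _
        _ = M := by rw [Nat.card_Ico]; omega
    exact_mod_cast h1
  have hE2 : ∀ j < X / M + 1, ¬ lam' * K₁ * Real.log M <
      (((Ioc (Nat.sqrt (X + j * M)) (Nat.sqrt (X + j * M) + K₁ * H)).filter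
      Nat.Prime).card : ℝ) → ((E j).card : ℝ) ≤ ε / 8 * M := by
    intro j hj hgood
    rw [not_lt] at hgood
    have hjM : j * M ≤ X := by
      have h1 : j * M ≤ (X / M) * M := Nat.mul_le_mul_right _ (by omega)
      exact h1.trans (Nat.div_mul_le_self _ _)
    have hs : Nat.sqrt (X + j * M) ≤ Nat.sqrt (3 * X) := Nat.sqrt_le_sqrt (by omega)
    have h1 := hM₁ M p1 (X + j * M) (Nat.sqrt (X + j * M)) H (by
      refine le_trans ?_ p9
      exact_mod_cast (by omega : X + j * M ≤ 3 * X)) (by omega) p7 hgood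
    refine le_trans ?_ h1
    apply Nat.cast_le.2
    apply card_le_card
    intro N hN
    rw [hE] at hN
    simp only at hN
    rw [mem_filter, mem_Ico] at hN
    rw [mem_filter, mem_Ico]
    refine ⟨hN.1, ?_⟩
    obtain ⟨f1, f2, f3, f4, f5⟩ := hfacts j N hj hN.1.1 hN.1.2 p5
    have h2 := transfer N (Nat.sqrt (X + j * M)) H K K₁ (ww lam N) f1 f4 f5 f2 (by
      have e1 : (6 * K₁ : ℝ) ≤ K := by exact_mod_cast hK1d
      calc (K₁ : ℝ) * H ≤ K₁ * (6 * ww lam N) :=
            mul_le_mul_of_nonneg_left f3 (Nat.cast_nonneg _)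
        _ = (6 * K₁) * ww lam N := by ring
        _ ≤ K * ww lam N := mul_le_mul_of_nonneg_right e1 f1.le)
    have h3 : (K : ℝ) ≤ 12 * K₁ := by exact_mod_cast hK1c
    have h4 : c / 12 * K ≤ c * K₁ := by
      calc c / 12 * K ≤ c / 12 * (12 * K₁) := mul_le_mul_of_nonneg_left h3 (by positivity)
        _ = c * K₁ := by ring
    have h5 := hN.2
    rw [hQ] at h5
    refine lt_of_le_of_lt ?_ (lt_of_lt_of_le h5 h4)
    exact_mod_cast h2
  have hcov : (Ico X (2 * X)).filter Q ⊆ (range (X / M + 1)).biUnion E := by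
    intro N hN
    rw [mem_filter, mem_Ico] at hN
    rw [mem_biUnion]
    refine ⟨(N - X) / M, ?_, ?_⟩
    · rw [mem_range]
      have : (N - X) / M ≤ X / M := Nat.div_le_div_right (by omega)
      omega
    · rw [hE]
      simp only
      rw [mem_filter, mem_Ico]
      have h2 := Nat.div_add_mod (N - X) M
      have h3 := Nat.mod_lt (N - X) (show 0 < M by omega)
      rw [mul_comm] at h2
      exact ⟨⟨by omega, by omega⟩, hN.2⟩
  have h1 : (((Ico X (2 * X)).filter Q).card : ℝ) ≤ ∑ j ∈ range (X / M + 1), ((E j).card : ℝ) := by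
    exact_mod_cast (card_le_card hcov).trans card_biUnion_le
  refine h1.trans ?_
  rw [← sum_filter_add_sum_filter_not (range (X / M + 1)) (fun j => lam' * K₁ * Real.log M <
      (((Ioc (Nat.sqrt (X + j * M)) (Nat.sqrt (X + j * M) + K₁ * H)).filter
      Nat.Prime).card : ℝ))]
  have s1 : ∑ j ∈ (range (X / M + 1)).filter (fun j => lam' * K₁ * Real.log M <
      (((Ioc (Nat.sqrt (X + j * M)) (Nat.sqrt (X + j * M) + K₁ * H)).filter
      Nat.Prime).card : ℝ)), ((E j).card : ℝ) ≤ ε / 4 * X := by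
    refine (sum_le_sum fun j _ => hE1 j).trans ?_
    rw [sum_const, nsmul_eq_mul]
    refine hbadj.trans ?_
    have : 1620 * lam / lam' = 1620 / 8000 * ε := by
      rw [hlam']
      field_simp
    rw [this]
    nlinarith
  have s2 : ∑ j ∈ (range (X / M + 1)).filter (fun j => ¬ lam' * K₁ * Real.log M <
      (((Ioc (Nat.sqrt (X + j * M)) (Nat.sqrt (X + j * M) + K₁ * H)).filter
      Nat.Prime).card : ℝ)), ((E j).card : ℝ) ≤ ε / 4 * X := by
    calc _ ≤ ∑ j ∈ (range (X / M + 1)).filter (fun j => ¬ lam' * K₁ * Real.log M <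
          (((Ioc (Nat.sqrt (X + j * M)) (Nat.sqrt (X + j * M) + K₁ * H)).filter
          Nat.Prime).card : ℝ)), ε / 8 * M := by
          apply sum_le_sum
          intro j hj
          rw [mem_filter, mem_range] at hj
          exact hE2 j hj.1 hj.2
      _ ≤ ∑ j ∈ range (X / M + 1), ε / 8 * M :=
          sum_le_sum_of_subset_of_nonneg (filter_subset _ _) (fun _ _ _ => by positivity)
      _ = ((X / M : ℕ) + 1 : ℝ) * (ε / 8 * M) := by
          rw [sum_const, card_range, nsmul_eq_mul]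
          push_cast
          ring
      _ ≤ ε / 4 * X := by
          have h2 : ((X / M : ℕ) + 1 : ℝ) * M ≤ 2 * X := by
            have : (X / M + 1) * M ≤ 2 * X := by
              have e1 : (X / M) * M ≤ X := Nat.div_mul_le_self _ _
              have e2 : M ≤ X := by nlinarith
              rw [Nat.succ_mul]
              omega
            exact_mod_cast this
          calc ((X / M : ℕ) + 1 : ℝ) * (ε / 8 * M) = ε / 8 * (((X / M : ℕ) + 1 : ℝ) * M) := by ring
            _ ≤ ε / 8 * (2 * X) := mul_le_mul_of_nonneg_left h2 (by positivity)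
            _ = _ := by ring
  have h2 : 0 ≤ ε * X := by positivity
  linarith

end Pool.Agent.R502.WD
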