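import Pool.Agent.R502.WD.Fin2

/-!
The first window of primes above `√N`: a positive proportion of the even `N`.
-/

set_option autoImplicit false

open Finset Filter Topology

namespace Pool.Agent.R502.WD

open Pool.Agent.R526.AA

open Classical in
/-- **The first window above `√N`, a positive proportion of the even `N`.** -/
theorem windows_first (lam : ℝ) (hlam : 0 < lam) : ∃ δ : ℝ, 0 < δ ∧ ∃ X₀ : ℕ, ∀ X : ℕ, X₀ ≤ X →
    δ * X ≤ (((Ico X (2 * X)).filter (fun N : ℕ => Even N ∧ ∀ p q : ℕ,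
      p.Prime → q.Prime → N = p + q → ¬ (Real.sqrt N < p ∧
        (p : ℝ) ≤ Real.sqrt N + ww lam N))).card : ℝ) := by
  obtain ⟨lam', hlam'⟩ : ∃ lam' : ℝ, lam' = 8000 * lam := ⟨_, rfl⟩
  have hlam'0 : 0 < lam' := by rw [hlam']; positivity
  obtain ⟨δ, hδ, h⟩ := one lam' 3 hlam'0 (by norm_num)
  refine ⟨δ / 2, by positivity, ?_⟩
  obtain ⟨M₁, hM₁⟩ := h 2
  obtain ⟨X₀, hX₀⟩ := params lam hlam 1 M₁
  refine ⟨X₀, fun X hX => ?_⟩
  obtain ⟨p1, p2, p3, p4, p5, p6, p7, p8, p9, p10, p11⟩ := hX₀ X hX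
  have hbadj := few_bad lam lam' hlam hlam'0 1 X one_pos p2 p3 p4 p6 p8 p11
  have hfacts := fun j N => ww_facts lam hlam X j N p2
  generalize hMd : Nat.sqrt X = M at *
  generalize hHd : HB lam X = H at *
  rw [Nat.one_mul] at p7 p8
  simp only [Nat.one_mul, Nat.cast_one, mul_one] at hbadj
  have hlow : M * M ≤ X := by rw [← hMd]; exact Nat.sqrt_le X
  have hM0 : (0 : ℝ) < M := by exact_mod_cast (by omega : 0 < M)
  have hM16 : (16 : ℝ) ≤ M := by exact_mod_cast p2
  have hXr : (0 : ℝ) < X := by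
    have : 0 < X := by nlinarith
    exact_mod_cast this
  set G := (range (X / M)).filter (fun j => ¬ lam' * Real.log M <
      (((Ioc (Nat.sqrt (X + j * M)) (Nat.sqrt (X + j * M) + H)).filter
      Nat.Prime).card : ℝ)) with hG
  set Q : ℕ → Prop := fun N => Even N ∧ ∀ p q : ℕ,
      p.Prime → q.Prime → N = p + q → ¬ (Real.sqrt N < p ∧
        (p : ℝ) ≤ Real.sqrt N + ww lam N) with hQ
  set E : ℕ → Finset ℕ := fun j => (Ico (X + j * M) (X + j * M + M)).filter Q with hE
  have hGcard : (X : ℝ) / 2 ≤ G.card * M := by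
    have h1 := card_filter_add_card_filter_not (s := range (X / M)) (fun j => lam' * Real.log M <
      (((Ioc (Nat.sqrt (X + j * M)) (Nat.sqrt (X + j * M) + H)).filter
      Nat.Prime).card : ℝ))
    rw [card_range] at h1
    have h2 : (((range (X / M)).filter (fun j => lam' * Real.log M <
      (((Ioc (Nat.sqrt (X + j * M)) (Nat.sqrt (X + j * M) + H)).filter
      Nat.Prime).card : ℝ))).card : ℝ) ≤ (((range (X / M + 1)).filter (fun j => lam' * Real.log M <
      (((Ioc (Nat.sqrt (X + j * M)) (Nat.sqrt (X + j * M) + H)).filter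
      Nat.Prime).card : ℝ))).card : ℝ) := by
      apply Nat.cast_le.2
      apply card_le_card
      apply filter_subset_filter
      intro j hj
      rw [mem_range] at hj ⊢
      omega
    have h3 : (((range (X / M)).filter (fun j => lam' * Real.log M <
      (((Ioc (Nat.sqrt (X + j * M)) (Nat.sqrt (X + j * M) + H)).filter
      Nat.Prime).card : ℝ))).card : ℝ) + G.card = ((X / M : ℕ) : ℝ) := by exact_mod_cast h1
    have h4 : ((X / M : ℕ) : ℝ) * M ≥ X - M := by
      have e1 : X < (X / M) * M + M := by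
        have := Nat.lt_div_mul_add (a := X) (b := M) (by omega)
        exact this
      have e2 : (X : ℝ) < ((X / M : ℕ) : ℝ) * M + M := by exact_mod_cast e1
      linarith
    have h5 : 1620 * lam / lam' * X = 1620 / 8000 * X := by
      rw [hlam']
      field_simp
    have h6 := mul_le_mul_of_nonneg_right h2 hM0.le
    have h7 : (5 : ℝ) * M ≤ X := by exact_mod_cast p10
    have h8 : (G.card : ℝ) * M = ((X / M : ℕ) : ℝ) * M - (((range (X / M)).filter
      (fun j => lam' * Real.log M <
      (((Ioc (Nat.sqrt (X + j * M)) (Nat.sqrt (X + j * M) + H)).filter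
      Nat.Prime).card : ℝ))).card : ℝ) * M := by
      rw [← h3]
      ring
    rw [h8]
    rw [h5] at hbadj
    linarith
  have hEj : ∀ j ∈ G, δ * M ≤ ((E j).card : ℝ) := by
    intro j hj
    rw [hG, mem_filter, mem_range, not_lt] at hj
    obtain ⟨hj1, hgood⟩ := hj
    have hjM : j * M ≤ X := by
      have h1 : j * M ≤ (X / M) * M := Nat.mul_le_mul_right _ (by omega)
      exact h1.trans (Nat.div_mul_le_self _ _)
    have hs : Nat.sqrt (X + j * M) ≤ Nat.sqrt (3 * X) := Nat.sqrt_le_sqrt (by omega)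
    obtain ⟨s, hsd⟩ : ∃ s, s = Nat.sqrt (X + j * M) := ⟨_, rfl⟩
    rw [← hsd] at hgood hs
    obtain ⟨e, he⟩ : ∃ e : ℕ, e = s + H + 1 := ⟨_, rfl⟩
    obtain ⟨P, hP⟩ : ∃ P : Finset ℕ, P = (Ioc s (s + H)).filter Nat.Prime := ⟨_, rfl⟩
    rw [← hP] at hgood
    have hPc : ∀ p ∈ P, p < e ∧ s < p := by
      intro p hp
      rw [hP, mem_filter, mem_Ioc] at hp
      omega
    have hex : e + M ≤ X + j * M := by omega
    have h1 := hM₁ M p1 (X + j * M - e) (by
      have e1 : ((X + j * M - e : ℕ) : ℝ) ≤ ((3 * X : ℕ) : ℝ) := by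
        exact_mod_cast (by omega : X + j * M - e ≤ 3 * X)
      have e2 : (M : ℝ) ^ (3 : ℝ) = (M : ℝ) ^ (5 / 2 : ℝ) * (M : ℝ) ^ (1 / 2 : ℝ) := by
        rw [← Real.rpow_add hM0]
        norm_num
      have e3 : (4 : ℝ) ≤ (M : ℝ) ^ (1 / 2 : ℝ) := by
        rw [← Real.sqrt_eq_rpow]
        apply Real.le_sqrt_of_sq_le
        norm_num
        exact_mod_cast p2
      have e4 : (M : ℝ) ≤ (M : ℝ) ^ (5 / 2 : ℝ) := by
        calc (M : ℝ) = (M : ℝ) ^ (1 : ℝ) := (Real.rpow_one _).symm
          _ ≤ _ := Real.rpow_le_rpow_of_exponent_le (by linarith) (by norm_num)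
      rw [e2]
      nlinarith) (e % 2) (Nat.mod_lt _ two_pos) (P.image (fun p => e - p)) (by
      have : ((P.image (fun p => e - p)).card : ℝ) ≤ P.card := by exact_mod_cast card_image_le
      exact this.trans hgood) (by
      intro a ha
      rw [mem_image] at ha
      obtain ⟨p, hp, rfl⟩ := ha
      obtain ⟨h2, h3⟩ := hPc p hp
      refine ⟨by omega, ?_⟩
      have e1 : ((e - p : ℕ) : ℝ) ≤ ((H + 1 : ℕ) : ℝ) := by
        exact_mod_cast (by omega : e - p ≤ H + 1)
      exact e1.trans p7)
    refine h1.trans ?_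
    apply Nat.cast_le.2
    apply card_le_card_of_injOn (fun n => n + e)
    · intro n hn
      rw [mem_coe, mem_filter, mem_Ico] at hn
      rw [hE]
      simp only
      rw [mem_coe, mem_filter, mem_Ico]
      obtain ⟨hn1, hn2, hn3⟩ := hn
      obtain ⟨f1, f2, f3, f4, f5⟩ := hfacts j (n + e) (by omega) (by omega) (by omega) p5
      rw [← hsd] at f4 f5
      refine ⟨by omega, ?_, ?_⟩
      · rw [Nat.even_iff]
        omega
      · intro p q hp hq hN hpw
        have hps : p ∈ P := by
          rw [hP, mem_filter, mem_Ioc]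
          refine ⟨⟨?_, ?_⟩, hp⟩
          · have : (s : ℝ) < p := by linarith [hpw.1]
            exact_mod_cast this
          · have : (p : ℝ) ≤ ((s + H : ℕ) : ℝ) := by
              push_cast
              linarith [hpw.2]
            exact_mod_cast this
        have h9 := comp_of_Co (X := M) (n := n) (c := e) (N := n + e) rfl (by omega)
          (fun p hp => (hPc p hp).1) hn3 p hps
        apply h9
        rw [hN, Nat.add_sub_cancel_left]
        exact hq
    · intro a _ b _ hab
      have : a + e = b + e := hab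
      omega
  have hdisj : ∀ i ∈ G, ∀ j ∈ G, i ≠ j → Disjoint (E i) (E j) := by
    intro i _ j _ hij
    rw [disjoint_left]
    intro N hN hN'
    rw [hE] at hN hN'
    simp only at hN hN'
    rw [mem_filter, mem_Ico] at hN hN'
    rcases Nat.lt_or_gt_of_ne hij with hlt | hlt
    · have : (i + 1) * M ≤ j * M := Nat.mul_le_mul_right _ hlt
      rw [Nat.succ_mul] at this
      omega
    · have : (j + 1) * M ≤ i * M := Nat.mul_le_mul_right _ hlt
      rw [Nat.succ_mul] at this
      omega
  have hsub : G.biUnion E ⊆ (Ico X (2 * X)).filter Q := by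
    intro N hN
    rw [mem_biUnion] at hN
    obtain ⟨j, hj, hN⟩ := hN
    rw [hG, mem_filter, mem_range] at hj
    rw [hE] at hN
    simp only at hN
    rw [mem_filter, mem_Ico] at hN
    rw [mem_filter, mem_Ico]
    have h1 : (j + 1) * M ≤ (X / M) * M := Nat.mul_le_mul_right _ hj.1
    have h2 : (X / M) * M ≤ X := Nat.div_mul_le_self _ _
    rw [Nat.succ_mul] at h1
    exact ⟨⟨by omega, by omega⟩, hN.2⟩
  calc δ / 2 * X = δ * (X / 2) := by ring
    _ ≤ δ * (G.card * M) := mul_le_mul_of_nonneg_left hGcard hδ.le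
    _ = ∑ j ∈ G, δ * M := by rw [sum_const, nsmul_eq_mul]; ring
    _ ≤ ∑ j ∈ G, ((E j).card : ℝ) := sum_le_sum hEj
    _ = ((G.biUnion E).card : ℝ) := by
        rw [card_biUnion hdisj]
        push_cast
        rfl
    _ ≤ _ := by exact_mod_cast card_le_card hsub

end Pool.Agent.R502.WD
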