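import Pool.Agent.R502.WD.Fin1

/-!
Arbitrary sparse sets of summands, `N` in a short interval.
-/

set_option autoImplicit false

open Finset Filter Topology

namespace Pool.Agent.R502.WD

open Pool.Agent.R526.AA

open Classical in
/-- arbitrary sparse sets of summands, `N` in a short interval -/
theorem short_one (lam θ : ℝ) (hlam : 0 < lam) (hθ : 0 < θ) (hθ1 : θ ≤ 1) :
    ∃ δ : ℝ, 0 < δ ∧ ∀ A : ℕ, ∃ X₀ : ℕ, ∀ X : ℕ, X₀ ≤ X → ∀ Y x u : ℕ,
    (X : ℝ) ^ θ ≤ Y → 8 * Y ≤ X → X ≤ x → x ≤ 2 * X → 2 * u ≤ X → ∀ P : Finset ℕ,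
    (P.card : ℝ) ≤ lam * Real.log X →
    (∀ p ∈ P, u ≤ p ∧ (p : ℝ) ≤ u + Real.log X ^ A) →
    δ * Y ≤ (((Ico x (x + Y)).filter
      (fun N : ℕ => Even N ∧ ∀ p ∈ P, ¬ (N - p).Prime)).card : ℝ) := by
  obtain ⟨δ, hδ, h⟩ := one (lam / θ) (2 / θ) (by positivity) (by positivity)
  refine ⟨δ, hδ, fun A => ?_⟩
  obtain ⟨M₁, hM₁⟩ := h A
  have tθ : Tendsto (fun X : ℕ => (X : ℝ) ^ θ) atTop atTop :=
    (tendsto_rpow_atTop hθ).comp tendsto_natCast_atTop_atTop
  have tl : Tendsto (fun X : ℕ => Real.log X) atTop atTop :=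
    Real.tendsto_log_atTop.comp tendsto_natCast_atTop_atTop
  have e1 : ∀ᶠ X : ℕ in atTop, (M₁ : ℝ) + 4 ≤ (X : ℝ) ^ θ := tθ.eventually_ge_atTop _
  have e2 : ∀ᶠ X : ℕ in atTop, ((1 / θ) ^ A + 1) / θ + 1 / θ + 1 ≤ Real.log X :=
    tl.eventually_ge_atTop _
  have e3 : ∀ᶠ X : ℕ in atTop, Real.log X ^ A + 1 ≤ 1 / 8 * (X : ℝ) := by
    have h1 := (Real.isLittleO_pow_log_id_atTop (n := A)).def (show (0 : ℝ) < 1 / 16 by norm_num)
    filter_upwards [tendsto_natCast_atTop_atTop.eventually h1,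
      tendsto_natCast_atTop_atTop.eventually_ge_atTop (16 : ℝ)] with X h2 h3
    rw [Real.norm_eq_abs, Real.norm_eq_abs, id, abs_of_nonneg (by
      have := Real.log_nonneg (show (1 : ℝ) ≤ X by linarith)
      positivity), abs_of_nonneg (by linarith)] at h2
    linarith
  obtain ⟨X₀, hX₀⟩ := eventually_atTop.1 (e1.and (e2.and (e3.and (eventually_ge_atTop 16))))
  refine ⟨X₀, fun X hX Y x u hY hY8 hXx hx2 hu P hP hPu => ?_⟩
  obtain ⟨h1, h2, h3, h4⟩ := hX₀ X hX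
  have hX16 : (16 : ℝ) ≤ X := by exact_mod_cast h4
  have hX0 : (0 : ℝ) < X := by linarith
  have hM1r : (0 : ℝ) ≤ M₁ := Nat.cast_nonneg _
  have hYM : M₁ + 4 ≤ Y := by
    have : ((M₁ + 4 : ℕ) : ℝ) ≤ Y := by push_cast; linarith
    exact_mod_cast this
  have hY0 : (0 : ℝ) < Y := by exact_mod_cast (by omega : 0 < Y)
  have hlX : 0 < Real.log X := Real.log_pos (by linarith)
  have hlY : θ * Real.log X ≤ Real.log Y := by
    rw [← Real.log_rpow hX0]
    exact Real.log_le_log (by positivity) hY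
  have hlXY : Real.log X ≤ 1 / θ * Real.log Y := by
    rw [div_mul_eq_mul_div, one_mul, le_div_iff₀ hθ]
    linarith
  have hθi : 1 ≤ 1 / θ := by
    rw [le_div_iff₀ hθ]
    linarith
  have hlYbig : (1 / θ) ^ A + 2 ≤ Real.log Y := by
    have e4 := mul_le_mul_of_nonneg_left h2 hθ.le
    have e5 : θ * (((1 / θ) ^ A + 1) / θ + 1 / θ + 1) = (1 / θ) ^ A + 1 + 1 + θ := by
      field_simp
    linarith
  have hlY1 : 1 ≤ Real.log Y := by
    have : (0 : ℝ) ≤ (1 / θ) ^ A := by positivity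
    linarith
  obtain ⟨e, he⟩ : ∃ e : ℕ, e = u + ⌊Real.log X ^ A⌋₊ + 1 := ⟨_, rfl⟩
  have hfl : (⌊Real.log X ^ A⌋₊ : ℝ) ≤ Real.log X ^ A := Nat.floor_le (by positivity)
  have hPc : ∀ p ∈ P, p < e := by
    intro p hp
    obtain ⟨h5, h6⟩ := hPu p hp
    have h7 : ((p - u : ℕ) : ℝ) ≤ Real.log X ^ A := by
      rw [Nat.cast_sub h5]
      linarith
    have := Nat.le_floor h7
    omega
  have heX : (e : ℝ) ≤ 5 / 8 * X := by
    have h5 : (2 * (u : ℝ)) ≤ X := by exact_mod_cast hu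
    rw [he]
    push_cast
    linarith
  have heXn : 8 * e ≤ 5 * X := by
    have : (8 : ℝ) * e ≤ 5 * X := by linarith
    exact_mod_cast this
  have h5 := hM₁ Y (by omega) (x - e) (by
    have h6 : ((x - e : ℕ) : ℝ) + 2 * Y ≤ X * X := by
      have e4 : x - e + 2 * Y ≤ X * X := by nlinarith [Nat.sub_le x e]
      exact_mod_cast e4
    refine h6.trans ?_
    have h7 : ((X : ℝ) ^ θ) ^ (2 / θ) ≤ (Y : ℝ) ^ (2 / θ) :=
      Real.rpow_le_rpow (by positivity) hY (by positivity)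
    refine le_trans (le_of_eq ?_) h7
    rw [← Real.rpow_mul hX0.le, mul_div_cancel₀ _ hθ.ne']
    rw [show (2 : ℝ) = ((2 : ℕ) : ℝ) by norm_num, Real.rpow_natCast]
    ring) (e % 2) (Nat.mod_lt _ two_pos) (P.image (fun p => e - p)) (by
      have : ((P.image (fun p => e - p)).card : ℝ) ≤ P.card := by exact_mod_cast card_image_le
      calc _ ≤ (P.card : ℝ) := this
        _ ≤ lam * Real.log X := hP
        _ ≤ lam * (1 / θ * Real.log Y) := mul_le_mul_of_nonneg_left hlXY hlam.le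
        _ = _ := by ring) (by
      intro a ha
      rw [mem_image] at ha
      obtain ⟨p, hp, rfl⟩ := ha
      have h6 := hPc p hp
      have h7 := (hPu p hp).1
      refine ⟨by omega, ?_⟩
      have h8 : ((e - p : ℕ) : ℝ) ≤ ((⌊Real.log X ^ A⌋₊ + 1 : ℕ) : ℝ) := by
        exact_mod_cast (by omega : e - p ≤ ⌊Real.log X ^ A⌋₊ + 1)
      refine h8.trans ?_
      push_cast
      have h9 : Real.log X ^ A ≤ (1 / θ * Real.log Y) ^ A := pow_le_pow_left₀ hlX.le hlXY A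
      have h10 : (1 : ℝ) ≤ Real.log Y ^ A := one_le_pow₀ hlY1
      have h11 : (0 : ℝ) ≤ Real.log Y ^ A := by positivity
      calc (⌊Real.log X ^ A⌋₊ : ℝ) + 1 ≤ (1 / θ * Real.log Y) ^ A + Real.log Y ^ A := by linarith
        _ = ((1 / θ) ^ A + 1) * Real.log Y ^ A := by rw [mul_pow]; ring
        _ ≤ Real.log Y * Real.log Y ^ A := mul_le_mul_of_nonneg_right (by linarith) h11
        _ = Real.log Y ^ (A + 1) := by ring)
  refine h5.trans ?_
  apply Nat.cast_le.2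
  apply card_le_card_of_injOn (fun n => n + e)
  · intro n hn
    rw [mem_coe, mem_filter, mem_Ico] at hn
    rw [mem_coe, mem_filter, mem_Ico]
    change (x ≤ n + e ∧ n + e < x + Y) ∧ Even (n + e) ∧ ∀ p ∈ P, ¬ (n + e - p).Prime
    refine ⟨by omega, ?_, comp_of_Co rfl (by omega) hPc hn.2.2⟩
    rw [Nat.even_iff]
    have := hn.2.1
    omega
  · intro a _ b _ hab
    have : a + e = b + e := hab
    omega

end Pool.Agent.R502.WD
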