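import Pool.Agent.R502.WD.Fin1

/-!
Summands in a set with a given upper bound for its counting function, and iterated prime indices.
-/

set_option autoImplicit false

open Finset Filter Topology

namespace Pool.Agent.R502.WD

open Pool.Agent.R526.AA

/-- `λ log X (log log X) ^ d` -/
noncomputable def yy (d : ℕ) (lam X : ℝ) : ℝ := lam * Real.log X * Real.log (Real.log X) ^ d

open Classical in
theorem card_gen (Q : ℕ → Prop) (d : ℕ) (C : ℝ) (Y₀ : ℕ) (hC : 0 < C)
    (h : ∀ y : ℕ, Y₀ ≤ y → (((range (y + 1)).filter Q).card : ℝ) ≤ C * (y / Real.log y ^ d))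
    (lam : ℝ) (hlam : 0 < lam) : ∃ X₀ : ℝ, ∀ X : ℝ, X₀ ≤ X →
    (((range (⌊yy d lam X⌋₊ + 1)).filter Q).card : ℝ) ≤ C * 2 ^ d * lam * Real.log X ∧
    0 ≤ yy d lam X ∧ yy d lam X ≤ Real.log X ^ 2 := by
  have t2 : Tendsto (fun X : ℝ => Real.log (Real.log X)) atTop atTop :=
    Real.tendsto_log_atTop.comp Real.tendsto_log_atTop
  have e1 : ∀ᶠ X : ℝ in atTop, lam * Real.log (Real.log X) ^ d ≤ Real.log X := by
    have h1 := (Real.isLittleO_pow_log_id_atTop (n := d)).def (show 0 < 1 / lam by positivity)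
    filter_upwards [Real.tendsto_log_atTop.eventually h1,
      Real.tendsto_log_atTop.eventually_ge_atTop 1] with X h2 h3
    have h4 : 0 ≤ Real.log (Real.log X) := Real.log_nonneg h3
    rw [Real.norm_eq_abs, Real.norm_eq_abs, id, abs_of_nonneg (by positivity),
      abs_of_nonneg (by linarith), div_mul_eq_mul_div, one_mul, le_div_iff₀ hlam] at h2
    linarith
  have e2 : ∀ᶠ X : ℝ in atTop, (1 : ℝ) ≤ Real.log (Real.log X) :=
    t2.eventually_ge_atTop _
  have e3 : ∀ᶠ X : ℝ in atTop, (16 / lam ^ 2 + (Y₀ / lam) * 2 + 16) ≤ Real.log X :=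
    Real.tendsto_log_atTop.eventually_ge_atTop _
  obtain ⟨X₀, hX₀⟩ := eventually_atTop.1 (e1.and (e2.and e3))
  refine ⟨X₀, fun X hX => ?_⟩
  obtain ⟨h1, h2, h3⟩ := hX₀ X hX
  unfold yy
  set L := Real.log X with hL
  have hY0 : (0 : ℝ) ≤ Y₀ / lam := by positivity
  have hl20 : (0 : ℝ) < 16 / lam ^ 2 := by positivity
  have hL16 : 16 ≤ L := by linarith
  have hL0 : 0 < L := by linarith
  set l := Real.log L with hl
  have hld : 1 ≤ l ^ d := one_le_pow₀ h2
  have hlamL : lam * L ≤ lam * L * l ^ d := le_mul_of_one_le_right (by positivity) hld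
  have hlamL2 : 2 * Y₀ ≤ lam * L := by
    have h4 : (Y₀ / lam) * 2 ≤ L := by linarith
    have h5 := mul_le_mul_of_nonneg_left h4 hlam.le
    have h6 : lam * ((Y₀ / lam) * 2) = 2 * Y₀ := by field_simp
    linarith
  have hlam4 : 4 * Real.sqrt L ≤ lam * L := by
    have h4 : 16 / lam ^ 2 ≤ L := by linarith
    have h5 : 4 / lam ≤ Real.sqrt L := by
      apply Real.le_sqrt_of_sq_le
      rw [div_pow]
      norm_num
      exact h4
    rw [div_le_iff₀ hlam] at h5
    have h6 : Real.sqrt L * Real.sqrt L = L := Real.mul_self_sqrt hL0.le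
    have h7 : 0 ≤ Real.sqrt L := Real.sqrt_nonneg _
    nlinarith
  have hsq4 : 4 ≤ Real.sqrt L := by
    apply Real.le_sqrt_of_sq_le
    norm_num
    exact hL16
  obtain ⟨y, hy⟩ : ∃ y : ℕ, y = ⌊lam * L * l ^ d⌋₊ := ⟨_, rfl⟩
  have hyy : lam * L * l ^ d < y + 1 := by
    rw [hy]
    exact Nat.lt_floor_add_one _
  have hyL : Real.sqrt L ≤ y := by linarith
  have hy2 : (y : ℝ) ≤ lam * L * l ^ d := by
    rw [hy]
    exact Nat.floor_le (by positivity)
  have hyY : Y₀ ≤ y := by
    have h4 : (Y₀ : ℝ) ≤ y := by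
      have : (0 : ℝ) ≤ Y₀ := Nat.cast_nonneg _
      linarith
    exact_mod_cast h4
  rw [← hy]
  refine ⟨?_, by positivity, ?_⟩
  · refine (h y hyY).trans ?_
    have h4 : l / 2 ≤ Real.log y := by
      rw [hl, ← Real.log_sqrt hL0.le]
      exact Real.log_le_log (by linarith) hyL
    have hl2 : 0 < l / 2 := by linarith
    have h5 : (y : ℝ) / Real.log y ^ d ≤ (lam * L * l ^ d) / (l / 2) ^ d := by
      apply div_le_div₀ (by positivity) hy2 (by positivity)
      exact pow_le_pow_left₀ hl2.le h4 d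
    have h6 : (lam * L * l ^ d) / (l / 2) ^ d = 2 ^ d * (lam * L) := by
      rw [div_pow]
      have : l ^ d ≠ 0 := by positivity
      field_simp
    rw [h6] at h5
    calc C * ((y : ℝ) / Real.log y ^ d) ≤ C * (2 ^ d * (lam * L)) :=
          mul_le_mul_of_nonneg_left h5 hC.le
      _ = _ := by ring
  · calc lam * L * l ^ d = L * (lam * l ^ d) := by ring
      _ ≤ L * L := mul_le_mul_of_nonneg_left h1 hL0.le
      _ = L ^ 2 := by ring

open Classical in
/-- **summands in a sparse set** -/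
theorem gen (Q : ℕ → Prop) (d : ℕ) (C : ℝ) (Y₀ : ℕ) (hC : 0 < C)
    (hQ : ∀ y : ℕ, Y₀ ≤ y → (((range (y + 1)).filter Q).card : ℝ) ≤ C * (y / Real.log y ^ d)) :
    (∀ lam : ℝ, 0 < lam → ∃ δ : ℝ, 0 < δ ∧ ∃ X₀ : ℝ, ∀ X : ℝ, X₀ ≤ X →
      δ * X ≤ (((Icc 1 ⌊X⌋₊).filter (fun N => Even N ∧ ∀ p q : ℕ, Q p → q.Prime →
        N = p + q → yy d lam X < p)).card : ℝ)) ∧
    (∀ lam ε : ℝ, 0 < lam → 0 < ε → ∃ c : ℝ, 0 < c ∧ ∃ K₀ : ℕ, ∀ K : ℕ, K₀ ≤ K →
      ∃ X₀ : ℝ, ∀ X : ℝ, X₀ ≤ X →
      (((Icc 1 ⌊X⌋₊).filter (fun N => (((range K).filter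
        (fun i : ℕ => ∀ p q : ℕ, Q p → q.Prime → N = p + q →
          ¬ ((i : ℝ) * yy d lam X < p ∧ (p : ℝ) ≤ (i + 1) * yy d lam X))).card : ℝ) <
            c * K)).card : ℝ) ≤ ε * X) := by
  constructor
  · intro lam hlam
    obtain ⟨δ, hδ, h⟩ := fin_one (C * 2 ^ d * lam) (by positivity)
    obtain ⟨X1, h1⟩ := h 2
    obtain ⟨X2, h2⟩ := card_gen Q d C Y₀ hC hQ lam hlam
    refine ⟨δ, hδ, max X1 X2, fun X hX => ?_⟩
    obtain ⟨h3, h4, h5⟩ := h2 X ((le_max_right _ _).trans hX)
    refine (h1 X ((le_max_left _ _).trans hX)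
      ((range (⌊yy d lam X⌋₊ + 1)).filter Q) h3 ?_).trans ?_
    · intro p hp
      rw [mem_filter, mem_range] at hp
      have h6 : (p : ℝ) ≤ yy d lam X := (Nat.le_floor_iff h4).1 (by omega)
      exact h6.trans h5
    · apply Nat.cast_le.2
      apply card_le_card
      intro N hN
      rw [mem_filter] at hN ⊢
      refine ⟨hN.1, hN.2.1, fun p q hp hq hNpq => ?_⟩
      by_contra hlt
      rw [not_lt] at hlt
      apply hN.2.2 p
      · rw [mem_filter, mem_range]
        refine ⟨?_, hp⟩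
        have := Nat.le_floor hlt
        omega
      · rw [hNpq, Nat.add_sub_cancel_left]
        exact hq
  · intro lam ε hlam hε
    obtain ⟨c, hc, K₀, h⟩ := fin_blocks (C * 2 ^ d * lam) ε (by positivity) hε
    refine ⟨c, hc, K₀ + 1, fun K hK => ?_⟩
    obtain ⟨X1, h1⟩ := h K (by omega) 2
    have hK0 : (0 : ℝ) < K := by exact_mod_cast (by omega : 0 < K)
    obtain ⟨X2, h2⟩ := card_gen Q d C Y₀ hC hQ (K * lam) (by positivity)
    obtain ⟨X3, h23⟩ := card_gen Q d C Y₀ hC hQ lam hlam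
    refine ⟨max X1 (max X2 X3), fun X hX => ?_⟩
    obtain ⟨h3, h4, h5⟩ := h2 X ((le_max_left _ _).trans ((le_max_right _ _).trans hX))
    obtain ⟨-, hyy, -⟩ := h23 X ((le_max_right _ _).trans ((le_max_right _ _).trans hX))
    have hKy : yy d (K * lam) X = K * yy d lam X := by
      unfold yy
      ring
    set R := (range (⌊yy d (K * lam) X⌋₊ + 1)).filter Q with hR
    set B : ℕ → Finset ℕ := fun i => R.filter
      (fun p : ℕ => (i : ℝ) * yy d lam X < p ∧ (p : ℝ) ≤ (i + 1) * yy d lam X) with hB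
    have hdis : ∀ i < K, ∀ j < K, i ≠ j → Disjoint (B i) (B j) := by
      intro i _ j _ hij
      rw [disjoint_left]
      intro p hp hq
      rw [hB] at hp hq
      simp only at hp hq
      rw [mem_filter] at hp hq
      rcases Nat.lt_or_gt_of_ne hij with hlt | hlt
      · have e1 : ((i : ℝ) + 1) ≤ j := by exact_mod_cast hlt
        have e2 := mul_le_mul_of_nonneg_right e1 hyy
        linarith [hp.2.2, hq.2.1]
      · have e1 : ((j : ℝ) + 1) ≤ i := by exact_mod_cast hlt
        have e2 := mul_le_mul_of_nonneg_right e1 hyy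
        linarith [hq.2.2, hp.2.1]
    refine le_trans ?_ (h1 X ((le_max_left _ _).trans hX) B ?_ hdis ?_)
    · apply Nat.cast_le.2
      apply card_le_card
      intro N hN
      rw [mem_filter] at hN ⊢
      refine ⟨hN.1, lt_of_le_of_lt ?_ hN.2⟩
      apply Nat.cast_le.2
      apply card_le_card
      intro i hi
      rw [mem_filter] at hi ⊢
      refine ⟨hi.1, fun p q hp hq hNpq hpi => hi.2 p ?_ ?_⟩
      · rw [hB]
        simp only
        rw [mem_filter, hR, mem_filter, mem_range]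
        refine ⟨⟨?_, hp⟩, hpi⟩
        have e1 : (p : ℝ) ≤ yy d (K * lam) X := by
          have e2 : ((i : ℝ) + 1) ≤ K := by exact_mod_cast mem_range.1 hi.1
          have e3 := mul_le_mul_of_nonneg_right e2 hyy
          rw [hKy]
          exact hpi.2.trans e3
        have := Nat.le_floor e1
        omega
      · rw [hNpq, Nat.add_sub_cancel_left]
        exact hq
    · intro i _ p hp
      rw [hB] at hp
      simp only at hp
      rw [mem_filter, hR, mem_filter, mem_range] at hp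
      have h6 : (p : ℝ) ≤ yy d (K * lam) X := (Nat.le_floor_iff h4).1 (by omega)
      exact h6.trans h5
    · have h6 : ∑ i ∈ range K, (B i).card ≤ R.card := by
        rw [← card_biUnion]
        · apply card_le_card
          intro p hp
          rw [mem_biUnion] at hp
          obtain ⟨i, -, hi⟩ := hp
          exact (mem_filter.1 hi).1
        · intro i hi j hj hij
          exact hdis i (mem_range.1 hi) j (mem_range.1 hj) hij
      have h7 : ∑ i ∈ range K, ((B i).card : ℝ) ≤ R.card := by exact_mod_cast h6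
      calc _ ≤ (R.card : ℝ) := h7
        _ ≤ C * 2 ^ d * (K * lam) * Real.log X := h3
        _ = _ := by ring

/-- iterated Chebyshev bounds -/
theorem iter_pi (a : ℕ) : ∃ C : ℝ, 1 ≤ C ∧ ∃ Y₀ : ℕ, ∀ y : ℕ, Y₀ ≤ y →
    ((Nat.primeCounting^[a + 1] y : ℕ) : ℝ) ≤ C * (y / Real.log y ^ (a + 1)) := by
  obtain ⟨X1, h1⟩ := Pool.Agent.R502.TW.sizes
  induction a with
  | zero =>
    refine ⟨2, by norm_num, X1, fun y hy => ?_⟩
    obtain ⟨-, -, h2⟩ := h1 y hy
    simpa using h2
  | succ a ih =>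
    obtain ⟨C, hC, Y₀, h⟩ := ih
    have e1 := (Real.isLittleO_pow_log_id_atTop (n := 2 * (a + 1))).def one_pos
    obtain ⟨X2, h2⟩ := eventually_atTop.1 (tendsto_natCast_atTop_atTop.eventually e1)
    refine ⟨8 * C, by linarith, X1 ^ 2 + X1 + X2 + Y₀ + 16, fun y hy => ?_⟩
    have hX1sq : X1 ^ 2 ≤ y := by omega
    have hy16 : (16 : ℝ) ≤ y := by exact_mod_cast (by omega : 16 ≤ y)
    have hy0 : (0 : ℝ) < y := by linarith
    have hL : 1 < Real.log y := by
      rw [Real.lt_log_iff_exp_lt hy0]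
      have := Real.exp_one_lt_d9
      linarith
    have hly : Real.log y ^ (2 * (a + 1)) ≤ y := by
      have h3 := h2 y (by omega)
      simp only [id, Real.norm_eq_abs] at h3
      rw [abs_of_nonneg (by positivity), abs_of_nonneg hy0.le] at h3
      linarith
    have hsq : Real.log y ^ (a + 1) ≤ Real.sqrt y := by
      apply Real.le_sqrt_of_sq_le
      rw [← pow_mul, mul_comm]
      exact hly
    have hLpos : 0 < Real.log y ^ (a + 1) := by positivity
    have hsq0 : 0 < Real.sqrt y := Real.sqrt_pos.2 hy0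
    have hlarge : Real.sqrt y ≤ y / Real.log y ^ (a + 1) := by
      rw [le_div_iff₀ hLpos]
      calc Real.sqrt y * Real.log y ^ (a + 1) ≤ Real.sqrt y * Real.sqrt y :=
            mul_le_mul_of_nonneg_left hsq hsq0.le
        _ = y := Real.mul_self_sqrt hy0.le
    obtain ⟨B, hB⟩ : ∃ B : ℝ, B = C * (y / Real.log y ^ (a + 1)) := ⟨_, rfl⟩
    have hBs : Real.sqrt y ≤ B := by
      rw [hB]
      nlinarith
    have hsq4 : 4 ≤ Real.sqrt y := by
      apply Real.le_sqrt_of_sq_le
      norm_num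
      exact_mod_cast hy16
    obtain ⟨m, hm⟩ : ∃ m : ℕ, m = ⌈B⌉₊ := ⟨_, rfl⟩
    have hm1 : B ≤ m := by rw [hm]; exact Nat.le_ceil _
    have hm2 : (m : ℝ) ≤ 2 * B := by
      have h6 : (m : ℝ) < B + 1 := by
        rw [hm]
        exact Nat.ceil_lt_add_one (by linarith)
      linarith
    have hn := h y (by omega)
    rw [← hB] at hn
    have hnm : Nat.primeCounting^[a + 1] y ≤ m := by
      have : ((Nat.primeCounting^[a + 1] y : ℕ) : ℝ) ≤ m := hn.trans hm1
      exact_mod_cast this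
    have hmX1 : X1 ≤ m := by
      have h6 : (X1 : ℝ) ≤ Real.sqrt y := by
        apply Real.le_sqrt_of_sq_le
        exact_mod_cast hX1sq
      have : (X1 : ℝ) ≤ m := h6.trans (hBs.trans hm1)
      exact_mod_cast this
    have hlm : Real.log y / 2 ≤ Real.log m := by
      rw [← Real.log_sqrt hy0.le]
      exact Real.log_le_log hsq0 (hBs.trans hm1)
    obtain ⟨-, -, h8⟩ := h1 m hmX1
    rw [Function.iterate_succ_apply']
    calc ((Nat.primeCounting (Nat.primeCounting^[a + 1] y) : ℕ) : ℝ) ≤ Nat.primeCounting m := by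
          exact_mod_cast Nat.monotone_primeCounting hnm
      _ ≤ 2 * (m / Real.log m) := h8
      _ ≤ 2 * ((2 * B) / (Real.log y / 2)) := by
          apply mul_le_mul_of_nonneg_left _ two_pos.le
          apply div_le_div₀ (by linarith) hm2 (by linarith) hlm
      _ = 8 * C * (y / Real.log y ^ (a + 1 + 1)) := by
          rw [hB]
          field_simp
          ring

/-- the `x`-th prime -/
noncomputable def pp (x : ℕ) : ℕ := Nat.nth Nat.Prime (x - 1)

theorem pp_le {x y : ℕ} (hx : 1 ≤ x) (h : pp x ≤ y) : x ≤ Nat.primeCounting y := by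
  unfold pp at h
  have h1 := Nat.monotone_primeCounting h
  refine le_trans ?_ h1
  unfold Nat.primeCounting Nat.primeCounting'
  rw [Nat.count_succ, if_pos (Nat.prime_nth_prime _)]
  have h2 : Nat.count Nat.Prime (Nat.nth Nat.Prime (x - 1)) = x - 1 := Nat.primeCounting'_nth_eq _
  rw [h2]
  omega

theorem pp_pos (x : ℕ) : 1 ≤ pp x := (Nat.prime_nth_prime _).one_le

theorem pp_iter_pos (a x : ℕ) (hx : 1 ≤ x) : 1 ≤ pp^[a] x := by
  induction a with
  | zero => exact hx
  | succ a ih =>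
    rw [Function.iterate_succ_apply']
    exact pp_pos _

theorem pp_iter (a : ℕ) : ∀ {x y : ℕ}, 1 ≤ x → pp^[a] x ≤ y → x ≤ Nat.primeCounting^[a] y := by
  induction a with
  | zero => intro x y _ h; exact h
  | succ a ih =>
    intro x y hx h
    rw [Function.iterate_succ_apply'] at h
    have h1 := pp_le (pp_iter_pos a x hx) h
    rw [Function.iterate_succ_apply]
    exact ih hx h1

/-- the iterated prime-indexed primes -/
def IterPrime (a q : ℕ) : Prop := ∃ x : ℕ, 1 ≤ x ∧ q = pp^[a + 1] x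

open Classical in
theorem card_iterPrime (a : ℕ) : ∃ C : ℝ, 0 < C ∧ ∃ Y₀ : ℕ, ∀ y : ℕ, Y₀ ≤ y →
    (((range (y + 1)).filter (IterPrime a)).card : ℝ) ≤ C * (y / Real.log y ^ (a + 1)) := by
  obtain ⟨C, hC, Y₀, h⟩ := iter_pi a
  refine ⟨C, by linarith, Y₀, fun y hy => le_trans ?_ (h y hy)⟩
  apply Nat.cast_le.2
  calc ((range (y + 1)).filter (IterPrime a)).card ≤
      ((Icc 1 (Nat.primeCounting^[a + 1] y)).image (fun x => pp^[a + 1] x)).card := by
        apply card_le_card
        intro q hq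
        rw [mem_filter, mem_range] at hq
        obtain ⟨hq1, x, hx, rfl⟩ := hq
        rw [mem_image]
        refine ⟨x, ?_, rfl⟩
        rw [mem_Icc]
        exact ⟨hx, pp_iter (a + 1) hx (by omega)⟩
    _ ≤ (Icc 1 (Nat.primeCounting^[a + 1] y)).card := card_image_le
    _ = _ := by rw [Nat.card_Icc]; omega

end Pool.Agent.R502.WD
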