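import Pool.Agent.R502.WD.Gen

/-!
Several types of summands at once.
-/

set_option autoImplicit false

open Finset Filter Topology

namespace Pool.Agent.R502.WD

open Classical in
/-- **summands of several types at once, positive proportion** -/
theorem gen_many (m : ℕ) (Q : ℕ → ℕ → Prop) (d : ℕ → ℕ)
    (hQ : ∀ i : ℕ, ∃ C : ℝ, 0 < C ∧ ∃ Y₀ : ℕ, ∀ y : ℕ, Y₀ ≤ y →
      (((range (y + 1)).filter (Q i)).card : ℝ) ≤ C * (y / Real.log y ^ (d i)))
    (lam : ℝ) (hlam : 0 < lam) : ∃ δ : ℝ, 0 < δ ∧ ∃ X₀ : ℝ, ∀ X : ℝ, X₀ ≤ X →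
      δ * X ≤ (((Icc 1 ⌊X⌋₊).filter (fun N => Even N ∧ ∀ i < m, ∀ p q : ℕ, Q i p → q.Prime →
        N = p + q → yy (d i) lam X < p)).card : ℝ) := by
  choose C hC Y hY using hQ
  have h0 : ∀ i, ∃ X₀ : ℝ, ∀ X : ℝ, X₀ ≤ X →
      (((range (⌊yy (d i) lam X⌋₊ + 1)).filter (Q i)).card : ℝ) ≤
        C i * 2 ^ (d i) * lam * Real.log X ∧
      0 ≤ yy (d i) lam X ∧ yy (d i) lam X ≤ Real.log X ^ 2 :=
    fun i => card_gen (Q i) (d i) (C i) (Y i) (hC i) (hY i) lam hlam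
  choose X2 h2 using h0
  have hsum0 : 0 ≤ ∑ i ∈ range m, C i * 2 ^ (d i) * lam := by
    apply sum_nonneg
    intro i _
    have := hC i
    positivity
  obtain ⟨δ, hδ, h⟩ := fin_one (∑ i ∈ range m, C i * 2 ^ (d i) * lam + 1) (by linarith)
  obtain ⟨X1, h1⟩ := h 2
  refine ⟨δ, hδ, max (max X1 1) (∑ i ∈ range m, |X2 i|), fun X hX => ?_⟩
  have hX1 : X1 ≤ X := (le_max_left _ _).trans ((le_max_left _ _).trans hX)
  have hX0 : 1 ≤ X := (le_max_right _ _).trans ((le_max_left _ _).trans hX)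
  have hlog : 0 ≤ Real.log X := Real.log_nonneg hX0
  have hX2 : ∀ i < m, X2 i ≤ X := by
    intro i hi
    have e1 : |X2 i| ≤ ∑ i ∈ range m, |X2 i| :=
      single_le_sum (f := fun i => |X2 i|) (fun j _ => abs_nonneg _) (mem_range.2 hi)
    exact (le_abs_self _).trans (e1.trans ((le_max_right _ _).trans hX))
  refine (h1 X hX1 ((range m).biUnion
    (fun i => (range (⌊yy (d i) lam X⌋₊ + 1)).filter (Q i))) ?_ ?_).trans ?_
  · calc ((((range m).biUnion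
        (fun i => (range (⌊yy (d i) lam X⌋₊ + 1)).filter (Q i))).card : ℕ) : ℝ)
        ≤ ((∑ i ∈ range m, ((range (⌊yy (d i) lam X⌋₊ + 1)).filter (Q i)).card : ℕ) : ℝ) :=
          Nat.cast_le.2 card_biUnion_le
      _ = ∑ i ∈ range m, (((range (⌊yy (d i) lam X⌋₊ + 1)).filter (Q i)).card : ℝ) := by
          push_cast
          rfl
      _ ≤ ∑ i ∈ range m, C i * 2 ^ (d i) * lam * Real.log X :=
          sum_le_sum fun i hi => (h2 i X (hX2 i (mem_range.1 hi))).1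
      _ = (∑ i ∈ range m, C i * 2 ^ (d i) * lam) * Real.log X := by rw [sum_mul]
      _ ≤ _ := mul_le_mul_of_nonneg_right (by linarith) hlog
  · intro p hp
    rw [mem_biUnion] at hp
    obtain ⟨i, hi, hp⟩ := hp
    rw [mem_filter, mem_range] at hp
    obtain ⟨-, h4, h5⟩ := h2 i X (hX2 i (mem_range.1 hi))
    have h6 : (p : ℝ) ≤ yy (d i) lam X := (Nat.le_floor_iff h4).1 (by omega)
    exact h6.trans h5
  · apply Nat.cast_le.2
    apply card_le_card
    intro N hN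
    rw [mem_filter] at hN ⊢
    refine ⟨hN.1, hN.2.1, fun i hi p q hp hq hNpq => ?_⟩
    by_contra hlt
    rw [not_lt] at hlt
    apply hN.2.2 p
    · rw [mem_biUnion]
      refine ⟨i, mem_range.2 hi, ?_⟩
      rw [mem_filter, mem_range]
      refine ⟨?_, hp⟩
      have := Nat.le_floor hlt
      omega
    · rw [hNpq, Nat.add_sub_cancel_left]
      exact hq

open Classical in
/-- **summands of several types at once, windows for almost all `N`** -/
theorem gen_windows (m : ℕ) (Q : ℕ → ℕ → Prop) (d : ℕ → ℕ)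
    (hQ : ∀ i : ℕ, ∃ C : ℝ, 0 < C ∧ ∃ Y₀ : ℕ, ∀ y : ℕ, Y₀ ≤ y →
      (((range (y + 1)).filter (Q i)).card : ℝ) ≤ C * (y / Real.log y ^ (d i)))
    (lam : ℝ) (hlam : 0 < lam) : ∀ ε : ℝ, 0 < ε → ∃ c : ℝ, 0 < c ∧ ∃ K₀ : ℕ, ∀ K : ℕ, K₀ ≤ K →
      ∃ X₀ : ℝ, ∀ X : ℝ, X₀ ≤ X →
      (((Icc 1 ⌊X⌋₊).filter (fun N => ∃ j < m, (((range K).filter
        (fun i : ℕ => ∀ p q : ℕ, Q j p → q.Prime → N = p + q →
          ¬ ((i : ℝ) * yy (d j) lam X < p ∧ (p : ℝ) ≤ (i + 1) * yy (d j) lam X))).card : ℝ) <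
            c * K)).card : ℝ) ≤ ε * X := by
  induction m with
  | zero =>
    intro ε hε
    refine ⟨1, one_pos, 0, fun K _ => ⟨0, fun X hX => ?_⟩⟩
    refine le_trans (le_of_eq ?_) (mul_nonneg hε.le hX)
    rw [Nat.cast_eq_zero, card_eq_zero, filter_eq_empty_iff]
    rintro N _ ⟨j, hj, _⟩
    omega
  | succ m ih =>
    intro ε hε
    obtain ⟨c1, hc1, K1, h1⟩ := ih (ε / 2) (by positivity)
    obtain ⟨C, hC, Y₀, hY⟩ := hQ m
    obtain ⟨-, g2⟩ := gen (Q m) (d m) C Y₀ hC hY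
    obtain ⟨c2, hc2, K2, h2⟩ := g2 lam (ε / 2) hlam (by positivity)
    refine ⟨min c1 c2, lt_min hc1 hc2, max K1 K2, fun K hK => ?_⟩
    obtain ⟨X1, h3⟩ := h1 K ((le_max_left _ _).trans hK)
    obtain ⟨X2, h4⟩ := h2 K ((le_max_right _ _).trans hK)
    refine ⟨max X1 X2, fun X hX => ?_⟩
    have h5 := h3 X ((le_max_left _ _).trans hX)
    have h6 := h4 X ((le_max_right _ _).trans hX)
    have hK0 : (0 : ℝ) ≤ K := Nat.cast_nonneg _
    have h7 : ((Icc 1 ⌊X⌋₊).filter (fun N => ∃ j < m + 1, (((range K).filter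
        (fun i : ℕ => ∀ p q : ℕ, Q j p → q.Prime → N = p + q →
          ¬ ((i : ℝ) * yy (d j) lam X < p ∧ (p : ℝ) ≤ (i + 1) * yy (d j) lam X))).card : ℝ) <
            min c1 c2 * K)) ⊆
        ((Icc 1 ⌊X⌋₊).filter (fun N => ∃ j < m, (((range K).filter
        (fun i : ℕ => ∀ p q : ℕ, Q j p → q.Prime → N = p + q →
          ¬ ((i : ℝ) * yy (d j) lam X < p ∧ (p : ℝ) ≤ (i + 1) * yy (d j) lam X))).card : ℝ) <
            c1 * K)) ∪
        ((Icc 1 ⌊X⌋₊).filter (fun N => (((range K).filter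
        (fun i : ℕ => ∀ p q : ℕ, Q m p → q.Prime → N = p + q →
          ¬ ((i : ℝ) * yy (d m) lam X < p ∧ (p : ℝ) ≤ (i + 1) * yy (d m) lam X))).card : ℝ) <
            c2 * K)) := by
      intro N hN
      rw [mem_filter] at hN
      obtain ⟨hN1, j, hj, hN2⟩ := hN
      rw [mem_union, mem_filter, mem_filter]
      rcases Nat.lt_succ_iff_lt_or_eq.1 hj with hj | rfl
      · exact Or.inl ⟨hN1, j, hj, hN2.trans_le
          (mul_le_mul_of_nonneg_right (min_le_left _ _) hK0)⟩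
      · exact Or.inr ⟨hN1, hN2.trans_le (mul_le_mul_of_nonneg_right (min_le_right _ _) hK0)⟩
    have h8 := (card_le_card h7).trans (card_union_le _ _)
    have h9 : (((Icc 1 ⌊X⌋₊).filter (fun N => ∃ j < m + 1, (((range K).filter
        (fun i : ℕ => ∀ p q : ℕ, Q j p → q.Prime → N = p + q →
          ¬ ((i : ℝ) * yy (d j) lam X < p ∧ (p : ℝ) ≤ (i + 1) * yy (d j) lam X))).card : ℝ) <
            min c1 c2 * K)).card : ℝ) ≤ _ := Nat.cast_le.2 h8
    push_cast at h9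
    linarith

end Pool.Agent.R502.WD
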