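import Pool.Agent.R502.WD.Fin1

/-!
Prime-indexed primes: Chebyshev bounds, and sparse summands.
-/

set_option autoImplicit false

open Finset Filter Topology

namespace Pool.Agent.R502.WD

open Pool.Agent.R526.AA

/-- the prime `p` has prime index -/
def Idx (p : ℕ) : Prop := p.Prime ∧ (Nat.primeCounting p).Prime

open Classical in
/-- the number of primes with prime index up to `y` -/
theorem card_idx : ∃ Y₀ : ℕ, ∀ y : ℕ, Y₀ ≤ y →
    (((range (y + 1)).filter Idx).card : ℝ) ≤ 12 * (y / Real.log y ^ 2) := by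
  obtain ⟨X1, h1⟩ := Pool.Agent.R502.TW.sizes
  have e1 := (Real.isLittleO_log_id_atTop).def one_pos
  obtain ⟨X2, h2⟩ := eventually_atTop.1 (tendsto_natCast_atTop_atTop.eventually e1)
  refine ⟨X1 ^ 2 + X1 + X2 + 16, fun y hy => ?_⟩
  have hy16 : (16 : ℝ) ≤ y := by exact_mod_cast (by nlinarith [sq_nonneg X1] : 16 ≤ y)
  have hy0 : (0 : ℝ) < y := by linarith
  have hyX1 : X1 ≤ y := by nlinarith [sq_nonneg X1]
  have hyX2 : X2 ≤ y := by nlinarith [sq_nonneg X1]
  obtain ⟨-, -, h3⟩ := h1 y hyX1
  have h4 := h2 y hyX2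
  have hL : 1 < Real.log y := by
    rw [Real.lt_log_iff_exp_lt hy0]
    have := Real.exp_one_lt_d9
    linarith
  have hly : Real.log y ≤ y := by
    simp only [id, Real.norm_eq_abs] at h4
    rw [abs_of_nonneg (by linarith), abs_of_nonneg hy0.le] at h4
    linarith
  -- reduction to `π(π(y))`
  have h5 : ((range (y + 1)).filter Idx).card ≤
      Nat.primeCounting (Nat.primeCounting y) := by
    rw [Nat.primeCounting, Nat.primeCounting', Nat.count_eq_card_filter_range]
    apply card_le_card_of_injOn Nat.primeCounting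
    · intro p hp
      rw [mem_coe, mem_filter, mem_range] at hp
      rw [mem_coe, mem_filter, mem_range]
      refine ⟨?_, hp.2.2⟩
      have := Nat.monotone_primeCounting (show p ≤ y by omega)
      omega
    · intro p hp q hq hpq
      rw [mem_coe, mem_filter] at hp hq
      have key : ∀ a b : ℕ, a.Prime → b.Prime → a < b →
          Nat.primeCounting a < Nat.primeCounting b := by
        intro a b ha hb hab
        have e1 : Nat.primeCounting a ≤ Nat.primeCounting' b := by
          unfold Nat.primeCounting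
          exact Nat.monotone_primeCounting' (by omega)
        have e2 : Nat.primeCounting b = Nat.primeCounting' b + 1 := by
          unfold Nat.primeCounting Nat.primeCounting'
          rw [Nat.count_succ, if_pos hb]
        omega
      rcases Nat.lt_trichotomy p q with h | h | h
      · have := key p q hp.2.1 hq.2.1 h
        omega
      · exact h
      · have := key q p hq.2.1 hp.2.1 h
        omega
  obtain ⟨m, hm⟩ : ∃ m : ℕ, m = ⌈2 * (y / Real.log y)⌉₊ := ⟨_, rfl⟩
  have hm1 : 2 * (y / Real.log y) ≤ m := by rw [hm]; exact Nat.le_ceil _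
  have hm2 : (m : ℝ) ≤ 3 * (y / Real.log y) := by
    have h6 : (m : ℝ) < 2 * (y / Real.log y) + 1 := by
      rw [hm]
      exact Nat.ceil_lt_add_one (by positivity)
    have h7 : 1 ≤ y / Real.log y := by
      rw [le_div_iff₀ (by linarith)]
      linarith
    linarith
  have hπ : Nat.primeCounting y ≤ m := by
    have : (Nat.primeCounting y : ℝ) ≤ m := h3.trans hm1
    exact_mod_cast this
  -- the size of `m`
  have hsq : Real.sqrt y ≤ m := by
    refine le_trans ?_ hm1
    have h6 : Real.log y ≤ 2 * Real.sqrt y := by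
      have := Real.log_le_rpow_div hy0.le (show (0 : ℝ) < 1 / 2 by norm_num)
      rw [← Real.sqrt_eq_rpow] at this
      linarith
    rw [← mul_div_assoc, le_div_iff₀ (by linarith)]
    calc Real.sqrt y * Real.log y ≤ Real.sqrt y * (2 * Real.sqrt y) :=
          mul_le_mul_of_nonneg_left h6 (Real.sqrt_nonneg _)
      _ = 2 * (Real.sqrt y * Real.sqrt y) := by ring
      _ = 2 * y := by rw [Real.mul_self_sqrt hy0.le]
  have hmX1 : X1 ≤ m := by
    have h6 : (X1 : ℝ) ≤ Real.sqrt y := by
      apply Real.le_sqrt_of_sq_le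
      have : X1 ^ 2 ≤ y := by omega
      exact_mod_cast this
    have : (X1 : ℝ) ≤ m := h6.trans hsq
    exact_mod_cast this
  have hsq0 : 0 < Real.sqrt y := Real.sqrt_pos.2 hy0
  have hlm : Real.log y / 2 ≤ Real.log m := by
    rw [← Real.log_sqrt hy0.le]
    exact Real.log_le_log hsq0 hsq
  obtain ⟨-, -, h8⟩ := h1 m hmX1
  have h9 : (Nat.primeCounting (Nat.primeCounting y) : ℝ) ≤ Nat.primeCounting m := by
    exact_mod_cast Nat.monotone_primeCounting hπ
  calc (((range (y + 1)).filter Idx).card : ℝ) ≤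
      (Nat.primeCounting (Nat.primeCounting y) : ℝ) := by exact_mod_cast h5
    _ ≤ 2 * (m / Real.log m) := h9.trans h8
    _ ≤ 2 * (m / (Real.log y / 2)) := by
        apply mul_le_mul_of_nonneg_left _ two_pos.le
        apply div_le_div_of_nonneg_left (Nat.cast_nonneg _) (by linarith) hlm
    _ ≤ 2 * ((3 * (y / Real.log y)) / (Real.log y / 2)) := by
        apply mul_le_mul_of_nonneg_left _ two_pos.le
        exact div_le_div_of_nonneg_right hm2 (by linarith)
    _ = _ := by
        field_simp
        norm_num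

open Classical in
/-- the primes with prime index up to a multiple of `log X (log log X) ^ 2` -/
theorem card_idx_log (lam : ℝ) (hlam : 0 < lam) : ∃ X₀ : ℝ, ∀ X : ℝ, X₀ ≤ X →
    (((range (⌊lam * Real.log X * Real.log (Real.log X) ^ 2⌋₊ + 1)).filter Idx).card : ℝ) ≤
      48 * lam * Real.log X ∧
    lam * Real.log X * Real.log (Real.log X) ^ 2 ≤ Real.log X ^ 2 := by
  obtain ⟨Y₀, h⟩ := card_idx
  have t2 : Tendsto (fun X : ℝ => Real.log (Real.log X)) atTop atTop :=
    Real.tendsto_log_atTop.comp Real.tendsto_log_atTop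
  have e1 : ∀ᶠ X : ℝ in atTop, lam * Real.log (Real.log X) ^ 2 ≤ Real.log X := by
    have h1 := (Real.isLittleO_pow_log_id_atTop (n := 2)).def (show 0 < 1 / lam by positivity)
    filter_upwards [Real.tendsto_log_atTop.eventually h1,
      Real.tendsto_log_atTop.eventually_ge_atTop 1] with X h2 h3
    rw [Real.norm_eq_abs, Real.norm_eq_abs, id, abs_of_nonneg (by positivity),
      abs_of_nonneg (by linarith), div_mul_eq_mul_div, one_mul, le_div_iff₀ hlam] at h2
    linarith
  have e2 : ∀ᶠ X : ℝ in atTop, 4 / lam + 2 ≤ Real.log (Real.log X) :=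
    t2.eventually_ge_atTop _
  have e3 : ∀ᶠ X : ℝ in atTop, (Y₀ : ℝ) + 16 ≤ Real.log X :=
    Real.tendsto_log_atTop.eventually_ge_atTop _
  obtain ⟨X₀, hX₀⟩ := eventually_atTop.1 (e1.and (e2.and e3))
  refine ⟨X₀, fun X hX => ?_⟩
  obtain ⟨h1, h2, h3⟩ := hX₀ X hX
  set L := Real.log X with hL
  have hY0 : (0 : ℝ) ≤ Y₀ := Nat.cast_nonneg _
  have hL16 : 16 ≤ L := by linarith
  have hL0 : 0 < L := by linarith
  set l := Real.log L with hl
  have hl0 : 0 < 4 / lam := by positivity
  have hl2 : 2 ≤ l := by linarith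
  have hlam1 : 4 ≤ lam * l ^ 2 := by
    have h4 : 4 / lam ≤ l := by linarith
    rw [div_le_iff₀ hlam] at h4
    nlinarith
  obtain ⟨y, hy⟩ : ∃ y : ℕ, y = ⌊lam * L * l ^ 2⌋₊ := ⟨_, rfl⟩
  have hyL : L ≤ y := by
    have h4 : lam * L * l ^ 2 < y + 1 := by
      rw [hy]
      exact Nat.lt_floor_add_one _
    have h5 : 4 * L ≤ lam * L * l ^ 2 := by
      have : lam * L * l ^ 2 = (lam * l ^ 2) * L := by ring
      rw [this]
      exact mul_le_mul_of_nonneg_right hlam1 hL0.le
    linarith
  have hy2 : (y : ℝ) ≤ lam * L * l ^ 2 := by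
    rw [hy]
    exact Nat.floor_le (by positivity)
  have hyY : Y₀ ≤ y := by
    have : (Y₀ : ℝ) ≤ y := by linarith
    exact_mod_cast this
  rw [← hy]
  constructor
  · refine (h y hyY).trans ?_
    have h4 : l ≤ Real.log y := Real.log_le_log hL0 hyL
    have h5 : (y : ℝ) / Real.log y ^ 2 ≤ (lam * L * l ^ 2) / l ^ 2 := by
      apply div_le_div₀ (by positivity) hy2 (by positivity)
      exact pow_le_pow_left₀ (by linarith) h4 2
    have h6 : (lam * L * l ^ 2) / l ^ 2 = lam * L := by
      field_simp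
    rw [h6] at h5
    have : 0 ≤ lam * L := by positivity
    linarith
  · calc lam * L * l ^ 2 = L * (lam * l ^ 2) := by ring
      _ ≤ L * L := mul_le_mul_of_nonneg_left h1 hL0.le
      _ = L ^ 2 := by ring

end Pool.Agent.R502.WD
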