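import Pool.Agent.H804R2.PPSm2

/-!
The local deviation for positions up to a power of the logarithm (adapted from
`Pool/Agent/H804R2/PPSm2.lean`).
-/

set_option autoImplicit false

open Finset

namespace Pool.Agent.R502.WD

open Pool.Agent.H410R2 Pool.Agent.H361R2.PP Pool.Agent.H804R2.PPSm2

/-- positions up to `(log X) ^ A` -/
theorem sm2A (k A : ℕ) (s : ℝ) (hs : 0 < s) : ∃ X₀ : ℕ, ∀ X : ℕ, X₀ ≤ X →
    ∀ P : Finset ℕ, (∀ p ∈ P, p.Prime ∧ HH X < p) → ∀ U : Finset ℕ, U.card ≤ k →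
    (∀ a ∈ U, 1 ≤ a ∧ (a : ℝ) ≤ Real.log X ^ A) → ∀ o : Option ℕ,
    (∀ a ∈ o, 1 ≤ a ∧ (a : ℝ) ≤ Real.log X ^ A ∧ a ∉ U) →
    EN.dl (ee o) rho P U ≤ s := by
  set C1 : ℝ := (k : ℝ) * (k + 1) with hC1
  have hC10 : 0 ≤ C1 := by positivity
  obtain ⟨H0, hH0⟩ := exists_nat_ge (max 2 (max (4 / s) (Real.exp (2 * C1 * (8 * A) / s))))
  obtain ⟨X₀, hX₀⟩ := exists_nat_ge (Real.exp (Real.exp (4 * (H0 : ℝ))))
  refine ⟨X₀, fun X hX P hP U hU hUa o ho => ?_⟩
  have hXr : Real.exp (Real.exp (4 * (H0 : ℝ))) ≤ X := hX₀.trans (by exact_mod_cast hX)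
  have hlogX : Real.exp (4 * (H0 : ℝ)) ≤ Real.log X := by
    have := Real.log_le_log (Real.exp_pos _) hXr
    rwa [Real.log_exp] at this
  have hllX : 4 * (H0 : ℝ) ≤ Real.log (Real.log X) := by
    have := Real.log_le_log (Real.exp_pos _) hlogX
    rwa [Real.log_exp] at this
  have hHH : H0 ≤ HH X := by
    unfold HH
    apply Nat.le_floor
    linarith
  set H := HH X with hH
  have hH0r : (H0 : ℝ) ≤ H := by exact_mod_cast hHH
  have m1 : (2 : ℝ) ≤ H0 := (le_max_left _ _).trans hH0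
  have m2 : 4 / s ≤ H0 := (le_max_left _ _).trans ((le_max_right _ _).trans hH0)
  have m3 : Real.exp (2 * C1 * (8 * A) / s) ≤ H0 :=
    (le_max_right _ _).trans ((le_max_right _ _).trans hH0)
  have hH2 : 2 ≤ H := by
    have : (2 : ℝ) ≤ H := m1.trans hH0r
    exact_mod_cast this
  have hHr : (2 : ℝ) ≤ H := by exact_mod_cast hH2
  have hllup : Real.log (Real.log X) ≤ 4 * ((H : ℝ) + 1) := by
    have := Nat.lt_floor_add_one (Real.log (Real.log X) / 4)
    have h2 : ((⌊Real.log (Real.log X) / 4⌋₊ : ℕ) : ℝ) = H := rfl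
    rw [h2] at this
    linarith
  have hA0 : (0 : ℝ) ≤ A := Nat.cast_nonneg _
  have hLY : Real.log (Real.log X ^ A) ≤ A * (4 * ((H : ℝ) + 1)) := by
    rw [Real.log_pow]
    exact mul_le_mul_of_nonneg_left hllup hA0
  have h1 := main H k hH2 P U (Real.log X ^ A) o hP hU hUa ho (A * (4 * ((H : ℝ) + 1))) hLY
    (by positivity)
  refine h1.trans ?_
  have hlog : 0 < Real.log ((H : ℝ) + 1) := Real.log_pos (by linarith)
  have h2 : 2 / (H : ℝ) ≤ s / 2 := by
    rw [div_le_iff₀ (by linarith)]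
    have h3 : 4 / s ≤ H := m2.trans hH0r
    rw [div_le_iff₀ hs] at h3
    linarith
  have h3 : (A * (4 * ((H : ℝ) + 1))) / Real.log ((H : ℝ) + 1) / H ≤
      (8 * A) / Real.log ((H : ℝ) + 1) := by
    rw [div_right_comm]
    refine div_le_div_of_nonneg_right ?_ hlog.le
    rw [div_le_iff₀ (by linarith)]
    nlinarith
  have h4 : 2 * C1 * (8 * A) / s ≤ Real.log ((H : ℝ) + 1) := by
    rw [Real.le_log_iff_exp_le (by linarith)]
    linarith
  have h5 : C1 * ((8 * A) / Real.log ((H : ℝ) + 1)) ≤ s / 2 := by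
    rw [← mul_div_assoc, div_le_iff₀ hlog]
    rw [div_le_iff₀ hs] at h4
    linarith
  have h6 := mul_le_mul_of_nonneg_left h3 hC10
  linarith

end Pool.Agent.R502.WD
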