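import Pool.Agent.R502.WD.Fin1

/-!
Windows of primes above `√N`: one short interval, the transfer of the windows, and the number of
short intervals above which there are too many primes.
-/

set_option autoImplicit false

open Finset Filter Topology

namespace Pool.Agent.R502.WD

open Pool.Agent.R526.AA

/-- the primes of the block number `i` above `s` -/
def Bl (s H i : ℕ) : Finset ℕ := (Ioc (s + i * H) (s + (i + 1) * H)).filter Nat.Prime

theorem mem_Bl {s H i p : ℕ} :
    p ∈ Bl s H i ↔ (s + i * H < p ∧ p ≤ s + (i + 1) * H) ∧ p.Prime := by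
  unfold Bl
  rw [mem_filter, mem_Ioc]

theorem Bl_disj {s H i j : ℕ} (hij : i ≠ j) : Disjoint (Bl s H i) (Bl s H j) := by
  rw [disjoint_left]
  intro p hp hq
  rw [mem_Bl] at hp hq
  rcases Nat.lt_or_gt_of_ne hij with h | h
  · have : (i + 1) * H ≤ j * H := Nat.mul_le_mul_right _ h
    omega
  · have : (j + 1) * H ≤ i * H := Nat.mul_le_mul_right _ h
    omega

theorem Bl_union (s H K : ℕ) : (range K).biUnion (Bl s H) ⊆
    (Ioc s (s + K * H)).filter Nat.Prime := by
  intro p hp
  rw [mem_biUnion] at hp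
  obtain ⟨i, hi, hp⟩ := hp
  rw [mem_range] at hi
  rw [mem_Bl] at hp
  rw [mem_filter, mem_Ioc]
  have : (i + 1) * H ≤ K * H := Nat.mul_le_mul_right _ hi
  exact ⟨⟨by omega, by omega⟩, hp.2⟩

theorem sum_Bl (s H K : ℕ) :
    ∑ i ∈ range K, (Bl s H i).card ≤ ((Ioc s (s + K * H)).filter Nat.Prime).card := by
  rw [← card_biUnion (fun i _ j _ hij => Bl_disj hij)]
  exact card_le_card (Bl_union s H K)

open Classical in
/-- one short interval -/
theorem interval (lam ε : ℝ) (hlam : 0 < lam) (hε : 0 < ε) : ∃ c : ℝ, 0 < c ∧ ∃ K₀ : ℕ,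
    ∀ K : ℕ, K₀ ≤ K → ∃ M₀ : ℕ, ∀ M : ℕ, M₀ ≤ M → ∀ x s H : ℕ,
    (x : ℝ) ≤ (M : ℝ) ^ (5 / 2 : ℝ) → s + K * H + 1 + M ≤ x →
    ((K * H + 1 : ℕ) : ℝ) ≤ Real.log M ^ 3 →
    (((Ioc s (s + K * H)).filter Nat.Prime).card : ℝ) ≤ lam * K * Real.log M →
    (((Ico x (x + M)).filter (fun N => (((range K).filter
      (fun i : ℕ => ∀ p ∈ Bl s H i, ¬ (N - p).Prime)).card : ℝ) < c * K)).card : ℝ) ≤ ε * M := by
  obtain ⟨c, hc, K₀, h⟩ := blocks lam ε 3 hlam hε (by norm_num)
  refine ⟨c, hc, K₀, fun K hK => ?_⟩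
  obtain ⟨X1, hX1⟩ := h K hK 2
  refine ⟨X1 + 16, fun M hM x s H hx hxs hKH hcard => ?_⟩
  have hM16 : (16 : ℝ) ≤ M := by exact_mod_cast (by omega : 16 ≤ M)
  obtain ⟨e, he⟩ : ∃ e : ℕ, e = s + K * H + 1 := ⟨_, rfl⟩
  have hPc : ∀ i < K, ∀ p ∈ Bl s H i, p < e := by
    intro i hi p hp
    rw [mem_Bl] at hp
    have : (i + 1) * H ≤ K * H := Nat.mul_le_mul_right _ hi
    omega
  have h1 := hX1 M (by omega) (x - e) (by
    have e1 : ((x - e : ℕ) : ℝ) ≤ x := by exact_mod_cast Nat.sub_le _ _
    have e2 : (M : ℝ) ^ (3 : ℝ) = (M : ℝ) ^ (5 / 2 : ℝ) * (M : ℝ) ^ (1 / 2 : ℝ) := by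
      rw [← Real.rpow_add (by linarith)]
      norm_num
    have e3 : (4 : ℝ) ≤ (M : ℝ) ^ (1 / 2 : ℝ) := by
      rw [← Real.sqrt_eq_rpow]
      apply Real.le_sqrt_of_sq_le
      norm_num
      exact_mod_cast hM16
    have e4 : (M : ℝ) ≤ (M : ℝ) ^ (5 / 2 : ℝ) := by
      calc (M : ℝ) = (M : ℝ) ^ (1 : ℝ) := (Real.rpow_one _).symm
        _ ≤ _ := Real.rpow_le_rpow_of_exponent_le (by linarith) (by norm_num)
    rw [e2]
    nlinarith) (fun i => (Bl s H i).image (fun p => e - p)) (by
      intro i hi a ha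
      rw [mem_image] at ha
      obtain ⟨p, hp, rfl⟩ := ha
      have h2 := hPc i hi p hp
      refine ⟨by omega, ?_⟩
      rw [mem_Bl] at hp
      have e1 : ((e - p : ℕ) : ℝ) ≤ ((K * H + 1 : ℕ) : ℝ) := by
        exact_mod_cast (by omega : e - p ≤ K * H + 1)
      exact e1.trans hKH) (by
      intro i hi j hj hij
      rw [disjoint_left]
      intro a ha hb
      rw [mem_image] at ha hb
      obtain ⟨p, hp, rfl⟩ := ha
      obtain ⟨q, hq, hpq⟩ := hb
      have e1 := hPc i hi p hp
      have e2 := hPc j hj q hq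
      have e3 : q = p := by omega
      subst e3
      exact (disjoint_left.1 (Bl_disj hij)) hp hq) (by
      calc ∑ i ∈ range K, (((Bl s H i).image (fun p => e - p)).card : ℝ) ≤
          ∑ i ∈ range K, ((Bl s H i).card : ℝ) :=
            sum_le_sum fun i _ => by exact_mod_cast card_image_le
        _ ≤ (((Ioc s (s + K * H)).filter Nat.Prime).card : ℝ) := by
            exact_mod_cast sum_Bl s H K
        _ ≤ _ := hcard)
  refine le_trans ?_ h1
  apply Nat.cast_le.2
  apply card_le_card_of_injOn (fun N => N - e)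
  · intro N hN
    rw [mem_coe, mem_filter, mem_Ico] at hN
    rw [mem_coe, mem_filter, mem_Ico]
    change (x - e ≤ N - e ∧ N - e < x - e + M) ∧ (((range K).filter
      (fun i => Co M (N - e) ((Bl s H i).image (fun p => e - p)))).card : ℝ) < c * K
    refine ⟨⟨by omega, by omega⟩, lt_of_le_of_lt ?_ hN.2⟩
    apply Nat.cast_le.2
    apply card_le_card
    intro i hi
    rw [mem_filter] at hi ⊢
    refine ⟨hi.1, ?_⟩
    exact comp_of_Co (c := e) (n := N - e) (by omega) (by omega)
      (hPc i (mem_range.1 hi.1)) hi.2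
  · intro a ha b hb hab
    rw [mem_coe, mem_filter, mem_Ico] at ha hb
    have : a - e = b - e := hab
    omega

open Classical in
/-- the windows `(√N + i w, √N + (i + 1) w]` -/
theorem transfer (N s H K K₁ : ℕ) (w : ℝ) (hw : 0 < w) (hs : (s : ℝ) ≤ Real.sqrt N)
    (hs2 : Real.sqrt N < s + 2) (hH : 2 * w + 2 ≤ H) (hK : (K₁ : ℝ) * H ≤ K * w) :
    ((range K₁).filter (fun i : ℕ => ∀ p ∈ Bl s H i, ¬ (N - p).Prime)).card ≤
      ((range K).filter (fun i : ℕ => ∀ p q : ℕ, p.Prime → q.Prime → N = p + q →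
        ¬ (Real.sqrt N + i * w < p ∧ (p : ℝ) ≤ Real.sqrt N + (i + 1) * w))).card := by
  obtain ⟨f, hf⟩ : ∃ f : ℕ → ℕ, f = fun i : ℕ => ⌈((s : ℝ) + i * H - Real.sqrt N) / w⌉₊ := ⟨_, rfl⟩
  have hlow : ∀ i, (s : ℝ) + i * H ≤ Real.sqrt N + f i * w := by
    intro i
    have h1 : ((s : ℝ) + i * H - Real.sqrt N) / w ≤ f i := by
      rw [hf]
      exact Nat.le_ceil _
    rw [div_le_iff₀ hw] at h1
    linarith
  have hup : ∀ i : ℕ, Real.sqrt N + (f i + 1) * w ≤ (s : ℝ) + (i + 1) * H := by
    intro i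
    have h0 : (0 : ℝ) ≤ i * H := by positivity
    by_cases h : (s : ℝ) + i * H - Real.sqrt N ≤ 0
    · have h1 : f i = 0 := by
        rw [hf]
        exact Nat.ceil_eq_zero.2 (div_nonpos_of_nonpos_of_nonneg h hw.le)
      rw [h1]
      push_cast
      linarith
    · rw [not_le] at h
      have h1 : (f i : ℝ) < ((s : ℝ) + i * H - Real.sqrt N) / w + 1 := by
        rw [hf]
        exact Nat.ceil_lt_add_one (div_nonneg h.le hw.le)
      have h2 : (f i : ℝ) * w ≤ ((s : ℝ) + i * H - Real.sqrt N) + w := by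
        have := mul_le_mul_of_nonneg_right h1.le hw.le
        rwa [add_mul, div_mul_cancel₀ _ hw.ne', one_mul] at this
      linarith
  apply card_le_card_of_injOn f
  · intro i hi
    rw [mem_coe, mem_filter, mem_range] at hi
    rw [mem_coe, mem_filter, mem_range]
    constructor
    · have h1 := hup i
      have h2 : ((i : ℝ) + 1) * H ≤ K₁ * H := by
        apply mul_le_mul_of_nonneg_right _ (Nat.cast_nonneg _)
        exact_mod_cast hi.1
      have h3 : ((f i : ℝ) + 1) * w ≤ K * w := by linarith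
      have h4 := le_of_mul_le_mul_right h3 hw
      have h5 : f i + 1 ≤ K := by exact_mod_cast h4
      omega
    · intro p q hp hq hN hpw
      apply hi.2 p
      · rw [mem_Bl]
        refine ⟨⟨?_, ?_⟩, hp⟩
        · have h1 : ((s + i * H : ℕ) : ℝ) < p := by
            push_cast
            linarith [hlow i, hpw.1]
          exact_mod_cast h1
        · have h1 : (p : ℝ) ≤ ((s + (i + 1) * H : ℕ) : ℝ) := by
            push_cast
            linarith [hup i, hpw.2]
          exact_mod_cast h1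
      · rw [hN, Nat.add_sub_cancel_left]
        exact hq
  · intro i _ j _ hij
    rcases Nat.lt_trichotomy i j with h | h | h
    · exfalso
      have h1 := hup i
      have h2 := hlow j
      have h3 : ((i : ℝ) + 1) * H ≤ j * H := by
        apply mul_le_mul_of_nonneg_right _ (Nat.cast_nonneg _)
        exact_mod_cast h
      rw [hij] at h1
      nlinarith
    · exact h
    · exfalso
      have h1 := hup j
      have h2 := hlow i
      have h3 : ((j : ℝ) + 1) * H ≤ i * H := by
        apply mul_le_mul_of_nonneg_right _ (Nat.cast_nonneg _)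
        exact_mod_cast h
      rw [hij] at h2
      nlinarith

/-- the number of indices `j` with `√(a + j M)` in a short interval -/
theorem card_j (a M J T S p : ℕ) (hS : ∀ j < J, Nat.sqrt (a + j * M) ≤ S)
    (hSM : 2 * S + 2 ≤ 5 * M) :
    ((range J).filter (fun j => Nat.sqrt (a + j * M) < p ∧
      p ≤ Nat.sqrt (a + j * M) + T)).card ≤ 5 * T := by
  by_cases hne : ((range J).filter (fun j => Nat.sqrt (a + j * M) < p ∧
      p ≤ Nat.sqrt (a + j * M) + T)).Nonempty
  · obtain ⟨j0, hj0, hmin⟩ := exists_min_image _ id hne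
    rw [mem_filter, mem_range] at hj0
    have hsub : ((range J).filter (fun j => Nat.sqrt (a + j * M) < p ∧
        p ≤ Nat.sqrt (a + j * M) + T)) ⊆ Ico j0 (j0 + 5 * T) := by
      intro j hj
      have h1 := hmin j hj
      simp only [id] at h1
      rw [mem_filter, mem_range] at hj
      rw [mem_Ico]
      refine ⟨h1, ?_⟩
      by_contra hge
      rw [not_lt] at hge
      set u := Nat.sqrt (a + j0 * M) with hu
      set v := Nat.sqrt (a + j * M) with hv
      have h2 : u * u ≤ a + j0 * M := Nat.sqrt_le _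
      have h3 : a + j * M < (v + 1) * (v + 1) := Nat.lt_succ_sqrt _
      have h4 : v + 1 ≤ u + T := by omega
      have h5 : v ≤ S := hS j hj.1
      have h6 : (j0 + 5 * T) * M ≤ j * M := Nat.mul_le_mul_right _ hge
      have h7 : (v + 1) * (v + 1) ≤ u * u + T * (2 * v + 2) := by
        obtain ⟨t, ht⟩ : ∃ t, v + 1 = u + t ∨ v + 1 + t = u := by
          rcases Nat.le_total u (v + 1) with h | h
          · exact ⟨v + 1 - u, Or.inl (by omega)⟩
          · exact ⟨u - (v + 1), Or.inr (by omega)⟩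
        rcases ht with ht | ht
        · have e1 : t ≤ T := by omega
          have e2 : u + (v + 1) ≤ 2 * v + 2 := by omega
          calc (v + 1) * (v + 1) = u * u + t * (u + (v + 1)) := by
                rw [ht]; ring
            _ ≤ u * u + T * (2 * v + 2) := by
                apply Nat.add_le_add_left
                exact Nat.mul_le_mul e1 e2
        · have : (v + 1) * (v + 1) ≤ u * u := Nat.mul_le_mul (by omega) (by omega)
          omega
      have h8 : T * (2 * v + 2) ≤ T * (5 * M) := Nat.mul_le_mul_left _ (by omega)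
      have h10 : (j0 + 5 * T) * M = j0 * M + T * (5 * M) := by ring
      omega
    calc _ ≤ (Ico j0 (j0 + 5 * T)).card := card_le_card hsub
      _ = 5 * T := by rw [Nat.card_Ico]; omega
  · rw [not_nonempty_iff_eq_empty.1 hne]
    simp

end Pool.Agent.R502.WD
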