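import Pool.Agent.R502.WD.Cls
import Pool.Agent.R502.TW.Final

/-!
Translates of arbitrary sparse sets without rough numbers: the two main theorems.
-/

set_option autoImplicit false

open Finset Filter Topology

namespace Pool.Agent.R502.WD

open Pool.Agent.H361R2.PP
open Pool.Agent.R526.AA
open Pool.Agent.R502.AQ
open Pool.Agent.H862R2.PPSm5
open Pool.Agent.H20R2.EQI

/-- the fibres of the classes -/
theorem card_fib (x X : ℕ) (Q : ℕ → Prop) [DecidablePred Q] :
    ((Ico x (x + X)).filter Q).card =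
      ∑ b ∈ range (Wm X), (((Ico x (x + X)).filter (fun n => n % Wm X = b)).filter Q).card := by
  rw [card_eq_sum_card_fiberwise (f := fun n => n % Wm X) (t := range (Wm X))]
  · refine sum_congr rfl fun b _ => ?_
    congr 1
    ext n
    simp only [mem_filter]
    tauto
  · intro n _
    simp only [coe_range, Set.mem_Iio]
    exact Nat.mod_lt _ (Wm_pos X)

open Classical in
/-- few classes contain many positions of a sparse set -/
theorem bad_classes (X : ℕ) (P : Finset ℕ) (T : ℝ) :
    (((range (Wm X)).filter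
      (fun b => T < ((P.filter (fun a => (b + a).Coprime (Wm X))).card : ℝ))).card : ℝ) * T ≤
      P.card * Nat.totient (Wm X) := by
  calc (((range (Wm X)).filter
      (fun b => T < ((P.filter (fun a => (b + a).Coprime (Wm X))).card : ℝ))).card : ℝ) * T
      = ∑ b ∈ (range (Wm X)).filter
          (fun b => T < ((P.filter (fun a => (b + a).Coprime (Wm X))).card : ℝ)), T := by
        rw [sum_const, nsmul_eq_mul]
    _ ≤ ∑ b ∈ (range (Wm X)).filter
          (fun b => T < ((P.filter (fun a => (b + a).Coprime (Wm X))).card : ℝ)),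
          ((P.filter (fun a => (b + a).Coprime (Wm X))).card : ℝ) :=
        sum_le_sum fun b hb => (mem_filter.1 hb).2.le
    _ ≤ ∑ b ∈ range (Wm X), ((P.filter (fun a => (b + a).Coprime (Wm X))).card : ℝ) :=
        sum_le_sum_of_subset_of_nonneg (filter_subset _ _) (fun _ _ _ => Nat.cast_nonneg _)
    _ = P.card * Nat.totient (Wm X) := by
        have := sum_cop X P
        exact_mod_cast this

open Classical in
/-- **a single sparse set**: for a proportion of the integers `n` of given parity in an interval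
all the `n + a`, `a ∈ P`, have a prime factor at most `X` -/
theorem one (lam Dx : ℝ) (hlam : 0 < lam) (hDx : 0 ≤ Dx) :
    ∃ δ : ℝ, 0 < δ ∧ ∀ A : ℕ, ∃ X₀ : ℕ, ∀ X : ℕ, X₀ ≤ X → ∀ x : ℕ,
      (x : ℝ) + 2 * X ≤ (X : ℝ) ^ Dx → ∀ e < 2, ∀ P : Finset ℕ,
      (P.card : ℝ) ≤ lam * Real.log X →
      (∀ a ∈ P, 1 ≤ a ∧ (a : ℝ) ≤ Real.log X ^ (A + 1)) →
      δ * X ≤ (((Ico x (x + X)).filter (fun n => n % 2 = e ∧ Co X n P)).card : ℝ) := by
  obtain ⟨C, hC, h⟩ := cls (4 * lam) 1 Dx (by linarith) one_pos le_rfl hDx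
  refine ⟨(1 - 1 / 4) ^ 2 / (1 + 1 / 8 + C / (1 : ℕ)) / 4, by positivity, fun A => ?_⟩
  obtain ⟨X1, hX1⟩ := h 1 one_pos A
  obtain ⟨X2, hX2⟩ := Filter.eventually_atTop.1 (HH_tendsto.eventually_ge_atTop 2)
  refine ⟨X1 + X2 + 16, fun X hX x hx e he P hP hPa => ?_⟩
  obtain ⟨η, hη⟩ : ∃ η : ℝ, η = (1 - 1 / 4) ^ 2 / (1 + 1 / 8 + C / (1 : ℕ)) := ⟨_, rfl⟩
  rw [← hη]
  have hη0 : 0 < η := by rw [hη]; positivity
  have hW := Wm_pos X
  have hWr : (0 : ℝ) < Wm X := by exact_mod_cast hW
  have hφ : (0 : ℝ) < Nat.totient (Wm X) := by exact_mod_cast Nat.totient_pos.2 hW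
  have hX16 : (16 : ℝ) ≤ X := by exact_mod_cast (by omega : 16 ≤ X)
  have hXr : (0 : ℝ) < X := by linarith
  have hL : 0 < Real.log X := Real.log_pos (by linarith)
  have h2W : 2 ∣ Wm X := by
    unfold Wm primorial
    apply dvd_prod_of_mem (fun p => p)
    rw [mem_filter, mem_range]
    have := hX2 X (by omega)
    exact ⟨by omega, Nat.prime_two⟩
  obtain ⟨w, hw⟩ := h2W
  obtain ⟨T, hT⟩ : ∃ T : ℝ, T = 4 * lam * (Real.log X * (Nat.totient (Wm X) / Wm X)) := ⟨_, rfl⟩
  have hT0 : 0 < T := by rw [hT]; positivity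
  -- the good classes
  set G := (range (Wm X)).filter (fun b => b % 2 = e ∧
    ((P.filter (fun a => (b + a).Coprime (Wm X))).card : ℝ) ≤ T) with hG
  have hGcard : (Wm X : ℝ) / 4 ≤ G.card := by
    have h1 : w ≤ ((range (Wm X)).filter (fun b => b % 2 = e)).card := by
      calc w = ((range w).image (fun b => 2 * b + e)).card := by
            rw [card_image_of_injective _ (fun a b hab => by
              have hab' : 2 * a + e = 2 * b + e := hab
              omega), card_range]
        _ ≤ _ := by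
            apply card_le_card
            intro b hb
            rw [mem_image] at hb
            obtain ⟨c, hc, rfl⟩ := hb
            rw [mem_range] at hc
            rw [mem_filter, mem_range, hw]
            constructor
            · omega
            · omega
    have h2 : ((range (Wm X)).filter (fun b => b % 2 = e)) ⊆ G ∪ (range (Wm X)).filter
        (fun b => T < ((P.filter (fun a => (b + a).Coprime (Wm X))).card : ℝ)) := by
      intro b hb
      rw [mem_filter] at hb
      rw [mem_union, hG, mem_filter, mem_filter]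
      by_cases hc : ((P.filter (fun a => (b + a).Coprime (Wm X))).card : ℝ) ≤ T
      · exact Or.inl ⟨hb.1, hb.2, hc⟩
      · exact Or.inr ⟨hb.1, not_le.1 hc⟩
    have h3 := (card_le_card h2).trans (card_union_le _ _)
    have h4 : (w : ℝ) ≤ G.card + (((range (Wm X)).filter
        (fun b => T < ((P.filter (fun a => (b + a).Coprime (Wm X))).card : ℝ))).card : ℝ) := by
      exact_mod_cast h1.trans h3
    have h5 := bad_classes X P T
    have h6 : (((range (Wm X)).filter
        (fun b => T < ((P.filter (fun a => (b + a).Coprime (Wm X))).card : ℝ))).card : ℝ) ≤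
        (Wm X : ℝ) / 4 := by
      have h7 : (P.card : ℝ) * Nat.totient (Wm X) ≤ (Wm X : ℝ) / 4 * T := by
        rw [hT]
        have : (Wm X : ℝ) / 4 * (4 * lam * (Real.log X * (Nat.totient (Wm X) / Wm X))) =
            lam * Real.log X * Nat.totient (Wm X) := by
          field_simp
        rw [this]
        exact mul_le_mul_of_nonneg_right hP hφ.le
      exact le_of_mul_le_mul_right (h5.trans h7) hT0
    have h8 : (Wm X : ℝ) = 2 * w := by rw [hw]; push_cast; ring
    linarith
  have hcls : ∀ b ∈ G, η * ((X : ℝ) / Wm X) ≤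
      ((((Ico x (x + X)).filter (fun n => n % Wm X = b)).filter
        (fun n => n % 2 = e ∧ Co X n P)).card : ℝ) := by
    intro b hb
    rw [hG, mem_filter, mem_range] at hb
    have h1 := hX1 X (by omega) x hx b hb.1 (fun _ => P) (fun _ => hPa)
      (fun i j hij => absurd (Subsingleton.elim i j) hij) (fun _ => by
        rw [← hT]
        exact hb.2.2)
    rw [← hη] at h1
    refine h1.trans ?_
    apply Nat.cast_le.2
    apply card_le_card
    intro n hn
    rw [mem_filter] at hn ⊢
    obtain ⟨i, hi⟩ := hn.2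
    refine ⟨hn.1, ?_, hi⟩
    have h2 := (mem_filter.1 hn.1).2
    rw [← hb.2.1, ← h2, hw, Nat.mod_mul_right_mod]
  rw [card_fib x X (fun n => n % 2 = e ∧ Co X n P)]
  push_cast
  calc η / 4 * X = (Wm X : ℝ) / 4 * (η * ((X : ℝ) / Wm X)) := by field_simp
    _ ≤ G.card * (η * ((X : ℝ) / Wm X)) := mul_le_mul_of_nonneg_right hGcard (by positivity)
    _ = ∑ b ∈ G, η * ((X : ℝ) / Wm X) := by rw [sum_const, nsmul_eq_mul]
    _ ≤ ∑ b ∈ G, ((((Ico x (x + X)).filter (fun n => n % Wm X = b)).filter
        (fun n => n % 2 = e ∧ Co X n P)).card : ℝ) := sum_le_sum hcls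
    _ ≤ _ := sum_le_sum_of_subset_of_nonneg (filter_subset _ _) (fun _ _ _ => Nat.cast_nonneg _)

open Classical in
/-- **several sparse sets**: for almost all the integers `n` of an interval one of `2 k` sets is
good, if the sets are sparse on average -/
theorem many (κ ε Dx : ℝ) (hκ : 0 < κ) (hε : 0 < ε) (hε1 : ε ≤ 1) (hDx : 0 ≤ Dx) :
    ∃ k : ℕ, 0 < k ∧ ∀ A : ℕ, ∃ X₀ : ℕ, ∀ X : ℕ, X₀ ≤ X → ∀ x : ℕ,
      (x : ℝ) + 2 * X ≤ (X : ℝ) ^ Dx → ∀ B : ℕ → Finset ℕ,
      (∀ i < 2 * k, ∀ a ∈ B i, 1 ≤ a ∧ (a : ℝ) ≤ Real.log X ^ (A + 1)) →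
      (∀ i < 2 * k, ∀ j < 2 * k, i ≠ j → Disjoint (B i) (B j)) →
      (((Ico x (x + X)).filter (fun n => ¬ ∃ i < 2 * k, Co X n (B i))).card : ℝ) ≤
        (2 * ε + 2 * (∑ i ∈ range (2 * k), ((B i).card : ℝ)) / (k * κ * Real.log X)) * X := by
  obtain ⟨C, hC, h⟩ := cls κ ε Dx hκ hε hε1 hDx
  obtain ⟨k, hk⟩ := exists_nat_ge (8 * C / ε + 1)
  have hk0 : 0 < k := by
    have h1 : 0 < 8 * C / ε := by positivity
    have h2 : (0 : ℝ) < k := by linarith
    exact_mod_cast h2
  have hkr : (0 : ℝ) < k := by exact_mod_cast hk0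
  refine ⟨k, hk0, fun A => ?_⟩
  obtain ⟨X1, hX1⟩ := h k hk0 A
  have hev : ∀ᶠ X : ℕ in atTop, Real.log X ≤ ε * X ∧ Real.log X ≤ X := by
    have e0 := (Real.isLittleO_log_id_atTop).def hε
    have e1 := (Real.isLittleO_log_id_atTop).def one_pos
    filter_upwards [tendsto_natCast_atTop_atTop.eventually e0,
      tendsto_natCast_atTop_atTop.eventually e1, eventually_ge_atTop 1] with X h1 h2 h3
    have h3' : (1 : ℝ) ≤ X := by exact_mod_cast h3
    have h4 := Real.log_nonneg h3'
    simp only [id, Real.norm_eq_abs] at h1 h2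
    rw [abs_of_nonneg h4, abs_of_nonneg (by linarith)] at h1 h2
    exact ⟨h1, by linarith⟩
  obtain ⟨X2, hX2⟩ := Filter.eventually_atTop.1 hev
  refine ⟨X1 + X2 + 16, fun X hX x hx B hBa hBd => ?_⟩
  obtain ⟨hl1, hl2⟩ := hX2 X (by omega)
  have hW := Wm_pos X
  have hWr : (0 : ℝ) < Wm X := by exact_mod_cast hW
  have hφ : (0 : ℝ) < Nat.totient (Wm X) := by exact_mod_cast Nat.totient_pos.2 hW
  have hX16 : (16 : ℝ) ≤ X := by exact_mod_cast (by omega : 16 ≤ X)
  have hXr : (0 : ℝ) < X := by linarith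
  have hL : 0 < Real.log X := Real.log_pos (by linarith)
  have hWL : (Wm X : ℝ) ≤ Real.log X := W_le X (by omega)
  obtain ⟨M, hM⟩ : ∃ M : ℝ, M = ∑ i ∈ range (2 * k), ((B i).card : ℝ) := ⟨_, rfl⟩
  rw [← hM]
  have hM0 : 0 ≤ M := by rw [hM]; exact sum_nonneg fun _ _ => Nat.cast_nonneg _
  obtain ⟨T, hT⟩ : ∃ T : ℝ, T = κ * (Real.log X * (Nat.totient (Wm X) / Wm X)) := ⟨_, rfl⟩
  have hT0 : 0 < T := by rw [hT]; positivity
  have hηε : 1 - ε ≤ (1 - ε / 4) ^ 2 / (1 + ε / 8 + C / k) := by
    apply eps_ineq hε hε1 (by positivity) le_rfl (by positivity)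
    rw [div_le_iff₀ hkr]
    have h1 : 8 * C / ε ≤ k := by linarith
    rw [div_le_iff₀ hε] at h1
    linarith
  -- the good classes
  set I : ℕ → Finset (Fin (2 * k)) := fun b => univ.filter
    (fun i => (((B i).filter (fun a => (b + a).Coprime (Wm X))).card : ℝ) ≤ T) with hI
  set G := (range (Wm X)).filter (fun b => k ≤ (I b).card) with hG
  set Z := (range (Wm X)).filter (fun b => ¬ k ≤ (I b).card) with hZ
  have hgood : ∀ b ∈ G, ((((Ico x (x + X)).filter (fun n => n % Wm X = b)).filter
      (fun n => ¬ ∃ i < 2 * k, Co X n (B i))).card : ℝ) ≤ ε * ((X : ℝ) / Wm X) + 1 := by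
    intro b hb
    rw [hG, mem_filter, mem_range] at hb
    obtain ⟨t, ht, htc⟩ := exists_subset_card_eq hb.2
    set f := t.orderEmbOfFin htc with hf
    have hfm : ∀ i, f i ∈ I b := fun i => ht (orderEmbOfFin_mem t htc i)
    have h1 := hX1 X (by omega) x hx b hb.1 (fun i => B (f i))
      (fun i => hBa _ (f i).2)
      (fun i j hij => hBd _ (f i).2 _ (f j).2 (fun h => hij (f.injective (Fin.ext h))))
      (fun i => by
        have := (mem_filter.1 (hfm i)).2
        rw [← hT]
        exact this)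
    have h2 := card_class x X b
    have h3 := card_filter_add_card_filter_not
      (s := (Ico x (x + X)).filter (fun n => n % Wm X = b)) (fun n => ∃ i < 2 * k, Co X n (B i))
    have h4 : ((((Ico x (x + X)).filter (fun n => n % Wm X = b)).filter
        (fun n => ∃ i < 2 * k, Co X n (B i))).card : ℝ) +
        ((((Ico x (x + X)).filter (fun n => n % Wm X = b)).filter
        (fun n => ¬ ∃ i < 2 * k, Co X n (B i))).card : ℝ) =
        (((Ico x (x + X)).filter (fun n => n % Wm X = b)).card : ℝ) := by exact_mod_cast h3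
    have h5 : ((((Ico x (x + X)).filter (fun n => n % Wm X = b)).filter
        (fun n => ∃ i, Co X n (B (f i)))).card : ℝ) ≤
        ((((Ico x (x + X)).filter (fun n => n % Wm X = b)).filter
        (fun n => ∃ i < 2 * k, Co X n (B i))).card : ℝ) := by
      apply Nat.cast_le.2
      apply card_le_card
      intro n hn
      rw [mem_filter] at hn ⊢
      obtain ⟨i, hi⟩ := hn.2
      exact ⟨hn.1, f i, (f i).2, hi⟩
    have h6 : (1 - ε) * ((X : ℝ) / Wm X) ≤
        (1 - ε / 4) ^ 2 / (1 + ε / 8 + C / k) * ((X : ℝ) / Wm X) :=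
      mul_le_mul_of_nonneg_right hηε (by positivity)
    linarith
  have hZcard : (Z.card : ℝ) ≤ M * Wm X / (k * κ * Real.log X) := by
    have h1 : ∀ b ∈ Z, (k : ℝ) * T ≤
        ∑ i : Fin (2 * k), (((B i).filter (fun a => (b + a).Coprime (Wm X))).card : ℝ) := by
      intro b hb
      rw [hZ, mem_filter, not_le] at hb
      have h2 := card_filter_add_card_filter_not (s := (univ : Finset (Fin (2 * k))))
        (fun i => (((B i).filter (fun a => (b + a).Coprime (Wm X))).card : ℝ) ≤ T)
      rw [card_univ, Fintype.card_fin] at h2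
      change (I b).card + _ = _ at h2
      have h3 : k ≤ (univ.filter (fun i : Fin (2 * k) =>
          ¬ (((B i).filter (fun a => (b + a).Coprime (Wm X))).card : ℝ) ≤ T)).card := by
        have := hb.2
        omega
      calc (k : ℝ) * T ≤ ((univ.filter (fun i : Fin (2 * k) =>
            ¬ (((B i).filter (fun a => (b + a).Coprime (Wm X))).card : ℝ) ≤ T)).card : ℝ) * T :=
            mul_le_mul_of_nonneg_right (by exact_mod_cast h3) hT0.le
        _ = ∑ i ∈ univ.filter (fun i : Fin (2 * k) =>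
            ¬ (((B i).filter (fun a => (b + a).Coprime (Wm X))).card : ℝ) ≤ T), T := by
            rw [sum_const, nsmul_eq_mul]
        _ ≤ ∑ i ∈ univ.filter (fun i : Fin (2 * k) =>
            ¬ (((B i).filter (fun a => (b + a).Coprime (Wm X))).card : ℝ) ≤ T),
            (((B i).filter (fun a => (b + a).Coprime (Wm X))).card : ℝ) :=
            sum_le_sum fun i hi => (not_le.1 (mem_filter.1 hi).2).le
        _ ≤ _ := sum_le_sum_of_subset_of_nonneg (filter_subset _ _)
            (fun _ _ _ => Nat.cast_nonneg _)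
    have h2 : (Z.card : ℝ) * (k * T) ≤ M * Nat.totient (Wm X) := by
      calc (Z.card : ℝ) * (k * T) = ∑ b ∈ Z, (k : ℝ) * T := by rw [sum_const, nsmul_eq_mul]
        _ ≤ ∑ b ∈ Z, ∑ i : Fin (2 * k),
            (((B i).filter (fun a => (b + a).Coprime (Wm X))).card : ℝ) := sum_le_sum h1
        _ ≤ ∑ b ∈ range (Wm X), ∑ i : Fin (2 * k),
            (((B i).filter (fun a => (b + a).Coprime (Wm X))).card : ℝ) :=
            sum_le_sum_of_subset_of_nonneg (filter_subset _ _)
              (fun _ _ _ => sum_nonneg fun _ _ => Nat.cast_nonneg _)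
        _ = ∑ i : Fin (2 * k), ((B i).card : ℝ) * Nat.totient (Wm X) := by
            rw [sum_comm]
            refine sum_congr rfl fun i _ => ?_
            have := sum_cop X (B i)
            exact_mod_cast this
        _ = M * Nat.totient (Wm X) := by
            rw [← sum_mul, hM]
            congr 1
            exact Fin.sum_univ_eq_sum_range (fun i => ((B i).card : ℝ)) (2 * k)
    rw [le_div_iff₀ (by positivity)]
    have h3 : (Z.card : ℝ) * (k * κ * Real.log X) * ((Nat.totient (Wm X) : ℝ) / Wm X) ≤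
        M * Wm X * ((Nat.totient (Wm X) : ℝ) / Wm X) := by
      have e1 : M * Wm X * ((Nat.totient (Wm X) : ℝ) / Wm X) = M * Nat.totient (Wm X) := by
        field_simp
      have e2 : (Z.card : ℝ) * (k * κ * Real.log X) * ((Nat.totient (Wm X) : ℝ) / Wm X) =
          Z.card * (k * T) := by
        rw [hT]; ring
      rw [e1, e2]
      exact h2
    exact le_of_mul_le_mul_right h3 (by positivity)
  have hbad : ∀ b ∈ Z, ((((Ico x (x + X)).filter (fun n => n % Wm X = b)).filter
      (fun n => ¬ ∃ i < 2 * k, Co X n (B i))).card : ℝ) ≤ 2 * ((X : ℝ) / Wm X) := by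
    intro b _
    have h1 : ((((Ico x (x + X)).filter (fun n => n % Wm X = b)).filter
      (fun n => ¬ ∃ i < 2 * k, Co X n (B i))).card : ℝ) ≤
      (((Ico x (x + X)).filter (fun n => n % Wm X = b)).card : ℝ) := by
      exact_mod_cast card_filter_le _ _
    have h2 := card_class x X b
    have h3 : 1 ≤ (X : ℝ) / Wm X := by
      rw [le_div_iff₀ hWr]
      linarith
    linarith
  rw [card_fib x X (fun n => ¬ ∃ i < 2 * k, Co X n (B i))]
  push_cast
  rw [← sum_filter_add_sum_filter_not (range (Wm X)) (fun b => k ≤ (I b).card)]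
  have s1 : ∑ b ∈ G, ((((Ico x (x + X)).filter (fun n => n % Wm X = b)).filter
      (fun n => ¬ ∃ i < 2 * k, Co X n (B i))).card : ℝ) ≤ 2 * ε * X := by
    calc _ ≤ ∑ b ∈ G, (ε * ((X : ℝ) / Wm X) + 1) := sum_le_sum hgood
      _ = G.card * (ε * ((X : ℝ) / Wm X) + 1) := by rw [sum_const, nsmul_eq_mul]
      _ ≤ Wm X * (ε * ((X : ℝ) / Wm X) + 1) := by
          apply mul_le_mul_of_nonneg_right _ (by positivity)
          have : G.card ≤ Wm X := by
            calc G.card ≤ (range (Wm X)).card := card_filter_le _ _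
              _ = _ := card_range _
          exact_mod_cast this
      _ = ε * X + Wm X := by field_simp
      _ ≤ 2 * ε * X := by linarith
  have s2 : ∑ b ∈ Z, ((((Ico x (x + X)).filter (fun n => n % Wm X = b)).filter
      (fun n => ¬ ∃ i < 2 * k, Co X n (B i))).card : ℝ) ≤ 2 * M / (k * κ * Real.log X) * X := by
    calc _ ≤ ∑ b ∈ Z, 2 * ((X : ℝ) / Wm X) := sum_le_sum hbad
      _ = Z.card * (2 * ((X : ℝ) / Wm X)) := by rw [sum_const, nsmul_eq_mul]
      _ ≤ M * Wm X / (k * κ * Real.log X) * (2 * ((X : ℝ) / Wm X)) :=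
          mul_le_mul_of_nonneg_right hZcard (by positivity)
      _ = _ := by field_simp
  have := add_le_add s1 s2
  refine this.trans (le_of_eq ?_)
  ring

end Pool.Agent.R502.WD
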