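import Pool.Agent.R502.WD.Sqrt

/-!
Windows of primes above `√N`: the parameters, and the sum over the short intervals.
-/

set_option autoImplicit false

open Finset Filter Topology

namespace Pool.Agent.R502.WD

open Pool.Agent.R526.AA

/-- few short intervals have many primes above their square root -/
theorem bad_j (a M J T S : ℕ) (R : ℝ) (hS : ∀ j < J, Nat.sqrt (a + j * M) ≤ S)
    (hSM : 2 * S + 2 ≤ 5 * M) :
    (((range J).filter (fun j => R < (((Ioc (Nat.sqrt (a + j * M))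
      (Nat.sqrt (a + j * M) + T)).filter Nat.Prime).card : ℝ))).card : ℝ) * R ≤
      5 * T * Nat.primeCounting (S + T) := by
  classical
  set s : ℕ → ℕ := fun j => Nat.sqrt (a + j * M) with hs
  set PR := (range (S + T + 1)).filter Nat.Prime with hPR
  have h1 : ∀ j < J, ((Ioc (s j) (s j + T)).filter Nat.Prime).card =
      ∑ p ∈ PR, if s j < p ∧ p ≤ s j + T then 1 else 0 := by
    intro j hj
    rw [← card_filter]
    congr 1
    ext p
    have hSj : s j ≤ S := hS j hj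
    simp only [hPR, mem_filter, mem_range, mem_Ioc]
    constructor
    · rintro ⟨h1, h2⟩
      exact ⟨⟨by omega, h2⟩, h1⟩
    · rintro ⟨⟨_, h2⟩, h1⟩
      exact ⟨h1, h2⟩
  calc _ = ∑ j ∈ (range J).filter (fun j => R < (((Ioc (s j)
        (s j + T)).filter Nat.Prime).card : ℝ)), R := by rw [sum_const, nsmul_eq_mul]
    _ ≤ ∑ j ∈ (range J).filter (fun j => R < (((Ioc (s j)
        (s j + T)).filter Nat.Prime).card : ℝ)),
        (((Ioc (s j) (s j + T)).filter Nat.Prime).card : ℝ) :=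
        sum_le_sum fun j hj => (mem_filter.1 hj).2.le
    _ ≤ ∑ j ∈ range J, (((Ioc (s j) (s j + T)).filter Nat.Prime).card : ℝ) :=
        sum_le_sum_of_subset_of_nonneg (filter_subset _ _) (fun _ _ _ => Nat.cast_nonneg _)
    _ = ((∑ j ∈ range J, ∑ p ∈ PR, if s j < p ∧ p ≤ s j + T then 1 else 0 : ℕ) : ℝ) := by
        rw [Nat.cast_sum]
        refine sum_congr rfl fun j hj => ?_
        rw [h1 j (mem_range.1 hj)]
    _ ≤ ((∑ p ∈ PR, 5 * T : ℕ) : ℝ) := by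
        apply Nat.cast_le.2
        rw [sum_comm]
        refine sum_le_sum fun p _ => ?_
        rw [← card_filter]
        exact card_j a M J T S p hS hSM
    _ = 5 * T * Nat.primeCounting (S + T) := by
        rw [sum_const, smul_eq_mul]
        have : PR.card = Nat.primeCounting (S + T) := by
          rw [Nat.primeCounting, Nat.primeCounting', Nat.count_eq_card_filter_range]
        rw [this]
        push_cast
        ring

/-- the length of the fixed blocks -/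
noncomputable def HB (lam : ℝ) (X : ℕ) : ℕ := 2 * ⌈lam * Real.log (3 * X) ^ 2⌉₊ + 3

theorem params (lam : ℝ) (hlam : 0 < lam) (K₁ X₁ : ℕ) : ∃ X₀ : ℕ, ∀ X : ℕ, X₀ ≤ X →
    X₁ ≤ Nat.sqrt X ∧ 16 ≤ Nat.sqrt X ∧ 1 ≤ Real.log (Nat.sqrt X) ∧
    2 * Nat.sqrt (3 * X) + 2 ≤ 5 * Nat.sqrt X ∧
    (HB lam X : ℝ) ≤ 6 * (lam * Real.log X ^ 2) ∧
    (HB lam X : ℝ) ≤ 54 * lam * Real.log (Nat.sqrt X) ^ 2 ∧
    ((K₁ * HB lam X + 1 : ℕ) : ℝ) ≤ Real.log (Nat.sqrt X) ^ 3 ∧
    4 * (K₁ * HB lam X + 1) ≤ Nat.sqrt X ∧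
    ((3 * X : ℕ) : ℝ) ≤ (Nat.sqrt X : ℝ) ^ (5 / 2 : ℝ) ∧ 5 * Nat.sqrt X ≤ X ∧
    (Nat.primeCounting (3 * Nat.sqrt X) : ℝ) ≤
      6 * (Nat.sqrt X / Real.log (Nat.sqrt X)) := by
  obtain ⟨Y₀, hY₀⟩ := Pool.Agent.R502.TW.sizes
  have tS : Tendsto (fun X : ℕ => ((Nat.sqrt X : ℕ) : ℝ)) atTop atTop := by
    apply tendsto_natCast_atTop_atTop.comp
    apply tendsto_atTop_atTop.2
    intro b
    exact ⟨b * b, fun a ha => Nat.le_sqrt.2 ha⟩
  have tL : Tendsto (fun X : ℕ => Real.log (Nat.sqrt X)) atTop atTop :=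
    Real.tendsto_log_atTop.comp tS
  have e1 : ∀ᶠ X : ℕ in atTop, (X₁ : ℝ) + Y₀ + 144 ≤ Nat.sqrt X := tS.eventually_ge_atTop _
  have e2 : ∀ᶠ X : ℕ in atTop, 54 * lam * K₁ + 2 + 5 / lam + Real.log 3 * 5 ≤
      Real.log (Nat.sqrt X) := tL.eventually_ge_atTop _
  have e3 : ∀ᶠ X : ℕ in atTop, Real.log (Nat.sqrt X) ^ 3 ≤ 1 / 4 * (Nat.sqrt X : ℝ) := by
    have h1 := (Real.isLittleO_pow_log_id_atTop (n := 3)).def (show (0 : ℝ) < 1 / 4 by norm_num)
    filter_upwards [tS.eventually h1, tS.eventually_ge_atTop 1] with X h2 h3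
    rw [Real.norm_eq_abs, Real.norm_eq_abs, id, abs_of_nonneg (by
      have := Real.log_nonneg h3
      positivity), abs_of_nonneg (by linarith)] at h2
    exact h2
  obtain ⟨X₀, hX₀⟩ := eventually_atTop.1 (e1.and (e2.and e3))
  refine ⟨X₀, fun X hX => ?_⟩
  obtain ⟨h1, h2, h3⟩ := hX₀ X hX
  obtain ⟨M, hM⟩ : ∃ M, M = Nat.sqrt X := ⟨_, rfl⟩
  rw [← hM] at h1 h2 h3 ⊢
  have hX1r : (0 : ℝ) ≤ X₁ := Nat.cast_nonneg _
  have hY0r : (0 : ℝ) ≤ Y₀ := Nat.cast_nonneg _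
  have hM144 : 144 ≤ M := by
    have : (144 : ℝ) ≤ M := by linarith
    exact_mod_cast this
  have hM144r : (144 : ℝ) ≤ M := by exact_mod_cast hM144
  have hM0 : (0 : ℝ) < M := by linarith
  have hlow : M * M ≤ X := by rw [hM]; exact Nat.sqrt_le X
  have hup : X < (M + 1) * (M + 1) := by rw [hM]; exact Nat.lt_succ_sqrt X
  have hXpos : 0 < X := by nlinarith
  have hXr : (0 : ℝ) < X := by exact_mod_cast hXpos
  set l := Real.log M with hl
  have hK0 : (0 : ℝ) ≤ 54 * lam * K₁ := by positivity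
  have hl5 : 0 < 5 / lam := by positivity
  have hl3 : 0 < Real.log 3 := Real.log_pos (by norm_num)
  have hl2 : 2 ≤ l := by linarith
  -- `log X ≤ 3 log M`
  have hX3 : (X : ℝ) ≤ (M : ℝ) ^ 3 := by
    have : X ≤ M ^ 3 := by nlinarith
    exact_mod_cast this
  have hlX : Real.log X ≤ 3 * l := by
    have := Real.log_le_log hXr hX3
    rwa [Real.log_pow] at this
  have hlX2 : l ≤ Real.log X := by
    apply Real.log_le_log hM0
    have : M ≤ X := by nlinarith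
    exact_mod_cast this
  have hL3 : Real.log (3 * X) = Real.log 3 + Real.log X :=
    Real.log_mul (by norm_num) hXr.ne'
  set LX := Real.log X with hLX
  have hLXpos : 0 < LX := by linarith
  have hL3' : Real.log (3 * X) ≤ 6 / 5 * LX := by
    rw [hL3]
    linarith
  have hL3n : 0 ≤ Real.log (3 * X) := by rw [hL3]; linarith
  have hHB : (HB lam X : ℝ) ≤ 6 * (lam * LX ^ 2) := by
    unfold HB
    push_cast
    have h4 : (⌈lam * Real.log (3 * X) ^ 2⌉₊ : ℝ) < lam * Real.log (3 * X) ^ 2 + 1 :=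
      Nat.ceil_lt_add_one (by positivity)
    have h5 : Real.log (3 * X) ^ 2 ≤ (6 / 5 * LX) ^ 2 := pow_le_pow_left₀ hL3n hL3' 2
    have h6 : lam * Real.log (3 * X) ^ 2 ≤ lam * (6 / 5 * LX) ^ 2 :=
      mul_le_mul_of_nonneg_left h5 hlam.le
    have h7 : 5 ≤ lam * LX := by
      have : 5 / lam ≤ LX := by linarith
      rw [div_le_iff₀ hlam] at this
      linarith
    have h8 : 5 ≤ lam * LX ^ 2 := by nlinarith
    have h9 : lam * (6 / 5 * LX) ^ 2 = 36 / 25 * (lam * LX ^ 2) := by ring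
    nlinarith
  have hHB2 : (HB lam X : ℝ) ≤ 54 * lam * l ^ 2 := by
    refine hHB.trans ?_
    have h4 : LX ^ 2 ≤ (3 * l) ^ 2 := pow_le_pow_left₀ hLXpos.le hlX 2
    have h5 := mul_le_mul_of_nonneg_left h4 hlam.le
    have h6 : 6 * (lam * (3 * l) ^ 2) = 54 * lam * l ^ 2 := by ring
    linarith
  have hT : ((K₁ * HB lam X + 1 : ℕ) : ℝ) ≤ l ^ 3 := by
    push_cast
    have h4 : (K₁ : ℝ) * HB lam X ≤ K₁ * (54 * lam * l ^ 2) :=
      mul_le_mul_of_nonneg_left hHB2 (Nat.cast_nonneg _)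
    have h5 : (54 * lam * K₁ + 1) * l ^ 2 ≤ l * l ^ 2 := by
      apply mul_le_mul_of_nonneg_right _ (by positivity)
      linarith
    have h6 : (1 : ℝ) ≤ l ^ 2 := one_le_pow₀ (by linarith)
    nlinarith
  have hT4 : 4 * (K₁ * HB lam X + 1) ≤ M := by
    have h4 : (4 : ℝ) * ((K₁ * HB lam X + 1 : ℕ) : ℝ) ≤ M := by linarith
    exact_mod_cast h4
  refine ⟨?_, by omega, by linarith, ?_, hHB, hHB2, hT, hT4, ?_, by nlinarith, ?_⟩
  · have : (X₁ : ℝ) ≤ M := by linarith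
    exact_mod_cast this
  · obtain ⟨S, hS⟩ : ∃ S, S = Nat.sqrt (3 * X) := ⟨_, rfl⟩
    rw [← hS]
    have h4 : S * S ≤ 3 * X := by rw [hS]; exact Nat.sqrt_le _
    by_contra h
    rw [not_le] at h
    have h5 : (5 * M) * (5 * M) ≤ (2 * S + 1) * (2 * S + 1) :=
      Nat.mul_le_mul (by omega) (by omega)
    nlinarith
  · have h4 : ((3 * X : ℕ) : ℝ) ≤ 12 * (M : ℝ) ^ 2 := by
      have : 3 * X ≤ 12 * M ^ 2 := by nlinarith
      exact_mod_cast this
    have h5 : (M : ℝ) ^ (5 / 2 : ℝ) = (M : ℝ) ^ 2 * (M : ℝ) ^ (1 / 2 : ℝ) := by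
      rw [← Real.rpow_natCast, ← Real.rpow_add hM0]
      norm_num
    have h6 : (12 : ℝ) ≤ (M : ℝ) ^ (1 / 2 : ℝ) := by
      rw [← Real.sqrt_eq_rpow]
      apply Real.le_sqrt_of_sq_le
      norm_num
      exact_mod_cast hM144
    rw [h5]
    nlinarith [sq_nonneg (M : ℝ)]
  · obtain ⟨-, -, h4⟩ := hY₀ (3 * M) (by
      have : (Y₀ : ℝ) ≤ M := by linarith
      have : Y₀ ≤ M := by exact_mod_cast this
      omega)
    refine h4.trans ?_
    push_cast
    have h5 : l ≤ Real.log (3 * M) := Real.log_le_log hM0 (by linarith)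
    have h6 : 3 * (M : ℝ) / Real.log (3 * M) ≤ 3 * M / l :=
      div_le_div_of_nonneg_left (by positivity) (by linarith) h5
    calc 2 * (3 * (M : ℝ) / Real.log (3 * M)) ≤ 2 * (3 * M / l) := by linarith
      _ = 6 * (M / l) := by ring

end Pool.Agent.R502.WD
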